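import Pool.Agent.H84.AR.Grp

/-!
# Explicit elements are unitary
-/

set_option autoImplicit false

namespace H84.AR

open O5 Matrix

theorem uM_adj : ∀ k < 10, adj (uM k) * uM k = 1 := by decide +kernel

theorem d1_adj : adj (kM 1 0 0) * kM 1 0 0 = 1 := by decide +kernel

theorem d2_adj : adj (kM 0 1 0) * kM 0 1 0 = 1 := by decide +kernel

theorem sw_adj : adj (kM 0 0 1) * kM 0 0 1 = 1 := by decide +kernel

theorem sM_adj : ∀ l < 4, adj (sM l) * sM l = 1 := by decide +kernel

end H84.AR
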