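import Pool.Agent.H84.AR.Disc

/-!
# Geo1: every point of the ball can be moved into `D`

`poly`: let `w ≠ 0`, choose `k` with the argument of `w * e1 (mu k)` in `[-π/10, π/10]` (`e1 (mu k) = exp (i π k / 5)`;
lemma `e1_mu`), so `Re (w e1 (mu k)) ≥ |w| cos (π/10)`; then `1 ≤ |w|² - 2 φ |w| cos (π/10) + φ²`, `φ² = φ + 1`,
`(φ cos (π/10))² = φ² (5 + √5)/8 = φ + 3/4` (`cos (π/10)² = (1 + cos (π/5))/2`, `Real.cos_pi_div_five`), so `|w|` is outside the
interval between the roots `c ∓ √3/2`, `c = √(φ + 3/4) ∈ (1.538, 1.539)`; as `|w|² < φ`, `|w| < 1.273 < c + √3/2`: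
`|w| ≤ c - √3/2 < 0.674` and `0.674² < 0.455`.
`geo1`: let `z` be in the ball, `r = nsq z`. Among the elements `g` with `nsq (fl (rho g) z) ≤ r` (finite set by
`disc`, contains `1`) take one with `y = fl (rho g) z` of smallest `nsq`; then `nsq y ≤ nsq (fl (rho h) y)` for all
`h` (`fl_mul`). Hence `1 ≤ normSq (den (rho h) y)` (`one_sub_nsq_fl`). For
`h = (gS 1)⁻¹ * (nf 0 k 0 0).1` the third row of `mat h` is `(-ρ^k, 0, φ)`, so
`den (rho h) y = φ - √φ e1 (mu k) y.1`: `1 ≤ normSq (w e1 (mu k) - φ)` for `w = √φ y.1`, `normSq w < φ`: `poly`. Same for `y.2`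
with `h = (gS 1)⁻¹ * gW * (nf 0 0 k 0).1` (third row `(0, -ρ^k, φ)`).
-/

set_option autoImplicit false

namespace H84.AR

open O5 Complex Pool.Agent.H89.SG

private theorem g1_mu_pow (k : ℕ) : mu k = mu 1 ^ k := by
  induction k with
  | zero => rw [pow_zero]; rfl
  | succ n ih => rw [pow_succ, ← ih, mu_add]

private theorem g1_e1_one : e1 (mu 1) = exp ((Real.pi / 5 : ℝ) * I) := by
  have h1 : e1 (mu 1) = -zc ^ 3 := by
    rw [e1_apply]
    simp only [O5.mu]
    push_cast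
    ring
  rw [h1]
  unfold zc
  rw [← exp_nat_mul, neg_eq_neg_one_mul, ← Complex.exp_pi_mul_I, ← Complex.exp_add,
    Complex.exp_eq_exp_iff_exists_int]
  exact ⟨1, by push_cast; ring⟩

theorem e1_mu (k : ℕ) : e1 (mu k) = exp ((Real.pi * k / 5 : ℝ) * I) := by
  rw [g1_mu_pow, map_pow, g1_e1_one, ← exp_nat_mul]
  congr 1
  push_cast
  ring

private theorem g1_exp_mod (n : ℤ) : ∃ k < 10, e1 (mu k) = exp ((-(Real.pi * n / 5) : ℝ) * I) := by
  refine ⟨((-n) % 10).toNat, ?_, ?_⟩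
  · have := Int.emod_lt_of_pos (-n) (show (0 : ℤ) < 10 by norm_num)
    omega
  · rw [e1_mu, Complex.exp_eq_exp_iff_exists_int]
    have h0 := Int.emod_nonneg (-n) (show (10 : ℤ) ≠ 0 by norm_num)
    have h1 := Int.emod_add_mul_ediv (-n) 10
    have h2 : (((((-n) % 10).toNat : ℕ) : ℤ) : ℝ) = ((-n : ℤ) : ℝ) - 10 * (((-n) / 10 : ℤ) : ℝ) := by
      rw [Int.toNat_of_nonneg h0]
      have h3 : (-n) % 10 = -n - 10 * ((-n) / 10) := by linarith
      rw [h3]
      push_cast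
      ring
    refine ⟨-((-n) / 10), ?_⟩
    have h4 : ((((-n) % 10).toNat : ℕ) : ℝ) = -(n : ℝ) - 10 * (((-n) / 10 : ℤ) : ℝ) := by
      have := h2
      push_cast at this ⊢
      linarith
    have h5 : ((((-n) % 10).toNat : ℕ) : ℂ) = -(n : ℂ) - 10 * (((-n) / 10 : ℤ) : ℂ) := by
      exact_mod_cast h4
    rw [Complex.ofReal_div, Complex.ofReal_mul, Complex.ofReal_natCast, h5]
    push_cast
    ring

private theorem g1_choose (w : ℂ) : ∃ k < 10, ‖w‖ * Real.cos (Real.pi / 10) ≤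
    (w * e1 (mu k)).re := by
  have hpi := Real.pi_pos
  set n : ℤ := round (arg w / (Real.pi / 5)) with hn
  obtain ⟨k, hk, he⟩ := g1_exp_mod n
  refine ⟨k, hk, ?_⟩
  have h1 : |arg w / (Real.pi / 5) - n| ≤ 1 / 2 := abs_sub_round _
  have h2 : |arg w - Real.pi * n / 5| ≤ Real.pi / 10 := by
    have h3 : arg w - Real.pi * n / 5 = (arg w / (Real.pi / 5) - n) * (Real.pi / 5) := by
      field_simp
    rw [h3, abs_mul, abs_of_pos (show 0 < Real.pi / 5 by positivity)]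
    nlinarith
  have h4 : w * e1 (mu k) = ‖w‖ * exp ((arg w - Real.pi * n / 5 : ℝ) * I) := by
    rw [he]
    conv_lhs => rw [← Complex.norm_mul_exp_arg_mul_I w]
    rw [mul_assoc, ← Complex.exp_add]
    congr 2
    push_cast
    ring
  rw [h4, Complex.re_ofReal_mul, Complex.exp_ofReal_mul_I_re]
  apply mul_le_mul_of_nonneg_left _ (norm_nonneg w)
  rw [← Real.cos_abs (arg w - Real.pi * n / 5)]
  exact Real.cos_le_cos_of_nonneg_of_le_pi (abs_nonneg _) (by linarith) h2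

private theorem g1_cos_sq : (Real.goldenRatio * Real.cos (Real.pi / 10)) ^ 2 =
    Real.goldenRatio + 3 / 4 := by
  have h1 : Real.cos (Real.pi / 10) ^ 2 = 1 / 2 + Real.cos (Real.pi / 5) / 2 := by
    rw [Real.cos_sq]
    congr 3
    ring
  have h2 : Real.cos (Real.pi / 5) = Real.goldenRatio / 2 := by
    rw [Real.cos_pi_div_five, Real.goldenRatio]
    ring
  have h3 := Real.goldenRatio_sq
  rw [mul_pow, h1, h2, h3]
  nlinarith


theorem poly (w : ℂ) (hw : normSq w < Real.goldenRatio)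
    (h : ∀ k < 10, 1 ≤ normSq (w * e1 (mu k) - Real.goldenRatio)) : normSq w < 0.455 := by
  obtain ⟨k, hk, hre⟩ := g1_choose w
  have h1 := h k hk
  have h2 : normSq (w * e1 (mu k) - Real.goldenRatio) =
      ‖w‖ ^ 2 - 2 * Real.goldenRatio * (w * e1 (mu k)).re + Real.goldenRatio ^ 2 := by
    have h3 : ‖e1 (mu k)‖ = 1 := by rw [e1_mu, Complex.norm_exp_ofReal_mul_I]
    rw [Complex.normSq_sub, Complex.normSq_mul, Complex.normSq_eq_norm_sq w,
      Complex.normSq_eq_norm_sq (e1 (mu k)), h3, Complex.normSq_ofReal, Complex.conj_ofReal,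
      mul_comm (w * e1 (mu k)) _, Complex.re_ofReal_mul]
    ring
  rw [h2] at h1
  have h4 := Real.goldenRatio_pos
  have h5 := Real.goldenRatio_sq
  have h6 := g1_cos_sq
  have h7 : 0 ≤ ‖w‖ := norm_nonneg w
  rw [Complex.normSq_eq_norm_sq] at hw ⊢
  have h8 : 0 < Real.cos (Real.pi / 10) :=
    Real.cos_pos_of_mem_Ioo ⟨by linarith [Real.pi_pos], by linarith [Real.pi_pos]⟩
  set c : ℝ := Real.goldenRatio * Real.cos (Real.pi / 10) with hc
  have hc0 : 0 < c := mul_pos h4 h8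
  have h9 : 2 * c * ‖w‖ ≤ ‖w‖ ^ 2 + Real.goldenRatio := by
    have h10 : Real.goldenRatio * (‖w‖ * Real.cos (Real.pi / 10)) ≤
        Real.goldenRatio * (w * e1 (mu k)).re := mul_le_mul_of_nonneg_left hre h4.le
    have h11 : c * ‖w‖ = Real.goldenRatio * (‖w‖ * Real.cos (Real.pi / 10)) := by
      rw [hc]; ring
    nlinarith
  have h12 : (2 * c * ‖w‖) ^ 2 ≤ (‖w‖ ^ 2 + Real.goldenRatio) ^ 2 :=
    pow_le_pow_left₀ (by positivity) h9 2
  have h13 : (2 * c * ‖w‖) ^ 2 = (4 * Real.goldenRatio + 3) * ‖w‖ ^ 2 := by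
    rw [mul_pow, mul_pow, h6]; ring
  rw [h13] at h12
  have hlo : (1.618 : ℝ) < Real.goldenRatio := by
    rw [Real.goldenRatio]
    have : (2.236 : ℝ) < √5 := Real.lt_sqrt_of_sq_lt (by norm_num)
    linarith
  have hhi : Real.goldenRatio < (1.6181 : ℝ) := by
    rw [Real.goldenRatio]
    have : √5 < (2.2361 : ℝ) := (Real.sqrt_lt' (by norm_num)).2 (by norm_num)
    linarith
  by_contra hcon
  push Not at hcon
  generalize ‖w‖ ^ 2 = s at *
  generalize Real.goldenRatio = p at *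
  have h14 : 0 ≤ s ^ 2 - (2 * p + 3) * s + p + 1 := by nlinarith
  have h15 : (s - 0.455) * (s - p) ≤ 0 :=
    mul_nonpos_of_nonneg_of_nonpos (by linarith) (by linarith)
  nlinarith

private theorem g1_den (g : Gam) (y : E) : den (rho g) y =
    sq * e1 (mat g 2 0) * y.1 + sq * e1 (mat g 2 1) * y.2 + e1 (mat g 2 2) := by
  have h0 : dv 0 = 1 := by unfold dv; rw [if_neg (by decide)]
  have h1 : dv 1 = 1 := by unfold dv; rw [if_neg (by decide)]
  have h2 : dv 2 = sq := by unfold dv; rw [if_pos rfl]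
  have h3 : (sq : ℂ) ≠ 0 := by exact_mod_cast sq_pos.ne'
  unfold den
  rw [rho_apply, rho_apply, rho_apply, h0, h1, h2, inv_one, mul_one, mul_one]
  rw [mul_comm (sq : ℂ) (e1 (mat g 2 2)), mul_assoc (e1 (mat g 2 2)), mul_inv_cancel₀ h3, mul_one]

private theorem g1_matX (k : ℕ) : mat (gX ^ k) = !![mu k, 0, 0; 0, 1, 0; 0, 0, 1] := by
  induction k with
  | zero => rw [pow_zero, mat_one]; decide +kernel
  | succ n ih =>
    rw [pow_succ, mat_mul, ih]
    have h1 : mat gX = !![mu 1, 0, 0; 0, 1, 0; 0, 0, 1] := by decide +kernel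
    rw [h1, ← mu_add n 1]
    refine Matrix.ext fun i j => ?_
    fin_cases i <;> fin_cases j <;> simp [Matrix.mul_apply, Fin.sum_univ_three]

private theorem g1_matY (k : ℕ) : mat (gY ^ k) = !![1, 0, 0; 0, mu k, 0; 0, 0, 1] := by
  induction k with
  | zero => rw [pow_zero, mat_one]; decide +kernel
  | succ n ih =>
    rw [pow_succ, mat_mul, ih]
    have h1 : mat gY = !![1, 0, 0; 0, mu 1, 0; 0, 0, 1] := by decide +kernel
    rw [h1, ← mu_add n 1]
    refine Matrix.ext fun i j => ?_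
    fin_cases i <;> fin_cases j <;> simp [Matrix.mul_apply, Fin.sum_univ_three]

private theorem g1_row (g : Gam) (k : Gam) (j : Fin 3) : mat (g * k) 2 j =
    mat g 2 0 * mat k 0 j + mat g 2 1 * mat k 1 j + mat g 2 2 * mat k 2 j := by
  rw [mat_mul, Matrix.mul_apply, Fin.sum_univ_three]

private theorem g1_A : mat (gS 1)⁻¹ 2 0 = -1 ∧ mat (gS 1)⁻¹ 2 1 = 0 ∧ mat (gS 1)⁻¹ 2 2 = ph := by
  rw [mat_inv]
  decide +kernel

private theorem g1_B : mat ((gS 1)⁻¹ * gW) 2 0 = 0 ∧ mat ((gS 1)⁻¹ * gW) 2 1 = -1 ∧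
    mat ((gS 1)⁻¹ * gW) 2 2 = ph := by
  rw [mat_mul, mat_inv]
  decide +kernel

private theorem g1_denX (k : ℕ) (y : E) : den (rho ((gS 1)⁻¹ * gX ^ k)) y =
    Real.goldenRatio - (sq * y.1) * e1 (mu k) := by
  obtain ⟨h0, h1, h2⟩ := g1_A
  rw [g1_den, g1_row, g1_row, g1_row, h0, h1, h2, g1_matX]
  simp only [Matrix.of_apply, Matrix.cons_val', Matrix.cons_val_zero, Matrix.cons_val_one,
    Matrix.cons_val, Matrix.cons_val_fin_one]
  rw [show (-1 * mu k + 0 * 0 + ph * 0 : O5) = -mu k by ring,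
    show (-1 * 0 + 0 * 1 + ph * 0 : O5) = 0 by ring,
    show (-1 * 0 + 0 * 0 + ph * 1 : O5) = ph by ring, map_neg, map_zero, e1_ph]
  ring

private theorem g1_denY (k : ℕ) (y : E) : den (rho ((gS 1)⁻¹ * gW * gY ^ k)) y =
    Real.goldenRatio - (sq * y.2) * e1 (mu k) := by
  obtain ⟨h0, h1, h2⟩ := g1_B
  rw [g1_den, g1_row _ _ 0, g1_row ((gS 1)⁻¹ * gW) _ 1, g1_row ((gS 1)⁻¹ * gW) _ 2, h0, h1, h2, g1_matY]
  simp only [Matrix.of_apply, Matrix.cons_val', Matrix.cons_val_zero, Matrix.cons_val_one,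
    Matrix.cons_val, Matrix.cons_val_fin_one]
  rw [show (0 * 1 + -1 * 0 + ph * 0 : O5) = 0 by ring,
    show (0 * 0 + -1 * mu k + ph * 0 : O5) = -mu k by ring,
    show (0 * 0 + -1 * 0 + ph * 1 : O5) = ph by ring, map_neg, map_zero, e1_ph]
  ring

private theorem g1_fin {x : ℂ} (hx : normSq x < 1)
    (h : ∀ k < 10, 1 ≤ normSq ((Real.goldenRatio : ℂ) - (sq * x) * e1 (mu k))) :
    Real.goldenRatio * normSq x < 0.455 := by
  have h1 : normSq ((sq : ℂ) * x) = Real.goldenRatio * normSq x := by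
    rw [Complex.normSq_mul, Complex.normSq_ofReal, sq_sq]
  rw [← h1]
  apply poly
  · rw [h1]
    have := Real.goldenRatio_pos
    nlinarith
  · intro k hk
    rw [← Complex.normSq_neg, neg_sub]
    exact h k hk

theorem geo1 {z : E} (hz : z ∈ ball) : ∃ g : Gam, fl (rho g) z ∈ Dp := by
  have hz1 : nsq z < 1 := hz
  set S : Set Gam := {g | nsq (fl (rho g) z) ≤ nsq z} with hS
  have hfin : S.Finite := by
    refine (disc (nsq z) hz1).subset ?_
    intro g hg
    exact ⟨z, le_rfl, hg⟩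
  have hne : S.Nonempty := ⟨1, by
    show nsq (fl (rho 1) z) ≤ nsq z
    rw [map_one, fl_one]⟩
  obtain ⟨g, hgS, hmin⟩ := Set.exists_min_image S (fun g => nsq (fl (rho g) z)) hfin hne
  refine ⟨g, ?_⟩
  have hyb : fl (rho g) z ∈ ball := fl_mem (rho_UM g) hz
  have hy1 : nsq (fl (rho g) z) < 1 := hyb
  have hle : ∀ h : Gam, nsq (fl (rho g) z) ≤ nsq (fl (rho h) (fl (rho g) z)) := by
    intro h
    rw [← fl_mul (rho_UM h) (rho_UM g) hz, ← map_mul]
    by_cases hh : h * g ∈ S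
    · exact hmin _ hh
    · have h1 : nsq z < nsq (fl (rho (h * g)) z) := not_le.1 hh
      have h2 : nsq (fl (rho g) z) ≤ nsq z := hgS
      linarith
  have hden : ∀ h : Gam, 1 ≤ normSq (den (rho h) (fl (rho g) z)) := by
    intro h
    have h1 := one_sub_nsq_fl (rho_UM h) hyb
    have h2 := hle h
    have h3 := normSq_nonneg (den (rho h) (fl (rho g) z))
    by_contra hcon
    push Not at hcon
    nlinarith
  generalize fl (rho g) z = y at *
  have hy2 : normSq y.1 + normSq y.2 < 1 := hy1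
  have hn1 := normSq_nonneg y.1
  have hn2 := normSq_nonneg y.2
  refine ⟨g1_fin (by linarith) fun k _ => ?_, g1_fin (by linarith) fun k _ => ?_⟩
  · rw [← g1_denX]
    exact hden _
  · rw [← g1_denY]
    exact hden _

end H84.AR
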