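import Pool.Agent.H84.AR.GeoT

/-!
# Geo2: if `D` meets `g D` then `g ∈ InS`

See the header of `GeoT`. `tcol`: for `x y z` the third column of `g` as listed there is an explicit
element of `RR` up to right multiplication by `nf`: the third columns of `s1, s2, s3` are
`(φ, 0, φ)`, `(φ², φ, φ²)`, `(φ² ρ^i, φ², π φ² ρ^j)` for suitable `i`, `j` (`decide`), and
`nf u a b s` multiplies by `ρ^u`, `ρ^a`, `ρ^b` and permutes the first two entries.
-/

set_option autoImplicit false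

namespace H84.AR

open O5 Complex Pool.Agent.H89.SG

private theorem g2_mu0 : O5.mu 0 = 1 := rfl

private theorem g2_mu_congr {a b : ℕ} (h : a % 10 = b % 10) : O5.mu a = O5.mu b := by
  rw [← mu_mod a, ← mu_mod b, h]

private theorem g2_pU_pow (u : ℕ) : pU ^ u = nf u 0 0 0 := by
  unfold nf
  simp

private theorem g2_comm (u : ℕ) (r : P) : pU ^ u * r = r * pU ^ u :=
  ((Commute.pow_left (show Commute pU r from pU_comm r) u)).eq

private theorem g2_of (u a b s : ℕ) (l : Fin 4) (u' a' b' s' : ℕ) :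
    nf u a b s * pS l * nf u' a' b' s' ∈ RR := by
  obtain ⟨u2, a2, b2, s2, h2⟩ := nf_mul u' 0 0 0 u a b s
  refine ⟨u2, a2, b2, s2, l, a', b', s', ?_⟩
  rw [← h2, ← g2_pU_pow, nf_split u', g2_comm u' (nf u a b s)]
  calc nf u a b s * pS l * (pU ^ u' * nf 0 a' b' s')
      = nf u a b s * (pS l * pU ^ u') * nf 0 a' b' s' := by simp only [mul_assoc]
    _ = nf u a b s * (pU ^ u' * pS l) * nf 0 a' b' s' := by rw [g2_comm u' (pS l)]
    _ = nf u a b s * pU ^ u' * pS l * nf 0 a' b' s' := by simp only [mul_assoc]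

private theorem g2_mem (g : Gam) (l : Fin 4) (u a b s : ℕ)
    (h : ∀ i, mat g i 2 = O5.mu u * (kM a b s * sM l) i 2) : InS g := by
  have hm : mat ((nf 0 a b s).1 * gS l) = kM a b s * sM l := by
    rw [mat_mul, mat_nf, g2_mu0, one_smul]
    rfl
  obtain ⟨u', a', b', s', e⟩ := orb g ((nf 0 a b s).1 * gS l) u (by
    intro i
    rw [hm]
    exact h i)
  exact ⟨nf 0 a b s * pS l * nf u' a' b' s', g2_of _ _ _ _ _ _ _ _ _, e.symm⟩

private theorem g2_mem0 (g : Gam) (l : Fin 4) (u a b : ℕ)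
    (h0 : mat g 0 2 = O5.mu u * (O5.mu a * sM l 0 2)) (h1 : mat g 1 2 = O5.mu u * (O5.mu b * sM l 1 2))
    (h2 : mat g 2 2 = O5.mu u * sM l 2 2) : InS g := by
  refine g2_mem g l u a b 0 ?_
  intro i
  fin_cases i
  · show mat g 0 2 = O5.mu u * (kM a b 0 * sM l) 0 2
    rw [h0]
    simp [kM, Matrix.mul_apply, Fin.sum_univ_three]
  · show mat g 1 2 = O5.mu u * (kM a b 0 * sM l) 1 2
    rw [h1]
    simp [kM, Matrix.mul_apply, Fin.sum_univ_three]
  · show mat g 2 2 = O5.mu u * (kM a b 0 * sM l) 2 2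
    rw [h2]
    simp [kM, Matrix.mul_apply, Fin.sum_univ_three]

private theorem g2_mem1 (g : Gam) (l : Fin 4) (u a b : ℕ)
    (h0 : mat g 0 2 = O5.mu u * (O5.mu a * sM l 1 2)) (h1 : mat g 1 2 = O5.mu u * (O5.mu b * sM l 0 2))
    (h2 : mat g 2 2 = O5.mu u * sM l 2 2) : InS g := by
  refine g2_mem g l u a b 1 ?_
  intro i
  fin_cases i
  · show mat g 0 2 = O5.mu u * (kM a b 1 * sM l) 0 2
    rw [h0]
    simp [kM, Matrix.mul_apply, Fin.sum_univ_three]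
  · show mat g 1 2 = O5.mu u * (kM a b 1 * sM l) 1 2
    rw [h1]
    simp [kM, Matrix.mul_apply, Fin.sum_univ_three]
  · show mat g 2 2 = O5.mu u * (kM a b 1 * sM l) 2 2
    rw [h2]
    simp [kM, Matrix.mul_apply, Fin.sum_univ_three]

private theorem g2_s1 : sM 1 0 2 = ph ∧ sM 1 1 2 = 0 ∧ sM 1 2 2 = ph := ⟨rfl, rfl, rfl⟩

private theorem g2_s2 : sM 2 0 2 = ph * ph ∧ sM 2 1 2 = ph ∧ sM 2 2 2 = ph * ph := by
  decide +kernel

private theorem g2_s3 : ∃ c < 10, ∃ d < 10, sM 3 0 2 = ph * ph * O5.mu c ∧ sM 3 1 2 = ph * ph ∧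
    sM 3 2 2 = pp * ph * ph * O5.mu d := by
  decide +kernel

/-- multiplication of roots of unity -/
private theorem g2_two (X : O5) {u a i : ℕ} (h : (u + a) % 10 = i % 10) :
    X * O5.mu i = O5.mu u * (O5.mu a * X) := by
  rw [← g2_mu_congr h, ← mu_add]
  ring

private theorem g2_three (X : O5) {u a c i : ℕ} (h : (u + a + c) % 10 = i % 10) :
    X * O5.mu i = O5.mu u * (O5.mu a * (X * O5.mu c)) := by
  rw [← g2_mu_congr h, ← mu_add, ← mu_add]
  ring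

private theorem g2_one (X : O5) {u d i : ℕ} (h : (u + d) % 10 = i % 10) :
    X * O5.mu i = O5.mu u * (X * O5.mu d) := by
  rw [← g2_mu_congr h, ← mu_add]
  ring

theorem typ1 (g : Gam) (h1 : nP (mat g 2 2) = 1) (h2 : nQ (mat g 2 2) = 1) : InS g := by
  obtain ⟨k, _, hk⟩ := enum11 _ h1 h2
  obtain ⟨e0, e1, e2⟩ := g2_s1
  rcases (pairs g).2.1 h1 h2 with ⟨h3, h4, h5⟩ | ⟨h3, h4, h5⟩
  · obtain ⟨j, _, hj⟩ := enum11 _ h4 h5
    refine g2_mem1 g 1 k 0 (j + 9 * k) ?_ ?_ ?_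
    · show mat g 0 2 = O5.mu k * (O5.mu 0 * sM 1 1 2)
      rw [e1, h3, mul_zero, mul_zero]
    · show mat g 1 2 = O5.mu k * (O5.mu (j + 9 * k) * sM 1 0 2)
      rw [e0, hj]
      exact g2_two _ (by omega)
    · show mat g 2 2 = O5.mu k * sM 1 2 2
      rw [e2, hk, mul_comm]
  · obtain ⟨j, _, hj⟩ := enum11 _ h4 h5
    refine g2_mem0 g 1 k (j + 9 * k) 0 ?_ ?_ ?_
    · show mat g 0 2 = O5.mu k * (O5.mu (j + 9 * k) * sM 1 0 2)
      rw [e0, hj]
      exact g2_two _ (by omega)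
    · show mat g 1 2 = O5.mu k * (O5.mu 0 * sM 1 1 2)
      rw [e1, h3, mul_zero, mul_zero]
    · show mat g 2 2 = O5.mu k * sM 1 2 2
      rw [e2, hk, mul_comm]

theorem typ2 (g : Gam) (h1 : nP (mat g 2 2) = 2) (h2 : nQ (mat g 2 2) = 3) (h3 : mat g 0 2 ≠ 0)
    (h4 : mat g 1 2 ≠ 0) : InS g := by
  obtain ⟨k, _, hk⟩ := enum23 _ h1 h2
  obtain ⟨e0, e1, e2⟩ := g2_s2
  rcases (pairs g).2.2.1 h1 h2 with h5 | h5 | ⟨h5, h6, h7, h8⟩ | ⟨h5, h6, h7, h8⟩
  · exact absurd h5 h3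
  · exact absurd h5 h4
  · obtain ⟨i, _, hi⟩ := enum11 _ h5 h6
    obtain ⟨j, _, hj⟩ := enum23 _ h7 h8
    refine g2_mem1 g 2 k (i + 9 * k) (j + 9 * k) ?_ ?_ ?_
    · show mat g 0 2 = O5.mu k * (O5.mu (i + 9 * k) * sM 2 1 2)
      rw [e1, hi]
      exact g2_two _ (by omega)
    · show mat g 1 2 = O5.mu k * (O5.mu (j + 9 * k) * sM 2 0 2)
      rw [e0, hj]
      exact g2_two _ (by omega)
    · show mat g 2 2 = O5.mu k * sM 2 2 2
      rw [e2, hk, mul_comm]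
  · obtain ⟨i, _, hi⟩ := enum23 _ h5 h6
    obtain ⟨j, _, hj⟩ := enum11 _ h7 h8
    refine g2_mem0 g 2 k (i + 9 * k) (j + 9 * k) ?_ ?_ ?_
    · show mat g 0 2 = O5.mu k * (O5.mu (i + 9 * k) * sM 2 0 2)
      rw [e0, hi]
      exact g2_two _ (by omega)
    · show mat g 1 2 = O5.mu k * (O5.mu (j + 9 * k) * sM 2 1 2)
      rw [e1, hj]
      exact g2_two _ (by omega)
    · show mat g 2 2 = O5.mu k * sM 2 2 2
      rw [e2, hk, mul_comm]

theorem typ3 (g : Gam) (h1 : nP (mat g 2 2) = 3) (h2 : nQ (mat g 2 2) = 4) : InS g := by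
  obtain ⟨k, _, hk⟩ := enum34 _ h1 h2
  obtain ⟨c, hc, d, hd, e0, e1, e2⟩ := g2_s3
  obtain ⟨h5, h6, h7, h8⟩ := (pairs g).2.2.2.1 h1 h2
  obtain ⟨i, _, hi⟩ := enum23 _ h5 h6
  obtain ⟨j, _, hj⟩ := enum23 _ h7 h8
  refine g2_mem0 g 3 (k + 9 * d) (i + 9 * (k + 9 * d) + 9 * c) (j + 9 * (k + 9 * d)) ?_ ?_ ?_
  · show mat g 0 2 = O5.mu (k + 9 * d) * (O5.mu (i + 9 * (k + 9 * d) + 9 * c) * sM 3 0 2)
    rw [e0, hi]
    exact g2_three _ (by omega)
  · show mat g 1 2 = O5.mu (k + 9 * d) * (O5.mu (j + 9 * (k + 9 * d)) * sM 3 1 2)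
    rw [e1, hj]
    exact g2_two _ (by omega)
  · show mat g 2 2 = O5.mu (k + 9 * d) * sM 3 2 2
    rw [e2, hk]
    exact g2_one _ (by omega)

theorem geo2 (g : Gam) {y : E} (hy : y ∈ Dp) (hz : fl (rho g) y ∈ Dp) : InS g := by
  have hM := rho_UM g
  have hb := alpha_bd hM hy hz
  have hn : normSq (rho g 2 2) = nP (mat g 2 2) + nQ (mat g 2 2) * Real.goldenRatio := by
    rw [rho22, normSq_e1]
  have hphi : (1.6 : ℝ) < Real.goldenRatio := by
    unfold Real.goldenRatio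
    have h5 : (2.2 : ℝ) < √5 := by
      rw [Real.lt_sqrt (by norm_num)]
      norm_num
    linarith
  have hrho : ∀ i : Fin 3, mat g i 2 = 0 → rho g i 2 = 0 := by
    intro i hi
    rw [rho_apply, hi, map_zero, mul_zero, zero_mul]
  rcases types g hb with ⟨h1, h2⟩ | ⟨h1, h2⟩ | ⟨h1, h2⟩ | ⟨h1, h2⟩ | ⟨h1, h2⟩ | ⟨h1, h2⟩
  · obtain ⟨h3, h4⟩ := (pairs g).1 h1 h2
    obtain ⟨u, a, b, s, e⟩ := stabK g h3 h4
    refine ⟨nf u a b s * pS 0 * nf 0 0 0 0, ⟨u, a, b, s, 0, 0, 0, 0, rfl⟩, ?_⟩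
    have h5 : gS 0 = 1 := by
      apply mat_inj
      rfl
    have h6 : (nf 0 0 0 0).1 = 1 := by
      apply mat_inj
      rw [mat_nf, g2_mu0, one_smul, mat_one]
      decide +kernel
    show (nf u a b s).1 * gS 0 * (nf 0 0 0 0).1 = g
    rw [h5, h6, mul_one, mul_one, e]
  · exact typ1 g h1 h2
  · exact absurd h2 (no22 _ h1)
  · have h3 : ¬ (rho g 0 2 = 0 ∨ rho g 1 2 = 0) := by
      intro h0
      have h6 := alpha_bd2 hM hy hz h0
      rw [hn, h1, h2] at h6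
      push_cast at h6
      linarith
    exact typ2 g h1 h2 (fun h => h3 (Or.inl (hrho 0 h))) (fun h => h3 (Or.inr (hrho 1 h)))
  · exact typ3 g h1 h2
  · exfalso
    have h3 : rho g 0 2 = 0 ∨ rho g 1 2 = 0 := by
      rcases (pairs g).2.2.2.2 h1 h2 with h | h
      · exact Or.inl (hrho 0 h)
      · exact Or.inr (hrho 1 h)
    have h6 := alpha_bd2 hM hy hz h3
    rw [hn, h1, h2] at h6
    push_cast at h6
    linarith

end H84.AR
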