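import Pool.Agent.H84.AR.Mac
import Pool.Agent.H84.AR.Geo1
import Pool.Agent.H84.AR.Geo2

/-!
# HomC: the homomorphism `C : Gam → Perm Pt` and generation

Apply `mac` with `E = ℂ × ℂ`, `B = ball` (open; convex because `nsq` is the square of the Euclidean
norm), `U g = {z ∈ ball | fl (rho g⁻¹) z ∈ Dp} = fl (rho g) '' Dp` (open: `fl (rho g⁻¹)` is continuous on
the ball (`contDiffOn_fl` or `IsAut.smooth`); preconnected: image of the convex set `Dp`; nonempty: contains `fl (rho g) 0`;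
`fl_mul`, `fl_one`, `fl_mem`; cover: `geo1`; translation: apply `fl (rho g)` to a common point).
`c g = r.2` for the unique `r ∈ RR` with `r.1 = g` if `InS g`, and `1` otherwise. If `U a ∩ U b ≠ ∅` then
`InS (a⁻¹ b)` (`geo2`: `z = fl (rho a) x = fl (rho b) y`, `x, y ∈ Dp`, `fl (rho (a⁻¹ b)) y = x`; note that
`geo2` is applied to `g = a⁻¹ b` and `y`). `hc`: `RR_mul`, `RR_inj`.
`U 1 ∩ U g ≠ ∅` for `g = gU, gX, gY, gW` (`0` is fixed) and `g = gS 1`: the point
`z = (φ⁻¹ / √φ, 0)`, `fl (rho (gS 1)⁻¹) z = (-φ⁻¹ / √φ, 0)` (both in `Dp`: `φ * φ⁻² / φ = φ⁻² < 0.455`).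
`genC`: `mac_gen`, `geo2`, `InS_gen`.
-/

set_option autoImplicit false

namespace H84.AR

open O5 Complex Pool.Agent.H89.SG

/-- the translates of the polydisc -/
private def hcU (g : Gam) : Set E := ball ∩ (fl (rho g⁻¹)) ⁻¹' Dp

private theorem hc_mul (g h : Gam) {z : E} (hz : z ∈ ball) :
    fl (rho (g * h)) z = fl (rho g) (fl (rho h) z) := by
  rw [map_mul]
  exact fl_mul (rho_UM g) (rho_UM h) hz

private theorem hc_inv_mul (g : Gam) {z : E} (hz : z ∈ ball) :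
    fl (rho g⁻¹) (fl (rho g) z) = z := by
  rw [← hc_mul g⁻¹ g hz, inv_mul_cancel, map_one, fl_one]

private theorem hc_mul_inv (g : Gam) {z : E} (hz : z ∈ ball) :
    fl (rho g) (fl (rho g⁻¹) z) = z := by
  rw [← hc_mul g g⁻¹ hz, mul_inv_cancel, map_one, fl_one]

private theorem hc_cont (g : Gam) : ContinuousOn (fl (rho g)) ball := by
  have h : IsAut (fl (rho g)) := ⟨rho g, rho_UM g, fun _ _ => rfl⟩
  exact h.smooth.continuousOn

private theorem hc_Dp_eq : Dp = {z : E | normSq z.1 < 0.455 / Real.goldenRatio} ∩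
    {z : E | normSq z.2 < 0.455 / Real.goldenRatio} := by
  have hp := Real.goldenRatio_pos
  ext z
  constructor
  · rintro ⟨h1, h2⟩
    exact ⟨by rw [Set.mem_ofPred_eq, lt_div_iff₀ hp, mul_comm]; exact h1,
      by rw [Set.mem_ofPred_eq, lt_div_iff₀ hp, mul_comm]; exact h2⟩
  · rintro ⟨h1, h2⟩
    rw [Set.mem_ofPred_eq, lt_div_iff₀ hp, mul_comm] at h1 h2
    exact ⟨h1, h2⟩

private theorem hc_Dp_open : IsOpen Dp := by
  rw [hc_Dp_eq]
  exact (isOpen_lt (continuous_normSq.comp continuous_fst) continuous_const).inter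
    (isOpen_lt (continuous_normSq.comp continuous_snd) continuous_const)

private theorem hc_disc (r : ℝ) : Convex ℝ {w : ℂ | normSq w < r} := by
  have h : {w : ℂ | normSq w < r} = Metric.ball (0 : ℂ) (√r) := by
    ext w
    rw [Set.mem_ofPred_eq, mem_ball_zero_iff, normSq_eq_norm_sq]
    constructor
    · intro h
      exact Real.lt_sqrt_of_sq_lt h
    · intro h
      have h0 : 0 < √r := lt_of_le_of_lt (norm_nonneg w) h
      have h1 : ‖w‖ ^ 2 < √r ^ 2 := by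
        have := norm_nonneg w
        nlinarith
      rwa [Real.sq_sqrt (Real.sqrt_pos.1 h0).le] at h1
  rw [h]
  exact _root_.convex_ball (0 : ℂ) (√r)

private theorem hc_Dp_conv : Convex ℝ Dp := by
  rw [hc_Dp_eq]
  have h1 := (hc_disc (0.455 / Real.goldenRatio)).linear_preimage (LinearMap.fst ℝ ℂ ℂ)
  have h2 := (hc_disc (0.455 / Real.goldenRatio)).linear_preimage (LinearMap.snd ℝ ℂ ℂ)
  exact h1.inter h2

private theorem hc_open (g : Gam) : IsOpen (hcU g) :=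
  (hc_cont g⁻¹).isOpen_inter_preimage isOpen_ball hc_Dp_open

private theorem hc_pre (g : Gam) : IsPreconnected (hcU g) := by
  have h : hcU g = fl (rho g) '' Dp := by
    ext z
    constructor
    · rintro ⟨h1, h2⟩
      exact ⟨fl (rho g⁻¹) z, h2, hc_mul_inv g h1⟩
    · rintro ⟨x, hx, rfl⟩
      refine ⟨fl_mem (rho_UM g) (Dp_sub hx), ?_⟩
      show fl (rho g⁻¹) (fl (rho g) x) ∈ Dp
      rw [hc_inv_mul g (Dp_sub hx)]
      exact hx
  rw [h]
  exact hc_Dp_conv.isPreconnected.image _ ((hc_cont g).mono Dp_sub)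

private theorem hc_zero : (0 : E) ∈ Dp := by
  constructor
  · show Real.goldenRatio * normSq 0 < 0.455
    rw [map_zero, mul_zero]
    norm_num
  · show Real.goldenRatio * normSq 0 < 0.455
    rw [map_zero, mul_zero]
    norm_num

private theorem hc_mem_img (g : Gam) {x : E} (hx : x ∈ Dp) : fl (rho g) x ∈ hcU g := by
  refine ⟨fl_mem (rho_UM g) (Dp_sub hx), ?_⟩
  show fl (rho g⁻¹) (fl (rho g) x) ∈ Dp
  rw [hc_inv_mul g (Dp_sub hx)]
  exact hx

private theorem hc_mem_one {x : E} (hx : x ∈ Dp) : x ∈ hcU 1 := by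
  have h := hc_mem_img 1 hx
  rwa [map_one, fl_one] at h

private theorem hc_ne (g : Gam) : (hcU g).Nonempty := ⟨_, hc_mem_img g hc_zero⟩

private theorem hc_cov (x : E) (hx : x ∈ ball) : ∃ g, x ∈ hcU g := by
  obtain ⟨g, hg⟩ := geo1 hx
  refine ⟨g⁻¹, hx, ?_⟩
  show fl (rho g⁻¹⁻¹) x ∈ Dp
  rw [inv_inv]
  exact hg

private theorem hc_tr (g a b : Gam) (h : (hcU a ∩ hcU b).Nonempty) :
    (hcU (g * a) ∩ hcU (g * b)).Nonempty := by
  obtain ⟨z, ⟨hz, ha⟩, ⟨-, hb⟩⟩ := h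
  have hz' := fl_mem (rho_UM g) hz
  refine ⟨fl (rho g) z, ⟨hz', ?_⟩, ⟨hz', ?_⟩⟩
  · show fl (rho (g * a)⁻¹) (fl (rho g) z) ∈ Dp
    rw [← hc_mul _ _ hz]
    have : (g * a)⁻¹ * g = a⁻¹ := by group
    rw [this]
    exact ha
  · show fl (rho (g * b)⁻¹) (fl (rho g) z) ∈ Dp
    rw [← hc_mul _ _ hz]
    have : (g * b)⁻¹ * g = b⁻¹ := by group
    rw [this]
    exact hb

private theorem hc_InS (a b : Gam) (h : (hcU a ∩ hcU b).Nonempty) : InS (a⁻¹ * b) := by
  obtain ⟨z, ⟨hz, ha⟩, ⟨-, hb⟩⟩ := h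
  refine geo2 (a⁻¹ * b) (y := fl (rho b⁻¹) z) hb ?_
  rw [← hc_mul _ _ hz]
  have : a⁻¹ * b * b⁻¹ = a⁻¹ := by group
  rw [this]
  exact ha

open Classical in
/-- the second component over `InS` -/
private noncomputable def hcc (g : Gam) : Equiv.Perm Pt :=
  if h : InS g then (Classical.choose h).2 else 1

private theorem hcc_mem {g : Gam} (h : InS g) : ((g, hcc g) : P) ∈ RR := by
  have h1 := Classical.choose_spec h
  have h2 : ((g, hcc g) : P) = Classical.choose h := by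
    unfold hcc
    rw [dif_pos h]
    refine Prod.ext ?_ rfl
    exact h1.2.symm
  rw [h2]
  exact h1.1

private theorem hcc_eq {g : Gam} {q : Equiv.Perm Pt} (h : ((g, q) : P) ∈ RR) : hcc g = q := by
  have h1 : InS g := ⟨_, h, rfl⟩
  have h2 := RR_inj (hcc_mem h1) h rfl
  exact congrArg Prod.snd h2

private theorem hc_fix (g : Gam) (h0 : mat g 0 2 = 0) (h1 : mat g 1 2 = 0) :
    (hcU 1 ∩ hcU g).Nonempty := by
  refine ⟨0, hc_mem_one hc_zero, ?_⟩
  have h := hc_mem_img g hc_zero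
  have e : fl (rho g) 0 = 0 := by
    unfold fl
    rw [rho_apply g 0 2, rho_apply g 1 2, h0, h1]
    simp
  rwa [e] at h

private theorem hc_num (p s : ℝ) (hs : 0 < s) (hp : 0 < p) (hss : s * s = p)
    (hg : p ^ 2 = p + 1) : s * (-(p * s)⁻¹) + p = 1 ∧ p * (-(p * s)⁻¹) + s = (p * s)⁻¹ := by
  constructor
  · have h1 : s * (-(p * s)⁻¹) = -p⁻¹ := by
      field_simp
    have h2 : p⁻¹ = p - 1 := by
      refine mul_left_cancel₀ hp.ne' ?_
      rw [mul_inv_cancel₀ hp.ne', mul_sub, mul_one, ← pow_two, hg]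
      ring
    rw [h1, h2]
    ring
  · have h3 : (p * s) * (p * (-(p * s)⁻¹) + s) = (p * s) * (p * s)⁻¹ := by
      have h4 : p * s ≠ 0 := by positivity
      have h5 : (p * s) * (p * s)⁻¹ = 1 := mul_inv_cancel₀ h4
      have h6 : (p * s) * (p * (-(p * s)⁻¹) + s) = -p * ((p * s) * (p * s)⁻¹) + p * (s * s) := by
        ring
      rw [h6, h5, hss]
      linarith
    exact mul_left_cancel₀ (by positivity) h3

private theorem hc_S1 : (hcU 1 ∩ hcU (gS 1)).Nonempty := by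
  have hp := Real.goldenRatio_pos
  have hs := sq_pos
  have hss := sq_sq
  have hg : Real.goldenRatio ^ 2 = Real.goldenRatio + 1 := Real.goldenRatio_sq
  have hg1 : 1.618 < Real.goldenRatio := by
    nlinarith [Real.one_lt_goldenRatio]
  -- the two points
  have hD : ∀ t : ℝ, t ^ 2 = (Real.goldenRatio ^ 3)⁻¹ → ((t : ℂ), (0 : ℂ)) ∈ Dp := by
    intro t ht
    constructor
    · show Real.goldenRatio * normSq (t : ℂ) < 0.455
      rw [normSq_ofReal, ← pow_two, ht]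
      have h3 : Real.goldenRatio * (Real.goldenRatio ^ 3)⁻¹ = (Real.goldenRatio ^ 2)⁻¹ := by
        field_simp
      rw [h3, hg]
      rw [inv_lt_comm₀ (by linarith) (by norm_num)]
      norm_num
      linarith
    · show Real.goldenRatio * normSq (0 : ℂ) < 0.455
      rw [map_zero, mul_zero]
      norm_num
  have ht : ((Real.goldenRatio * sq)⁻¹) ^ 2 = (Real.goldenRatio ^ 3)⁻¹ := by
    rw [inv_pow, mul_pow, pow_two sq, hss, ← pow_succ]
  have h1 := hD ((Real.goldenRatio * sq)⁻¹) ht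
  have h2 := hD (-(Real.goldenRatio * sq)⁻¹) (by rw [neg_sq]; exact ht)
  refine ⟨_, hc_mem_one h1, ?_⟩
  have h := hc_mem_img (gS 1) h2
  have e : fl (rho (gS 1)) (((-(Real.goldenRatio * sq)⁻¹ : ℝ) : ℂ), (0 : ℂ)) =
      ((((Real.goldenRatio * sq)⁻¹ : ℝ) : ℂ), (0 : ℂ)) := by
    have m00 : rho (gS 1) 0 0 = (Real.goldenRatio : ℂ) := by
      rw [rho_apply]
      show dv 0 * e1 ph * (dv 0)⁻¹ = _
      rw [e1_ph]
      simp [dv]
    have m01 : rho (gS 1) 0 1 = 0 := by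
      rw [rho_apply]
      show dv 0 * e1 0 * (dv 1)⁻¹ = _
      simp
    have m02 : rho (gS 1) 0 2 = (sq : ℂ) := by
      rw [rho_apply]
      show dv 0 * e1 ph * (dv 2)⁻¹ = _
      rw [e1_ph]
      have : (sq : ℂ) ≠ 0 := by exact_mod_cast hs.ne'
      have h3 : (Real.goldenRatio : ℂ) = sq * sq := by exact_mod_cast hss.symm
      simp only [dv]
      rw [h3]
      simp
    have m10 : rho (gS 1) 1 0 = 0 := by
      rw [rho_apply]
      show dv 1 * e1 0 * (dv 0)⁻¹ = _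
      simp
    have m12 : rho (gS 1) 1 2 = 0 := by
      rw [rho_apply]
      show dv 1 * e1 0 * (dv 2)⁻¹ = _
      simp
    have m20 : rho (gS 1) 2 0 = (sq : ℂ) := by
      rw [rho_apply]
      show dv 2 * e1 1 * (dv 0)⁻¹ = _
      simp [dv]
    have m21 : rho (gS 1) 2 1 = 0 := by
      rw [rho_apply]
      show dv 2 * e1 0 * (dv 1)⁻¹ = _
      simp
    have m22 : rho (gS 1) 2 2 = (Real.goldenRatio : ℂ) := by
      rw [rho22]
      show e1 ph = _
      rw [e1_ph]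
    obtain ⟨n1, n2⟩ := hc_num Real.goldenRatio sq hs hp hss hg
    have k1 : (sq : ℂ) * ((-(Real.goldenRatio * sq)⁻¹ : ℝ) : ℂ) + (Real.goldenRatio : ℂ) = 1 := by
      exact_mod_cast n1
    have k2 : (Real.goldenRatio : ℂ) * ((-(Real.goldenRatio * sq)⁻¹ : ℝ) : ℂ) + (sq : ℂ) =
        (((Real.goldenRatio * sq)⁻¹ : ℝ) : ℂ) := by
      exact_mod_cast n2
    unfold fl den
    rw [m00, m01, m02, m10, m12, m20, m21, m22]
    simp only [mul_zero, zero_mul, add_zero]
    rw [k1, k2, div_one, zero_div]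
  rwa [e] at h

theorem homC : ∃ C : Gam →* Equiv.Perm Pt, C gU = 1 ∧ C gX = qX ∧ C gY = qY ∧ C gW = qW ∧
    C (gS 1) = qS 1 := by
  obtain ⟨C, hC⟩ := mac isOpen_ball Pool.Agent.H89.SG.convex_ball hcU hc_open hc_pre
    (fun g => Set.inter_subset_left) hc_ne hc_cov hc_tr hcc (by
      rintro a b d ⟨z, ⟨ha, hb⟩, hd⟩
      have h1 := hcc_mem (hc_InS a b ⟨z, ha, hb⟩)
      have h2 := hcc_mem (hc_InS b d ⟨z, hb, hd⟩)
      have h3 := hc_InS a d ⟨z, ha, hd⟩
      have h4 : a⁻¹ * b * (b⁻¹ * d) = a⁻¹ * d := by group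
      have h5 := RR_mul h1 h2 (by
        show InS (a⁻¹ * b * (b⁻¹ * d))
        rw [h4]
        exact h3)
      have h6 : ((a⁻¹ * d, hcc (a⁻¹ * b) * hcc (b⁻¹ * d)) : P) ∈ RR := by
        rw [← h4]
        exact h5
      exact (hcc_eq h6).symm)
  refine ⟨C, ?_, ?_, ?_, ?_, ?_⟩
  · rw [hC gU (hc_fix gU rfl rfl)]
    exact hcc_eq RR_U
  · rw [hC gX (hc_fix gX rfl rfl)]
    exact hcc_eq RR_X
  · rw [hC gY (hc_fix gY rfl rfl)]
    exact hcc_eq RR_Y
  · rw [hC gW (hc_fix gW rfl rfl)]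
    exact hcc_eq RR_W
  · rw [hC (gS 1) hc_S1]
    exact hcc_eq (RR_S 1)

theorem genC : Submonoid.closure ({gU, gX, gY, gW, gS 1} : Set Gam) = ⊤ := by
  refine mac_gen Pool.Agent.H89.SG.convex_ball hcU hc_open (fun g => Set.inter_subset_left) hc_ne
    hc_cov hc_tr _ ?_
  intro g hg
  have h := hc_InS 1 g hg
  rw [inv_one, one_mul] at h
  exact InS_gen h

end H84.AR
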