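import Pool.Agent.H84.AR.LevF
import Pool.Agent.H84.AR.HomC

/-!
# Latt3: the congruence subgroup of level three is a lattice

* `latt3`: `unitary`: `rho_UM`. `discrete`: `disc` and injectivity of the inclusion. `cocompact`: let `F` be a finite set
  of elements of `Gam` with every `g ∈ Gam` of the form `g = a * h`, `a ∈ F`, `h ∈ lev 3` (`lev_fi 3`; representatives of the
  finite quotient `Gam ⧸ lev 3`). For `z` in the ball `geo1` gives `g` with `y = fl (rho g) z ∈ Dp`, `g = a * h`,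
  `fl (rho h) z = fl (rho a⁻¹) y` (`fl_mul`). On `Dp`: `nsq y < 0.91 / φ < 0.57`, and
  `1 - nsq (fl M y) = (1 - nsq y) / normSq (den M y) ≥ 0.43 / B` where `B` is a bound of `normSq (den M y)` on the ball for the
  finitely many matrices `M = rho a⁻¹` (`one_sub_nsq_fl`; `|den M y| ≤ |M₂₀| + |M₂₁| + |M₂₂|`). So `r = 1 - 0.43 / B` works
  (`B ≥ 1`).
* `fg3`: `Group.FG Gam` from `genC` (a finite set whose monoid closure is `⊤`), and a subgroup of finite index of a finitely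
  generated group is finitely generated (`Subgroup.fg_of_index_ne_zero` or similar).
-/

set_option autoImplicit false

namespace H84.AR

open O5 Complex Pool.Agent.H89.SG

private theorem l3_norm {c : ℂ} (h : normSq c < 1) : ‖c‖ ≤ 1 := by
  rw [Complex.normSq_eq_norm_sq] at h
  have h0 := norm_nonneg c
  nlinarith

private theorem l3_den (M : Matrix (Fin 3) (Fin 3) ℂ) : ∃ b : ℝ, ∀ y ∈ ball,
    normSq (den M y) ≤ b := by
  refine ⟨(‖M 2 0‖ + ‖M 2 1‖ + ‖M 2 2‖) ^ 2, fun y hy => ?_⟩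
  have hy' : normSq y.1 + normSq y.2 < 1 := hy
  have h1 : ‖y.1‖ ≤ 1 := l3_norm (by linarith [normSq_nonneg y.2])
  have h2 : ‖y.2‖ ≤ 1 := l3_norm (by linarith [normSq_nonneg y.1])
  rw [Complex.normSq_eq_norm_sq]
  refine pow_le_pow_left₀ (norm_nonneg _) ?_ 2
  unfold den
  calc ‖M 2 0 * y.1 + M 2 1 * y.2 + M 2 2‖ ≤ ‖M 2 0 * y.1‖ + ‖M 2 1 * y.2‖ + ‖M 2 2‖ :=
        (norm_add_le _ _).trans (by linarith [norm_add_le (M 2 0 * y.1) (M 2 1 * y.2)])
    _ ≤ ‖M 2 0‖ + ‖M 2 1‖ + ‖M 2 2‖ := by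
        rw [norm_mul, norm_mul]
        have h3 := mul_le_mul_of_nonneg_left h1 (norm_nonneg (M 2 0))
        have h4 := mul_le_mul_of_nonneg_left h2 (norm_nonneg (M 2 1))
        linarith

private theorem l3_Dp {y : E} (hy : y ∈ Dp) : nsq y < 0.57 := by
  obtain ⟨h1, h2⟩ := hy
  have h3 := normSq_nonneg y.1
  have h4 := normSq_nonneg y.2
  have h5 : (1.6 : ℝ) < Real.goldenRatio := by
    unfold Real.goldenRatio
    have h6 : (2.2 : ℝ) < √5 := by
      rw [Real.lt_sqrt (by norm_num)]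
      norm_num
    linarith
  show normSq y.1 + normSq y.2 < 0.57
  by_contra hc
  push Not at hc
  nlinarith

private theorem l3_cocompact : ∃ r : ℝ, r < 1 ∧ ∀ z ∈ ball, ∃ g : lev 3,
    nsq (fl ((rho.comp (lev 3).subtype) g) z) ≤ r := by
  have hfi : (lev 3).FiniteIndex := lev_fi 3
  have hfq : Finite (Gam ⧸ lev 3) := Subgroup.finite_quotient_of_finiteIndex
  choose b hb using fun q : Gam ⧸ lev 3 => l3_den (rho (q.out)⁻¹)
  obtain ⟨B, hB⟩ := (Set.finite_range b).bddAbove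
  have hB1 : 0 < max B 1 := lt_of_lt_of_le one_pos (le_max_right _ _)
  refine ⟨1 - 0.43 / max B 1, ?_, fun z hz => ?_⟩
  · have : 0 < 0.43 / max B 1 := by positivity
    linarith
  obtain ⟨g, hg⟩ := geo1 hz
  obtain ⟨h0, hh0⟩ := QuotientGroup.mk_out_eq_mul (lev 3) g
  have ha : ((g : Gam ⧸ lev 3).out)⁻¹ * g = (h0⁻¹ : lev 3) := by
    rw [hh0, mul_inv_rev, mul_assoc, inv_mul_cancel, mul_one]
    rfl
  refine ⟨h0⁻¹, ?_⟩
  have h1 : (rho.comp (lev 3).subtype) h0⁻¹ = rho ((g : Gam ⧸ lev 3).out)⁻¹ * rho g := by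
    rw [← map_mul, ha]
    rfl
  have hy := l3_Dp hg
  have hyb := Dp_sub hg
  rw [h1, fl_mul (rho_UM _) (rho_UM _) hz]
  have h2 := one_sub_nsq_fl (rho_UM ((g : Gam ⧸ lev 3).out)⁻¹) hyb
  have h3 : normSq (den (rho ((g : Gam ⧸ lev 3).out)⁻¹) (fl (rho g) z)) ≤ max B 1 :=
    ((hb _ _ hyb).trans (hB ⟨_, rfl⟩)).trans (le_max_left _ _)
  have h4 : 0 < 1 - nsq (fl (rho ((g : Gam ⧸ lev 3).out)⁻¹) (fl (rho g) z)) := by
    have h5 : fl (rho ((g : Gam ⧸ lev 3).out)⁻¹) (fl (rho g) z) ∈ ball := fl_mem (rho_UM _) hyb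
    have h6 : nsq (fl (rho ((g : Gam ⧸ lev 3).out)⁻¹) (fl (rho g) z)) < 1 := h5
    linarith
  have h7 : 0.43 / max B 1 ≤ 1 - nsq (fl (rho ((g : Gam ⧸ lev 3).out)⁻¹) (fl (rho g) z)) := by
    rw [div_le_iff₀ hB1]
    calc (0.43 : ℝ) ≤ 1 - nsq (fl (rho g) z) := by linarith
      _ = _ := h2.symm
      _ ≤ _ := mul_le_mul_of_nonneg_left h3 h4.le
  linarith

theorem latt3 : Latt (rho.comp (lev 3).subtype) where
  unitary g := rho_UM _
  discrete r hr := by
    refine Set.Finite.of_finite_image (f := fun g : lev 3 => (g : Gam)) ?_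
      (Subtype.val_injective.injOn)
    refine (disc r hr).subset ?_
    rintro _ ⟨g, ⟨z, h1, h2⟩, rfl⟩
    exact ⟨z, h1, h2⟩
  cocompact := l3_cocompact

theorem fg3 : ∃ S : Finset (lev 3), Subgroup.closure (S : Set (lev 3)) = ⊤ := by
  have hfi : (lev 3).FiniteIndex := lev_fi 3
  have hG : Group.FG Gam := by
    refine Group.fg_iff.2 ⟨{gU, gX, gY, gW, gS 1}, ?_, ?_⟩
    · have h1 : (Submonoid.closure ({gU, gX, gY, gW, gS 1} : Set Gam) : Set Gam) ⊆
          (Subgroup.closure ({gU, gX, gY, gW, gS 1} : Set Gam) : Set Gam) :=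
        Subgroup.le_closure_toSubmonoid _
      rw [genC] at h1
      exact eq_top_iff.2 fun x _ => h1 (Submonoid.mem_top x)
    · exact Set.toFinite _
  have hH : Group.FG (lev 3) := Subgroup.fg_of_index_ne_zero (lev 3)
  exact Group.fg_iff'.1 hH |>.elim fun n ⟨S, _, hS⟩ => ⟨S, hS⟩

end H84.AR
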