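import Pool.Agent.H84.AR.RedL
import Pool.Agent.H84.AR.Latt3
import Pool.Agent.H84.Sch.FMZ

/-!
# Arith: the group
-/

set_option autoImplicit false

namespace H84.AR

open O5 Pool.Agent.H89.SG

theorem exC : ∃ C : Gam →* Equiv.Perm Pt, HC C := by
  obtain ⟨C, h1, h2, h3, h4, h5⟩ := homC
  exact ⟨C, h1, h2, h3, h4, h5, genC⟩

theorem tf3 : TorFree (lev 3) := by
  obtain ⟨C, hC⟩ := exC
  intro g hg n hn h
  have h1 : (g : Gam) ≠ 1 := fun e => hg (Subtype.ext e)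
  refine det_pow_ne (det3 hC g g.2 h1) n hn ?_
  have := congrArg Subtype.val h
  rwa [Subgroup.coe_pow, Subgroup.coe_one] at this

theorem nofm3 (K : Subgroup (lev 3)) (hK : (K : Set (lev 3)).Infinite) :
    ¬ ∀ (X : Type) [MulAction K X],
      (∃ m : Set X → ℝ, (∀ A, 0 ≤ m A) ∧ m Set.univ = 1 ∧
        (∀ A B, Disjoint A B → m (A ∪ B) = m A + m B) ∧
        ∀ (k : K) (A : Set X), m ((fun x => k • x) ⁻¹' A) = m A) →
      ∃ x : X, (MulAction.orbit K x).Finite := by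
  obtain ⟨C, hC⟩ := exC
  intro hFM
  -- a nontrivial element
  obtain ⟨k, hk, hk1⟩ : ∃ k ∈ K, k ≠ 1 := by
    by_contra hcon
    push Not at hcon
    exact hK ((Set.finite_singleton (1 : lev 3)).subset fun x hx => hcon x hx)
  have h1 : (k : Gam) ≠ 1 := fun e => hk1 (Subtype.ext e)
  obtain ⟨m, hm, H, χ, hmem, hfi, hχ⟩ := det3 hC k k.2 h1
  -- pull back to K
  let ι : K →* Gam := (lev 3).subtype.comp K.subtype
  let L : Subgroup K := H.comap ι
  have : L.FiniteIndex := by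
    refine ⟨?_⟩
    show (H.comap ι).index ≠ 0
    rw [Subgroup.index_comap]
    have := hfi
    exact (Subgroup.instFiniteIndex_subgroupOf H ι.range).index_ne_zero
  let j : L →* H := (ι.comp L.subtype).codRestrict H fun x => x.2
  have hx : (⟨k, hk⟩ : K) ^ m ∈ L := by
    show ι (⟨k, hk⟩ ^ m) ∈ H
    rw [map_pow]
    exact hmem
  have hne : χ.comp j ≠ 1 := by
    intro h
    have h2 := DFunLike.congr_fun h ⟨(⟨k, hk⟩ : K) ^ m, hx⟩
    exact hχ h2
  obtain ⟨X, hX, hmean, horb⟩ := H84.Sch.not_fm_of_hom L (χ.comp j) hne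
  obtain ⟨x, hx⟩ := @hFM X hX hmean
  exact horb x hx

theorem arith : ∃ (G : Type) (_ : Group G) (S : Finset G) (ρ : G →* Matrix (Fin 3) (Fin 3) ℂ),
    Latt ρ ∧ TorFree G ∧ Subgroup.closure (S : Set G) = ⊤ ∧
    ∀ K : Subgroup G, (K : Set G).Infinite →
      ¬ ∀ (X : Type) [MulAction K X],
        (∃ m : Set X → ℝ, (∀ A, 0 ≤ m A) ∧ m Set.univ = 1 ∧
          (∀ A B, Disjoint A B → m (A ∪ B) = m A + m B) ∧
          ∀ (k : K) (A : Set X), m ((fun x => k • x) ⁻¹' A) = m A) →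
        ∃ x : X, (MulAction.orbit K x).Finite := by
  obtain ⟨S, hS⟩ := fg3
  exact ⟨lev 3, inferInstance, S, rho.comp (lev 3).subtype, latt3, tf3, hS, nofm3⟩

end H84.AR
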