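import Pool.Agent.H84.AR.O5

/-!
# The two complex embeddings of `O5`
-/

set_option autoImplicit false

namespace H84.AR

open O5 Complex

/-- evaluation at a primitive fifth root of unity -/
noncomputable def ev (w : ℂ) (hw : 1 + w + w ^ 2 + w ^ 3 + w ^ 4 = 0) : O5 →+* ℂ where
  toFun x := x.a + x.b * w + x.c * w ^ 2 + x.d * w ^ 3
  map_one' := by simp [one_def]
  map_zero' := by simp [zero_def]
  map_add' x y := by
    simp only [add_def]
    push_cast
    ring
  map_mul' x y := by
    simp only [mul_def]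
    push_cast
    linear_combination (-(x.b * y.d + x.c * y.c + x.d * y.b : ℂ) -
      (x.c * y.d + x.d * y.c : ℂ) * (w - 1) - (x.d * y.d : ℂ) * (w ^ 2 - w)) * hw

/-- `ζ = exp (2 π i / 5)` -/
noncomputable def zc : ℂ := exp (2 * Real.pi * I / 5)

theorem zc_pow : zc ^ 5 = 1 := by
  unfold zc
  rw [← exp_nat_mul, Complex.exp_eq_one_iff]
  exact ⟨1, by push_cast; ring⟩

theorem zc_eq : zc = (Real.cos (2 * Real.pi / 5) : ℂ) + (Real.sin (2 * Real.pi / 5) : ℂ) * I := by
  unfold zc
  rw [show (2 * Real.pi * I / 5 : ℂ) = ((2 * Real.pi / 5 : ℝ) : ℂ) * I by push_cast; ring,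
    Complex.exp_mul_I, Complex.ofReal_cos, Complex.ofReal_sin]

theorem sin_pos : 0 < Real.sin (2 * Real.pi / 5) :=
  Real.sin_pos_of_pos_of_lt_pi (by positivity) (by have := Real.pi_pos; linarith)

theorem zc_ne_one : zc ≠ 1 := by
  intro h
  have h1 := congrArg Complex.im (zc_eq.symm.trans h)
  rw [Complex.add_im, Complex.ofReal_im, Complex.mul_im, Complex.ofReal_re, Complex.I_im,
    Complex.ofReal_im, Complex.I_re, Complex.one_im] at h1
  have := sin_pos
  linarith

theorem zc_root : 1 + zc + zc ^ 2 + zc ^ 3 + zc ^ 4 = 0 := by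
  have h1 : (zc - 1) * (1 + zc + zc ^ 2 + zc ^ 3 + zc ^ 4) = 0 := by
    linear_combination zc_pow
  rcases mul_eq_zero.1 h1 with h | h
  · exact absurd (sub_eq_zero.1 h) zc_ne_one
  · exact h

theorem zc_root2 : 1 + zc ^ 2 + (zc ^ 2) ^ 2 + (zc ^ 2) ^ 3 + (zc ^ 2) ^ 4 = 0 := by
  linear_combination zc_root + (zc + zc ^ 3) * zc_pow

/-- the first embedding -/
noncomputable def e1 : O5 →+* ℂ := ev zc zc_root

/-- the second embedding -/
noncomputable def e2 : O5 →+* ℂ := ev (zc ^ 2) zc_root2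

theorem e1_apply (x : O5) : e1 x = x.a + x.b * zc + x.c * zc ^ 2 + x.d * zc ^ 3 := rfl

theorem e2_apply (x : O5) :
    e2 x = x.a + x.b * zc ^ 2 + x.c * (zc ^ 2) ^ 2 + x.d * (zc ^ 2) ^ 3 := rfl

theorem conj_zc : (starRingEnd ℂ) zc = zc ^ 4 := by
  have h1 : (starRingEnd ℂ) zc * zc = 1 := by
    rw [← Complex.normSq_eq_conj_mul_self, zc_eq, Complex.normSq_add_mul_I]
    rw [Real.cos_sq_add_sin_sq]
    simp
  have h2 : zc ^ 4 * zc = 1 := by rw [← pow_succ]; exact zc_pow
  have h3 : zc ≠ 0 := by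
    intro h
    rw [h, mul_zero] at h1
    exact zero_ne_one h1
  exact mul_right_cancel₀ h3 (h1.trans h2.symm)

theorem e1_star (x : O5) : e1 (star x) = (starRingEnd ℂ) (e1 x) := by
  rw [e1_apply, e1_apply, O5.star_def]
  simp only [map_add, map_mul, map_pow, conj_zc, map_intCast]
  push_cast
  linear_combination (-(x.b : ℂ)) * zc_root - ((x.c : ℂ) * zc ^ 3 + (x.d : ℂ) * (zc ^ 7 + zc ^ 2)) *
    zc_pow

theorem e2_star (x : O5) : e2 (star x) = (starRingEnd ℂ) (e2 x) := by
  rw [e2_apply, e2_apply, O5.star_def]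
  simp only [map_add, map_mul, map_pow, conj_zc, map_intCast]
  push_cast
  linear_combination (-(x.b : ℂ)) * zc_root2 - ((x.c : ℂ) * (zc ^ 11 + zc ^ 6) +
    (x.d : ℂ) * (zc ^ 19 + zc ^ 14 + zc ^ 9 + zc ^ 4)) * zc_pow

theorem zc_add : zc + zc ^ 4 = ((2 * Real.cos (2 * Real.pi / 5) : ℝ) : ℂ) := by
  rw [← conj_zc, Complex.add_conj]
  congr 2
  rw [zc_eq, Complex.add_re, Complex.ofReal_re, Complex.mul_re, Complex.ofReal_re, Complex.I_re,
    Complex.ofReal_im, Complex.I_im]
  ring

theorem golden_cos : (1 + 2 * Real.cos (2 * Real.pi / 5) : ℝ) = Real.goldenRatio := by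
  set r : ℝ := 1 + 2 * Real.cos (2 * Real.pi / 5) with hr
  have h1 : 0 < r := by
    have : 0 < Real.cos (2 * Real.pi / 5) :=
      Real.cos_pos_of_mem_Ioo ⟨by have := Real.pi_pos; linarith, by have := Real.pi_pos; linarith⟩
    linarith
  have h2 : (r : ℂ) = 1 + (zc + zc ^ 4) := by
    rw [zc_add, hr]
    push_cast
    ring
  have h3 : (r : ℂ) ^ 2 = r + 1 := by
    rw [h2]
    linear_combination zc_root + (zc ^ 3 + 2) * zc_pow
  have h4 : r ^ 2 = r + 1 := by exact_mod_cast h3
  have h5 : (r - Real.goldenRatio) * (r - Real.goldenConj) = 0 := by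
    have e1 := Real.goldenRatio_add_goldenConj
    have e2 := Real.goldenRatio_mul_goldenConj
    linear_combination h4 - r * e1 + e2
  rcases mul_eq_zero.1 h5 with h | h
  · linarith
  · have := Real.goldenConj_neg
    linarith

/-- the golden ratio as the image of `ph` -/
theorem e1_ph : e1 ph = (Real.goldenRatio : ℂ) := by
  rw [← golden_cos, Complex.ofReal_add, ← zc_add, e1_apply]
  simp only [ph]
  push_cast
  linear_combination (-1 : ℂ) * zc_root

theorem e2_ph : e2 ph = (Real.goldenConj : ℂ) := by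
  have h1 : Real.goldenConj = 1 - Real.goldenRatio := by
    have := Real.goldenRatio_add_goldenConj
    linarith
  rw [h1, ← golden_cos, Complex.ofReal_sub, Complex.ofReal_add, ← zc_add, e2_apply]
  simp only [ph]
  push_cast
  linear_combination (-zc : ℂ) * zc_pow

theorem normSq_e1 (x : O5) : Complex.normSq (e1 x) = nP x + nQ x * Real.goldenRatio := by
  have h := congrArg e1 (mul_star x)
  rw [map_mul, e1_star, Complex.mul_conj, map_add, map_mul, map_intCast, map_intCast, e1_ph] at h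
  exact_mod_cast h

theorem normSq_e2 (x : O5) : Complex.normSq (e2 x) = nP x + nQ x * Real.goldenConj := by
  have h := congrArg e2 (mul_star x)
  rw [map_mul, e2_star, Complex.mul_conj, map_add, map_mul, map_intCast, map_intCast, e2_ph] at h
  exact_mod_cast h

end H84.AR
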