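import Pool.Agent.H84.AR.NumE
import Pool.Agent.H84.AR.Emb

/-!
# Mod2: divisibility by powers of `π = 1 - ζ`

* `five_dvd`: `5 = pp ^ 4 * u` with `u` explicit (`pp ^ 4 = 1 - 4 ζ + 6 ζ² - 4 ζ³ + ζ⁴`; `u` is a unit).
* `r2_iff`: `pp ^ 2 ∣ x` iff `a + b + c + d ≡ 0` and `b + 2 c + 3 d ≡ 0` mod 5: if `x = pp y` then
  `red y` is `-(b + 2 c + 3 d)` (compute `y` as in `dvd_iff_red`).
* `star_sub`: `star x ≡ x` mod `π`; `star pp = - ζ⁴ pp`, so `star (pp * y) ≡ - pp * y` mod `π²`.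
* `dom`: `O5` has no zero divisors (`e1` is injective: if `e1 x = 0` then `normSq` gives
  `nP x + nQ x φ = 0`, `φ` irrational (`Real.goldenRatio_irrational`), so `nP x = nQ x = 0`, `nn_zero`).
* `inf_pp`: an element divisible by all powers of `pp` is zero: `pp ^ (4 n) ∣ x` implies `5 ^ n ∣ x`
  up to a unit (`pp ^ 4 = 5 * unit`), so `5 ^ n` divides the coordinates.
* `mu_one`: `ρ^e ≡ 1` mod `π²` only for `e ≡ 0` mod 10 (ten cases, `r2_iff`).
-/

set_option autoImplicit false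

namespace H84.AR

open O5

private theorem m2_sq : pp ^ 2 = ⟨1, -2, 1, 0⟩ := by decide

theorem r2_iff (x : O5) : pp ^ 2 ∣ x ↔ (5 ∣ x.a + x.b + x.c + x.d ∧ 5 ∣ x.b + 2 * x.c + 3 * x.d) := by
  rw [m2_sq]
  constructor
  · rintro ⟨y, rfl⟩
    simp only [mul_def]
    exact ⟨⟨-y.c + 2 * y.d, by ring⟩, ⟨-2 * y.c + 3 * y.d, by ring⟩⟩
  · rintro ⟨⟨m, hm⟩, ⟨n, hn⟩⟩
    refine ⟨⟨x.a - 3 * m + n, 2 * x.a + x.b - 7 * m + 2 * n,
      3 * x.a + 2 * x.b + x.c - 12 * m + 3 * n, 2 * m - n⟩, ?_⟩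
    simp only [mul_def]
    ext <;> simp only <;> linarith

theorem five_dvd : pp ^ 4 ∣ 5 ∧ (5 : O5) ∣ pp ^ 4 := by
  constructor
  · exact ⟨⟨-1, -1, 0, 1⟩, by decide⟩
  · exact ⟨⟨0, -1, 1, -1⟩, by decide⟩

theorem star_sub (x : O5) : pp ∣ star x - x := by
  rw [dvd_iff_red, map_sub, red_star, sub_self]

theorem star_pp : star pp = -(mu 8) * pp := by
  decide

private theorem m2_zero {x : O5} {r : ℝ} (hr : Irrational r) (h : (nP x : ℝ) + nQ x * r = 0) :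
    x = 0 := by
  have hQ : nQ x = 0 := by
    by_contra hne
    have hne' : (nQ x : ℝ) ≠ 0 := by exact_mod_cast hne
    apply hr
    refine ⟨-(nP x : ℚ) / nQ x, ?_⟩
    push_cast
    rw [div_eq_iff hne']
    linarith
  have hP : nP x = 0 := by
    rw [hQ] at h
    have h1 : (nP x : ℝ) = 0 := by
      simpa using h
    exact_mod_cast h1
  exact nn_zero x (by rw [hP, hQ]; rfl)

theorem e1_inj : Function.Injective e1 := by
  rw [injective_iff_map_eq_zero]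
  intro x hx
  have h := normSq_e1 x
  rw [hx, map_zero] at h
  exact m2_zero Real.goldenRatio_irrational h.symm

theorem e2_inj : Function.Injective e2 := by
  rw [injective_iff_map_eq_zero]
  intro x hx
  have h := normSq_e2 x
  rw [hx, map_zero] at h
  exact m2_zero Real.goldenConj_irrational h.symm

instance noZ : NoZeroDivisors O5 :=
  Function.Injective.noZeroDivisors e1 e1_inj (map_zero e1) (map_mul e1)

theorem pp_ne : pp ≠ 0 := by
  decide

private theorem m2_pow (n : ℕ) : (5 : O5) ^ n = ⟨5 ^ n, 0, 0, 0⟩ := by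
  induction n with
  | zero => rfl
  | succ n ih =>
    rw [pow_succ, ih]
    show (⟨5 ^ n, 0, 0, 0⟩ : O5) * ⟨5, 0, 0, 0⟩ = ⟨5 ^ (n + 1), 0, 0, 0⟩
    simp only [mul_def, O5.mk.injEq]
    refine ⟨?_, ?_, ?_, ?_⟩ <;> ring

private theorem m2_int (t : ℤ) (h : ∀ n : ℕ, (5 : ℤ) ^ n ∣ t) : t = 0 := by
  refine Int.eq_zero_of_abs_lt_dvd (h t.natAbs) ?_
  rw [Int.abs_eq_natAbs]
  have h1 : t.natAbs < 5 ^ t.natAbs := Nat.lt_pow_self (by norm_num)
  exact_mod_cast h1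

theorem inf_pp (x : O5) (h : ∀ k : ℕ, pp ^ k ∣ x) : x = 0 := by
  have h5 : ∀ n : ℕ, (5 : O5) ^ n ∣ x := by
    intro n
    have h1 : (5 : O5) ^ n ∣ (pp ^ 4) ^ n := pow_dvd_pow_of_dvd five_dvd.2 n
    rw [← pow_mul] at h1
    exact h1.trans (h (4 * n))
  have h6 : ∀ n : ℕ, (5 : ℤ) ^ n ∣ x.a ∧ (5 : ℤ) ^ n ∣ x.b ∧ (5 : ℤ) ^ n ∣ x.c ∧
      (5 : ℤ) ^ n ∣ x.d := by
    intro n
    obtain ⟨y, hy⟩ := h5 n
    rw [m2_pow] at hy
    rw [hy]
    simp only [mul_def]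
    exact ⟨⟨y.a, by ring⟩, ⟨y.b, by ring⟩, ⟨y.c, by ring⟩, ⟨y.d, by ring⟩⟩
  have ha := m2_int x.a fun n => (h6 n).1
  have hb := m2_int x.b fun n => (h6 n).2.1
  have hc := m2_int x.c fun n => (h6 n).2.2.1
  have hd := m2_int x.d fun n => (h6 n).2.2.2
  ext
  · exact ha
  · exact hb
  · exact hc
  · exact hd

theorem mu_one (e : ℕ) (h : pp ^ 2 ∣ mu e - 1) : mu e = 1 := by
  rw [← mu_mod e] at h ⊢
  rw [r2_iff] at h
  have key : ∀ i < 10, (5 ∣ (mu i - 1).a + (mu i - 1).b + (mu i - 1).c + (mu i - 1).d ∧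
      5 ∣ (mu i - 1).b + 2 * (mu i - 1).c + 3 * (mu i - 1).d) → mu i = 1 := by decide
  exact key _ (Nat.mod_lt _ (by norm_num)) h

/-- elements of absolute value one at both places which are `≡ 1` modulo `π²` -/
theorem abs_one (x : O5) (h : star x * x = 1) (h2 : pp ^ 2 ∣ x - 1) : x = 1 := by
  have h1 := mul_star x
  rw [mul_comm, h] at h1
  have hP : nP x = 1 := by
    have := congrArg O5.a h1
    simp only [one_def, mul_def, add_def, intCast_def, ph] at this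
    linarith
  have hQ : nQ x = 0 := by
    have := congrArg O5.c h1
    simp only [one_def, mul_def, add_def, intCast_def, ph] at this
    linarith
  obtain ⟨k, _, rfl⟩ := unit_enum x hP hQ
  exact mu_one k h2

end H84.AR
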