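import Pool.Agent.H84.AR.Grp
import Pool.Agent.H84.AR.Mod2

/-!
# Blk: block matrices modulo `π`

Write `a, b, c, d` for the entries `00, 01, 10, 11`, `A` for the upper left block.
* `red_perm`: reduce `adj (mat g) * mat g = 1` modulo `π` (multiply by `Hh`, or entrywise; `red (star x) = red x`,
  `red_star`; the entries `02, 12, 20, 21` vanish): `a² + c² = 1`, `b² + d² = 1`, `a b + c d = 0`, `(red M₂₂)² = 1` in
  `ZMod 5`, then `decide` (`∀ a b c d : ZMod 5, …`).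
* `FL_mul`: the block of `g h` is `A_g A_h` plus products of two multiples of `π`; the same for the entry
  `22`. So `(det A * (star M₂₂) ^ 2) ^ 7` is multiplicative modulo `π²`. For `s = a² - b²`, `red s = 1` or `-1` by
  `red_perm`, multiplicative modulo `π` (cases), and `x ^ 5 ≡ 1` (`-1`) modulo `π²` if `x ≡ 1` (`-1`) modulo `π`
  (`x = 1 + π y`, `x ^ 5 - 1 = 5 π y (…) + π ^ 5 y ^ 5`, `five_dvd`).
* `FT_mul`: put `S = A_h A_hᵀ` (entries `p = b₀₀² + b₀₁²`, `q = b₀₀ b₁₀ + b₀₁ b₁₁`, `r = b₁₀² + b₁₁²` with `b` the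
  entries of `h`); modulo `π`: `p = r = 1`, `q = 0` by `red_perm`. The `01` entry of `A_g S A_gᵀ` is
  `p a c + q (a d + b c) + r b d`, where `a c ≡ b d ≡ 0` and `a d + b c ≡ FL (mat g)` modulo `π`
  (`red (FL (mat g)) = det A * s` as `det A ^ 2 = s ^ 2 = (red M₂₂) ^ 2 = 1`).
-/

set_option autoImplicit false
set_option linter.unusedSimpArgs false

namespace H84.AR

open O5

/-- block form modulo `π` -/
def Blk (M : M3) : Prop :=
  red (M 0 2) = 0 ∧ red (M 1 2) = 0 ∧ red (M 2 0) = 0 ∧ red (M 2 1) = 0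

instance (M : M3) : Decidable (Blk M) := by
  unfold Blk
  infer_instance

/-- the linear part -/
def FL (M : M3) : O5 :=
  ((M 0 0 * M 1 1 - M 0 1 * M 1 0) * star (M 2 2) ^ 2) ^ 7 * (M 0 0 ^ 2 - M 0 1 ^ 2) ^ 5

/-- the translation part -/
def FT (M : M3) : O5 := 3 * (M 0 0 * M 1 0 + M 0 1 * M 1 1)

/-- congruence modulo `π²` -/
def C2 (x y : O5) : Prop := pp ^ 2 ∣ x - y

theorem C2.refl (x : O5) : C2 x x := ⟨0, by ring⟩

theorem C2.symm {x y : O5} (h : C2 x y) : C2 y x := by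
  obtain ⟨z, hz⟩ := h
  exact ⟨-z, by linear_combination -hz⟩

theorem C2.trans {x y z : O5} (h : C2 x y) (h' : C2 y z) : C2 x z := by
  obtain ⟨u, hu⟩ := h
  obtain ⟨v, hv⟩ := h'
  exact ⟨u + v, by linear_combination hu + hv⟩

theorem C2.add {x y z w : O5} (h : C2 x y) (h' : C2 z w) : C2 (x + z) (y + w) := by
  obtain ⟨u, hu⟩ := h
  obtain ⟨v, hv⟩ := h'
  exact ⟨u + v, by linear_combination hu + hv⟩

theorem C2.mul {x y z w : O5} (h : C2 x y) (h' : C2 z w) : C2 (x * z) (y * w) := by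
  obtain ⟨u, hu⟩ := h
  obtain ⟨v, hv⟩ := h'
  exact ⟨u * z + y * v, by linear_combination z * hu + y * hv⟩

theorem C2.pow {x y : O5} (h : C2 x y) (n : ℕ) : C2 (x ^ n) (y ^ n) := by
  induction n with
  | zero => rw [pow_zero, pow_zero]; exact C2.refl 1
  | succ n ih => rw [pow_succ, pow_succ]; exact ih.mul h

theorem FL_one : FL 1 = 1 := by decide +kernel

theorem FT_one : FT 1 = 0 := by decide +kernel

theorem blk_one : Blk 1 := by decide +kernel

private theorem bk_mul (M N : M3) (i j : Fin 3) :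
    (M * N) i j = M i 0 * N 0 j + M i 1 * N 1 j + M i 2 * N 2 j := by
  rw [Matrix.mul_apply, Fin.sum_univ_three]

private theorem bk_two {x y : O5} (hx : red x = 0) (hy : red y = 0) : pp ^ 2 ∣ x * y := by
  have h1 := (dvd_iff_red x).2 hx
  have h2 := (dvd_iff_red y).2 hy
  rw [pow_two]
  exact mul_dvd_mul h1 h2

theorem blk_mul (g h : Gam) (hg : Blk (mat g)) (hh : Blk (mat h)) : Blk (mat (g * h)) := by
  obtain ⟨g1, g2, g3, g4⟩ := hg
  obtain ⟨h1, h2, h3, h4⟩ := hh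
  refine ⟨?_, ?_, ?_, ?_⟩
  · rw [mat_mul, bk_mul]
    simp only [map_add, map_mul, g1, g2, g3, g4, h1, h2, h3, h4, mul_zero, zero_mul, add_zero]
  · rw [mat_mul, bk_mul]
    simp only [map_add, map_mul, g1, g2, g3, g4, h1, h2, h3, h4, mul_zero, zero_mul, add_zero]
  · rw [mat_mul, bk_mul]
    simp only [map_add, map_mul, g1, g2, g3, g4, h1, h2, h3, h4, mul_zero, zero_mul, add_zero]
  · rw [mat_mul, bk_mul]
    simp only [map_add, map_mul, g1, g2, g3, g4, h1, h2, h3, h4, mul_zero, zero_mul, add_zero]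

private theorem bk_dec : ∀ a b c d : ZMod 5, a * a + c * c = 1 → b * b + d * d = 1 →
    a * b + c * d = 0 →
    ((b = 0 ∧ c = 0 ∧ a ^ 2 = 1 ∧ d ^ 2 = 1) ∨ (a = 0 ∧ d = 0 ∧ b ^ 2 = 1 ∧ c ^ 2 = 1)) := by
  decide

private theorem bk_dec2 : ∀ a : ZMod 5, a * 2 * a = 2 → a ^ 2 = 1 := by
  decide

private theorem bk_form (g : Gam) : Matrix.conjTranspose (mat g) * Hh * mat g = Hh := by
  have h := adj_mat g
  unfold adj at h
  calc Matrix.conjTranspose (mat g) * Hh * mat g =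
      Hh * Hi * (Matrix.conjTranspose (mat g) * Hh * mat g) := by rw [Hh_Hi, one_mul]
    _ = Hh * (Hi * Matrix.conjTranspose (mat g) * Hh * mat g) := by simp only [mul_assoc]
    _ = Hh := by rw [h, mul_one]

private theorem bk_entry (M : M3) (i j : Fin 3) : (Matrix.conjTranspose M * Hh * M) i j =
    star (M 0 i) * M 0 j + star (M 1 i) * M 1 j + star (M 2 i) * (-ph) * M 2 j := by
  rw [bk_mul, bk_mul, bk_mul, bk_mul]
  simp [Hh, Matrix.conjTranspose_apply]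

theorem red_perm (g : Gam) (hg : Blk (mat g)) : red (mat g 2 2) ^ 2 = 1 ∧
    ((red (mat g 0 1) = 0 ∧ red (mat g 1 0) = 0 ∧ red (mat g 0 0) ^ 2 = 1 ∧
      red (mat g 1 1) ^ 2 = 1) ∨
    (red (mat g 0 0) = 0 ∧ red (mat g 1 1) = 0 ∧ red (mat g 0 1) ^ 2 = 1 ∧
      red (mat g 1 0) ^ 2 = 1)) := by
  obtain ⟨g1, g2, g3, g4⟩ := hg
  have key : ∀ i j : Fin 3, red (mat g 0 i) * red (mat g 0 j) + red (mat g 1 i) * red (mat g 1 j) +
      red (mat g 2 i) * 2 * red (mat g 2 j) = red (Hh i j) := by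
    intro i j
    have h : (Matrix.conjTranspose (mat g) * Hh * mat g) i j = Hh i j := by rw [bk_form]
    rw [bk_entry] at h
    have h2 := congrArg red h
    have h3 : red (-ph) = 2 := by decide
    rw [map_add, map_add, map_mul, map_mul, map_mul, map_mul, red_star, red_star, red_star, h3]
      at h2
    exact h2
  constructor
  · have h := key 2 2
    rw [g1, g2] at h
    have e : red (Hh 2 2) = 2 := by decide
    rw [e] at h
    exact bk_dec2 _ (by linear_combination h)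
  · have h00 := key 0 0
    have h01 := key 0 1
    have h11 := key 1 1
    have e0 : red (Hh 0 0) = 1 := by decide
    have e1 : red (Hh 0 1) = 0 := by decide
    have e2 : red (Hh 1 1) = 1 := by decide
    rw [e0, g3] at h00
    rw [e1, g3, g4] at h01
    rw [e2, g4] at h11
    refine bk_dec (red (mat g 0 0)) (red (mat g 0 1)) (red (mat g 1 0)) (red (mat g 1 1)) ?_ ?_ ?_
    · rw [← h00]; ring
    · rw [← h11]; ring
    · rw [← h01]; ring

private theorem bk_blk (g h : Gam) (hg : Blk (mat g)) (hh : Blk (mat h)) (i j : Fin 3)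
    (hi : i = 0 ∨ i = 1) (hj : j = 0 ∨ j = 1) :
    C2 (mat (g * h) i j) (mat g i 0 * mat h 0 j + mat g i 1 * mat h 1 j) := by
  obtain ⟨g1, g2, g3, g4⟩ := hg
  obtain ⟨h1, h2, h3, h4⟩ := hh
  have e1 : red (mat g i 2) = 0 := by
    rcases hi with rfl | rfl
    · exact g1
    · exact g2
  have e2 : red (mat h 2 j) = 0 := by
    rcases hj with rfl | rfl
    · exact h3
    · exact h4
  obtain ⟨z, hz⟩ := bk_two e1 e2
  refine ⟨z, ?_⟩
  rw [mat_mul, bk_mul]
  linear_combination hz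

private theorem bk_22 (g h : Gam) (hg : Blk (mat g)) (hh : Blk (mat h)) :
    C2 (mat (g * h) 2 2) (mat g 2 2 * mat h 2 2) := by
  obtain ⟨g1, g2, g3, g4⟩ := hg
  obtain ⟨h1, h2, h3, h4⟩ := hh
  obtain ⟨z, hz⟩ := bk_two g3 h1
  obtain ⟨w, hw⟩ := bk_two g4 h2
  refine ⟨z + w, ?_⟩
  rw [mat_mul, bk_mul]
  linear_combination hz + hw

private theorem bk_star {x y : O5} (h : C2 x y) : C2 (star x) (star y) := by
  obtain ⟨z, hz⟩ := h
  refine ⟨mu 8 ^ 2 * star z, ?_⟩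
  have h1 := congrArg star hz
  rw [_root_.star_sub, star_mul, star_pow, star_pp] at h1
  rw [h1]
  ring

private theorem bk_sub {x y z w : O5} (h : C2 x y) (h' : C2 z w) : C2 (x - z) (y - w) := by
  obtain ⟨u, hu⟩ := h
  obtain ⟨v, hv⟩ := h'
  exact ⟨u - v, by linear_combination hu - hv⟩

private theorem bk_five {x y : O5} (h : red x = red y) : C2 (x ^ 5) (y ^ 5) := by
  have h1 : pp ∣ x - y := by rw [dvd_iff_red, map_sub, h, sub_self]
  obtain ⟨z, hz⟩ := h1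
  obtain ⟨v, hv⟩ := five_dvd.1
  have hx : x = y + pp * z := by linear_combination hz
  refine ⟨pp ^ 2 * v * (y ^ 4 * (pp * z) + 2 * y ^ 3 * (pp * z) ^ 2 + 2 * y ^ 2 * (pp * z) ^ 3 +
    y * (pp * z) ^ 4) + pp ^ 3 * z ^ 5, ?_⟩
  rw [hx]
  linear_combination (y ^ 4 * (pp * z) + 2 * y ^ 3 * (pp * z) ^ 2 + 2 * y ^ 2 * (pp * z) ^ 3 +
    y * (pp * z) ^ 4) * hv

private theorem bk_s (g h : Gam) (hg : Blk (mat g)) (hh : Blk (mat h)) :
    red (mat (g * h) 0 0 ^ 2 - mat (g * h) 0 1 ^ 2) =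
      red ((mat g 0 0 ^ 2 - mat g 0 1 ^ 2) * (mat h 0 0 ^ 2 - mat h 0 1 ^ 2)) := by
  have e0 : red (mat (g * h) 0 0) = red (mat g 0 0) * red (mat h 0 0) +
      red (mat g 0 1) * red (mat h 1 0) := by
    rw [mat_mul, bk_mul]
    simp only [map_add, map_mul, hg.1, zero_mul, add_zero]
  have e1 : red (mat (g * h) 0 1) = red (mat g 0 0) * red (mat h 0 1) +
      red (mat g 0 1) * red (mat h 1 1) := by
    rw [mat_mul, bk_mul]
    simp only [map_add, map_mul, hg.1, zero_mul, add_zero]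
  simp only [map_sub, map_pow, map_mul]
  rw [e0, e1]
  rcases (red_perm g hg).2 with ⟨a1, a2, a3, a4⟩ | ⟨a1, a2, a3, a4⟩ <;>
    rcases (red_perm h hh).2 with ⟨b1, b2, b3, b4⟩ | ⟨b1, b2, b3, b4⟩ <;>
    simp only [a1, a3, b1, b2, b3, b4, mul_zero, zero_mul, add_zero, zero_add, mul_pow] <;> norm_num

theorem FL_mul (g h : Gam) (hg : Blk (mat g)) (hh : Blk (mat h)) :
    C2 (FL (mat (g * h))) (FL (mat g) * FL (mat h)) := by
  have h00 := bk_blk g h hg hh 0 0 (Or.inl rfl) (Or.inl rfl)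
  have h01 := bk_blk g h hg hh 0 1 (Or.inl rfl) (Or.inr rfl)
  have h10 := bk_blk g h hg hh 1 0 (Or.inr rfl) (Or.inl rfl)
  have h11 := bk_blk g h hg hh 1 1 (Or.inr rfl) (Or.inr rfl)
  have h22 := bk_star (bk_22 g h hg hh)
  have hd := bk_sub (h00.mul h11) (h01.mul h10)
  have h1 := (hd.mul (h22.pow 2)).pow 7
  have h2 := bk_five (bk_s g h hg hh)
  have h3 := h1.mul h2
  have e : FL (mat g) * FL (mat h) = (((mat g 0 0 * mat h 0 0 + mat g 0 1 * mat h 1 0) *
      (mat g 1 0 * mat h 0 1 + mat g 1 1 * mat h 1 1) -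
      (mat g 0 0 * mat h 0 1 + mat g 0 1 * mat h 1 1) *
      (mat g 1 0 * mat h 0 0 + mat g 1 1 * mat h 1 0)) * star (mat g 2 2 * mat h 2 2) ^ 2) ^ 7 *
      ((mat g 0 0 ^ 2 - mat g 0 1 ^ 2) * (mat h 0 0 ^ 2 - mat h 0 1 ^ 2)) ^ 5 := by
    unfold FL
    rw [star_mul]
    rw [show ((mat g 0 0 * mat h 0 0 + mat g 0 1 * mat h 1 0) *
      (mat g 1 0 * mat h 0 1 + mat g 1 1 * mat h 1 1) -
      (mat g 0 0 * mat h 0 1 + mat g 0 1 * mat h 1 1) *
      (mat g 1 0 * mat h 0 0 + mat g 1 1 * mat h 1 0)) =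
      (mat g 0 0 * mat g 1 1 - mat g 0 1 * mat g 1 0) *
      (mat h 0 0 * mat h 1 1 - mat h 0 1 * mat h 1 0) by ring]
    simp only [mul_pow]
    ring
  rw [e]
  exact h3

private theorem bk_FL (g : Gam) (hg : Blk (mat g)) :
    red (mat g 0 0 * mat g 1 1 + mat g 0 1 * mat g 1 0 - FL (mat g)) = 0 := by
  unfold FL
  simp only [map_sub, map_add, map_mul, map_pow, red_star]
  have h2 := (red_perm g hg).1
  rcases (red_perm g hg).2 with ⟨a1, a2, a3, a4⟩ | ⟨a1, a2, a3, a4⟩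
  · have e1 : red (mat g 0 0) ^ 7 = red (mat g 0 0) := by
      calc red (mat g 0 0) ^ 7 = (red (mat g 0 0) ^ 2) ^ 3 * red (mat g 0 0) := by ring
        _ = red (mat g 0 0) := by rw [a3]; ring
    have e2 : red (mat g 1 1) ^ 7 = red (mat g 1 1) := by
      calc red (mat g 1 1) ^ 7 = (red (mat g 1 1) ^ 2) ^ 3 * red (mat g 1 1) := by ring
        _ = red (mat g 1 1) := by rw [a4]; ring
    rw [h2, a1, a2, a3]
    simp only [mul_zero, zero_mul, sub_zero, add_zero, mul_one, mul_pow, e1, e2]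
    norm_num
  · have e1 : red (mat g 0 1) ^ 7 = red (mat g 0 1) := by
      calc red (mat g 0 1) ^ 7 = (red (mat g 0 1) ^ 2) ^ 3 * red (mat g 0 1) := by ring
        _ = red (mat g 0 1) := by rw [a3]; ring
    have e2 : red (mat g 1 0) ^ 7 = red (mat g 1 0) := by
      calc red (mat g 1 0) ^ 7 = (red (mat g 1 0) ^ 2) ^ 3 * red (mat g 1 0) := by ring
        _ = red (mat g 1 0) := by rw [a4]; ring
    rw [h2, a1, a2, a3]
    have e3 : (red (mat g 0 1) * red (mat g 1 0)) ^ 7 = red (mat g 0 1) * red (mat g 1 0) := by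
      rw [mul_pow, e1, e2]
    linear_combination -e3

theorem FT_mul (g h : Gam) (hg : Blk (mat g)) (hh : Blk (mat h)) :
    C2 (FT (mat (g * h))) (FL (mat g) * FT (mat h) + FT (mat g)) := by
  have h00 := bk_blk g h hg hh 0 0 (Or.inl rfl) (Or.inl rfl)
  have h01 := bk_blk g h hg hh 0 1 (Or.inl rfl) (Or.inr rfl)
  have h10 := bk_blk g h hg hh 1 0 (Or.inr rfl) (Or.inl rfl)
  have h11 := bk_blk g h hg hh 1 1 (Or.inr rfl) (Or.inr rfl)
  have h1 := (C2.refl 3).mul ((h00.mul h10).add (h01.mul h11))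
  refine C2.trans h1 ?_
  have gp := (red_perm g hg).2
  have hp := (red_perm h hh).2
  have p1 : red (mat h 0 0 ^ 2 + mat h 0 1 ^ 2 - 1) = 0 := by
    simp only [map_sub, map_add, map_pow, map_one]
    rcases hp with ⟨b1, b2, b3, b4⟩ | ⟨b1, b2, b3, b4⟩ <;> rw [b1, b3] <;> norm_num
  have r1 : red (mat h 1 0 ^ 2 + mat h 1 1 ^ 2 - 1) = 0 := by
    simp only [map_sub, map_add, map_pow, map_one]
    rcases hp with ⟨b1, b2, b3, b4⟩ | ⟨b1, b2, b3, b4⟩ <;> rw [b2, b4] <;> norm_num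
  have q1 : red (mat h 0 0 * mat h 1 0 + mat h 0 1 * mat h 1 1) = 0 := by
    simp only [map_add, map_mul]
    rcases hp with ⟨b1, b2, b3, b4⟩ | ⟨b1, b2, b3, b4⟩ <;> rw [b1, b2] <;>
      simp only [mul_zero, zero_mul, add_zero]
  have ac : red (mat g 0 0 * mat g 1 0) = 0 := by
    rw [map_mul]
    rcases gp with ⟨b1, b2, b3, b4⟩ | ⟨b1, b2, b3, b4⟩
    · rw [b2, mul_zero]
    · rw [b1, zero_mul]
  have bd : red (mat g 0 1 * mat g 1 1) = 0 := by
    rw [map_mul]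
    rcases gp with ⟨b1, b2, b3, b4⟩ | ⟨b1, b2, b3, b4⟩
    · rw [b1, zero_mul]
    · rw [b2, mul_zero]
  obtain ⟨u, hu⟩ := bk_two p1 ac
  obtain ⟨v, hv⟩ := bk_two r1 bd
  obtain ⟨w, hw⟩ := bk_two q1 (bk_FL g hg)
  refine ⟨3 * u + 3 * v + 3 * w, ?_⟩
  unfold FT
  linear_combination 3 * hu + 3 * hv + 3 * hw

end H84.AR
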