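import Mathlib

/-!
# Cech: flat cocycles on a convex open set are trivial

`B` is an open convex subset of a real normed space, `U i` (`i : ι`) an open cover of `B` by
preconnected subsets of `B`, `a i j` a cocycle with values in a group.
A *section* over a set `Z` is a function `s : E → ι → A` such that for `z ∈ Z ∩ U i ∩ U j`
`s z i * a i j = s z j`, and for `z ∈ Z ∩ U i` there is `ε > 0` with `s z' i = s z i` for all `z' ∈ Z`,
`dist z' z < ε` (so `z' ∈ U i` for small `ε`).
1. Two sections over a preconnected set `Z` which agree at one point (for one `i`) agree: the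
   element `s z i * (s' z i)⁻¹` (any `i` with `z ∈ U i`) does not depend on `i` and is locally constant.
2. Gluing: `Z₁`, `Z₂` open, `Z₁ ∩ Z₂` nonempty and preconnected, `Z₂ ⊆ U k`, `s₁` a section over `Z₁`:
   there is a section over `Z₁ ∪ Z₂` extending `s₁`: on `Z₂` take `s z i = c * a k i` with the constant
   `c = s₁ z₀ k`, `z₀ ∈ Z₁ ∩ Z₂` (1. shows that it agrees with `s₁` on the intersection).
3. For `x ∈ B` let `[b, x]` be the segment (`b` the base point). By compactness (Lebesgue number) there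
   is `ε > 0` such that for `p ∈ [b, x]` the ball of radius `2 ε` at `p` is contained in some `U k`.
   By induction over `i/n`, `n > |x - b| / ε`, there is a section over the `ε`-neighbourhood of
   `[b, b + (i/n) (x - b)]` (convex, hence the intersections in 2. are convex and nonempty) with value
   `1` at `(b, i₀)`, where `b ∈ U i₀`.
4. The sections for different `x` agree on the intersection of the tubes (which is star-shaped
   about `b`; 1.), so there is a section `s` over `B` (for `z` take the tube of `z`).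
5. `b i = s z i` for any `z ∈ U i`: independent of `z` because `U i` is preconnected and `s · i` is
   locally constant on `U i`. For empty `U i` put `b i = 1`. This gives the claim.
-/

set_option autoImplicit false

namespace H84.AR

open Topology Filter

private theorem cech_locconst {E C : Type} [TopologicalSpace E] {Z : Set E} (hZ : IsPreconnected Z)
    (f : E → C) (hf : ∀ z ∈ Z, ∀ᶠ z' in 𝓝 z, z' ∈ Z → f z' = f z) :
    ∀ x ∈ Z, ∀ y ∈ Z, f x = f y := by
  intro x hx y hy
  letI : TopologicalSpace C := ⊥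
  haveI : DiscreteTopology C := ⟨rfl⟩
  refine hZ.constant (f := f) ?_ hx hy
  intro z hz
  refine tendsto_const_nhds.congr' ?_
  rw [EventuallyEq, eventually_nhdsWithin_iff]
  filter_upwards [hf z hz] with z' h1 h2
  exact (h1 h2).symm

/-- sections over an open set -/
private def CSec {ι E A : Type} [NormedAddCommGroup E] [Group A] (U : ι → Set E)
    (a : ι → ι → A) (Z : Set E) (s : E → ι → A) : Prop :=
  (∀ z ∈ Z, ∃ i, z ∈ U i) ∧
  (∀ z ∈ Z, ∀ i j, z ∈ U i → z ∈ U j → s z i * a i j = s z j) ∧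
  (∀ z ∈ Z, ∀ i, z ∈ U i → ∀ᶠ z' in 𝓝 z, s z' i = s z i)

section

variable {ι E A : Type} [NormedAddCommGroup E] [NormedSpace ℝ E] [Group A]
  {U : ι → Set E} {a : ι → ι → A}

private theorem CSec.mono {Z Z' : Set E} {s : E → ι → A} (h : CSec U a Z s) (hZ : Z' ⊆ Z) :
    CSec U a Z' s :=
  ⟨fun z hz => h.1 z (hZ hz), fun z hz => h.2.1 z (hZ hz), fun z hz => h.2.2 z (hZ hz)⟩

private theorem cech_unique (hU : ∀ i, IsOpen (U i)) {Z : Set E} (hZ : IsPreconnected Z)
    {s s' : E → ι → A} (h : CSec U a Z s) (h' : CSec U a Z s') {z₀ : E} (hz₀ : z₀ ∈ Z) {i₀ : ι}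
    (hi₀ : z₀ ∈ U i₀) (heq : s z₀ i₀ = s' z₀ i₀) :
    ∀ z ∈ Z, ∀ i, z ∈ U i → s z i = s' z i := by
  have key : ∀ z ∈ Z, ∀ i, z ∈ U i → s z i = s' z i → ∀ j, z ∈ U j → s z j = s' z j := by
    intro z hz i hi e j hj
    rw [← h.2.1 z hz i j hi hj, ← h'.2.1 z hz i j hi hj, e]
  have hl := cech_locconst hZ (fun z => ∀ i, z ∈ U i → s z i = s' z i) (by
    intro z hz
    obtain ⟨i, hi⟩ := h.1 z hz
    filter_upwards [h.2.2 z hz i hi, h'.2.2 z hz i hi, (hU i).mem_nhds hi] with z' h1 h2 h3 h4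
    refine propext ⟨fun hh => ?_, fun hh => ?_⟩
    · refine key z hz i hi ?_
      rw [← h1, ← h2]
      exact hh i h3
    · refine key z' h4 i h3 ?_
      rw [h1, h2]
      exact hh i hi)
  intro z hz
  have h5 := hl z₀ hz₀ z hz
  have h6 : ∀ i, z₀ ∈ U i → s z₀ i = s' z₀ i := key z₀ hz₀ i₀ hi₀ heq
  exact h5.mp h6

private theorem cech_const (ha : ∀ i j k, (U i ∩ U j ∩ U k).Nonempty → a i j * a j k = a i k)
    {Z : Set E} {k : ι} (hk : Z ⊆ U k) (c : A) : CSec U a Z (fun _ i => c * a k i) := by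
  refine ⟨fun z hz => ⟨k, hk hz⟩, ?_, ?_⟩
  · intro z hz i j hi hj
    show c * a k i * a i j = c * a k j
    rw [mul_assoc, ha k i j ⟨z, ⟨hk hz, hi⟩, hj⟩]
  · intro z _ i _
    exact Eventually.of_forall fun _ => rfl

private theorem cech_diag (ha : ∀ i j k, (U i ∩ U j ∩ U k).Nonempty → a i j * a j k = a i k)
    {z : E} {k : ι} (hk : z ∈ U k) : a k k = 1 := by
  have := ha k k k ⟨z, ⟨hk, hk⟩, hk⟩
  simpa using this

private theorem cech_glue (hU : ∀ i, IsOpen (U i))
    (ha : ∀ i j k, (U i ∩ U j ∩ U k).Nonempty → a i j * a j k = a i k)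
    {Z₁ Z₂ : Set E} (h₁ : IsOpen Z₁) (h₂ : IsOpen Z₂) (hc : IsPreconnected (Z₁ ∩ Z₂))
    {z₀ : E} (hz₀ : z₀ ∈ Z₁ ∩ Z₂) {k : ι} (hk : Z₂ ⊆ U k) {s₁ : E → ι → A}
    (hs : CSec U a Z₁ s₁) :
    ∃ s, CSec U a (Z₁ ∪ Z₂) s ∧ ∀ z ∈ Z₁, s z = s₁ z := by
  classical
  set c := s₁ z₀ k with hcdef
  have hk₀ : z₀ ∈ U k := hk hz₀.2
  have hagree : ∀ z ∈ Z₁ ∩ Z₂, ∀ i, z ∈ U i → s₁ z i = c * a k i := by
    refine cech_unique hU hc (hs.mono Set.inter_subset_left)
      ((cech_const ha hk c).mono Set.inter_subset_right) hz₀ hk₀ ?_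
    show s₁ z₀ k = c * a k k
    rw [cech_diag ha hk₀, mul_one]
  refine ⟨fun z i => if z ∈ Z₁ then s₁ z i else c * a k i, ⟨?_, ?_, ?_⟩, ?_⟩
  · rintro z (hz | hz)
    · exact hs.1 z hz
    · exact ⟨k, hk hz⟩
  · intro z hz i j hi hj
    by_cases h : z ∈ Z₁
    · simp only [h, if_true]
      exact hs.2.1 z h i j hi hj
    · have hz2 : z ∈ Z₂ := hz.resolve_left h
      simp only [h, if_false]
      exact (cech_const ha hk c).2.1 z hz2 i j hi hj
  · intro z hz i hi
    by_cases h : z ∈ Z₁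
    · filter_upwards [hs.2.2 z h i hi, h₁.mem_nhds h] with z' h3 h4
      simp only [h, h4, if_true]
      exact h3
    · have hz2 : z ∈ Z₂ := hz.resolve_left h
      filter_upwards [(hU i).mem_nhds hi, h₂.mem_nhds hz2] with z' h3 h4
      by_cases h5 : z' ∈ Z₁
      · simp only [h, h5, if_true, if_false]
        exact hagree z' ⟨h5, h4⟩ i h3
      · simp only [h, h5, if_false]
  · intro z hz
    funext i
    simp only [hz, if_true]

private theorem cech_tube (hU : ∀ i, IsOpen (U i))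
    (ha : ∀ i j k, (U i ∩ U j ∩ U k).Nonempty → a i j * a j k = a i k)
    {b x : E} (hcov : ∀ y ∈ segment ℝ b x, ∃ i, y ∈ U i) {i₀ : ι} (hi₀ : b ∈ U i₀) :
    ∃ ε > 0, ∃ s, CSec U a (Metric.thickening ε (segment ℝ b x)) s ∧ s b i₀ = 1 := by
  have hcomp : IsCompact (segment ℝ b x) := by
    rw [segment_eq_image_lineMap]
    exact isCompact_Icc.image (AffineMap.lineMap_continuous)
  obtain ⟨δ, hδ, hball⟩ := lebesgue_number_lemma_of_metric hcomp hU
    (by intro y hy; obtain ⟨i, hi⟩ := hcov y hy; exact Set.mem_iUnion.mpr ⟨i, hi⟩)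
  set ε := δ / 2 with hε
  have hε0 : 0 < ε := by positivity
  obtain ⟨n, hn⟩ := exists_nat_gt (dist b x / ε)
  have hn0 : (0 : ℝ) < n := lt_of_le_of_lt (by positivity) hn
  let γ : ℝ → E := fun t => AffineMap.lineMap b x t
  have hγseg : ∀ t ∈ Set.Icc (0 : ℝ) 1, γ t ∈ segment ℝ b x := by
    intro t ht
    rw [segment_eq_image_lineMap]
    exact ⟨t, ht, rfl⟩
  have hγconv : ∀ u v : ℝ, Convex ℝ (Metric.thickening ε (γ '' Set.Icc u v)) := by
    intro u v
    refine Convex.thickening ?_ ε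
    have : γ '' Set.Icc u v = (AffineMap.lineMap b x : ℝ →ᵃ[ℝ] E) '' Set.Icc u v := rfl
    rw [this]
    exact (convex_Icc u v).affine_image _
  have hγdist : ∀ t t' : ℝ, dist (γ t) (γ t') = dist t t' * dist b x := by
    intro t t'
    exact dist_lineMap_lineMap b x t t'
  have main : ∀ m : ℕ, m ≤ n → ∃ s, CSec U a (Metric.thickening ε
      (γ '' Set.Icc 0 ((m : ℝ) / n))) s ∧ s b i₀ = 1 := by
    intro m
    induction m with
    | zero =>
      intro _
      obtain ⟨k, hk⟩ := hball b (left_mem_segment ℝ b x)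
      have hsub : Metric.thickening ε (γ '' Set.Icc 0 (((0 : ℕ) : ℝ) / n)) ⊆ U k := by
        intro z hz
        apply hk
        rw [Metric.mem_thickening_iff] at hz
        obtain ⟨y, ⟨t, ht, rfl⟩, hy⟩ := hz
        have ht0 : t = 0 := by
          have h2 := ht.2
          simp at h2
          exact le_antisymm h2 ht.1
        rw [ht0] at hy
        have : γ 0 = b := by simp [γ]
        rw [this] at hy
        rw [Metric.mem_ball]
        linarith
      refine ⟨_, cech_const ha hsub (a k i₀)⁻¹, ?_⟩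
      show (a k i₀)⁻¹ * a k i₀ = 1
      exact inv_mul_cancel _
    | succ m ih =>
      intro hm
      obtain ⟨s₁, hs₁, h1⟩ := ih (by omega)
      have hmn : (m : ℝ) / n ≤ 1 := by
        rw [div_le_one hn0]
        exact_mod_cast (by omega : m ≤ n)
      have hm0 : (0 : ℝ) ≤ (m : ℝ) / n := by positivity
      have hstep : ((m + 1 : ℕ) : ℝ) / n = (m : ℝ) / n + 1 / n := by
        push_cast
        ring
      have hle : (m : ℝ) / n ≤ ((m + 1 : ℕ) : ℝ) / n := by
        rw [hstep]
        have : (0 : ℝ) < 1 / n := by positivity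
        linarith
      obtain ⟨k, hk⟩ := hball (γ ((m : ℝ) / n)) (hγseg _ ⟨hm0, hmn⟩)
      set Z₁ := Metric.thickening ε (γ '' Set.Icc 0 ((m : ℝ) / n)) with hZ₁
      set Z₂ := Metric.thickening ε (γ '' Set.Icc ((m : ℝ) / n) (((m + 1 : ℕ) : ℝ) / n)) with hZ₂
      have hU2 : Z₂ ⊆ U k := by
        intro z hz
        apply hk
        rw [hZ₂, Metric.mem_thickening_iff] at hz
        obtain ⟨y, ⟨t, ht, rfl⟩, hy⟩ := hz
        rw [Metric.mem_ball]
        have h3 : dist (γ t) (γ ((m : ℝ) / n)) < ε := by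
          rw [hγdist, Real.dist_eq, abs_of_nonneg (by linarith [ht.1])]
          have h4 : t - (m : ℝ) / n ≤ 1 / n := by
            have := ht.2
            rw [hstep] at this
            linarith
          have h5 : dist b x < ε * n := by
            rw [div_lt_iff₀ hε0] at hn
            linarith
          calc (t - (m : ℝ) / n) * dist b x ≤ 1 / n * dist b x :=
                mul_le_mul_of_nonneg_right h4 dist_nonneg
            _ < 1 / n * (ε * n) := mul_lt_mul_of_pos_left h5 (by positivity)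
            _ = ε := by field_simp
        have := dist_triangle z (γ t) (γ ((m : ℝ) / n))
        linarith
      have hmid : γ ((m : ℝ) / n) ∈ Z₁ ∩ Z₂ := by
        refine ⟨Metric.self_subset_thickening hε0 _ ⟨_, ⟨hm0, le_refl _⟩, rfl⟩,
          Metric.self_subset_thickening hε0 _ ⟨_, ⟨le_refl _, hle⟩, rfl⟩⟩
      obtain ⟨s, hs, hs'⟩ := cech_glue hU ha Metric.isOpen_thickening Metric.isOpen_thickening
        (((hγconv 0 ((m : ℝ) / n)).inter (hγconv ((m : ℝ) / n)
          (((m + 1 : ℕ) : ℝ) / n))).isPreconnected) hmid hU2 hs₁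
      refine ⟨s, hs.mono ?_, ?_⟩
      · intro z hz
        rw [Metric.mem_thickening_iff] at hz
        obtain ⟨y, ⟨t, ht, rfl⟩, hy⟩ := hz
        rcases le_total t ((m : ℝ) / n) with h | h
        · left
          rw [Metric.mem_thickening_iff]
          exact ⟨_, ⟨t, ⟨ht.1, h⟩, rfl⟩, hy⟩
        · right
          rw [Metric.mem_thickening_iff]
          exact ⟨_, ⟨t, ⟨h, ht.2⟩, rfl⟩, hy⟩
      · have hb : b ∈ Z₁ := by
          refine Metric.self_subset_thickening hε0 _ ⟨0, ⟨le_refl _, hm0⟩, ?_⟩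
          simp [γ]
        rw [hs' b hb]
        exact h1
  obtain ⟨s, hs, h1⟩ := main n le_rfl
  refine ⟨ε, hε0, s, ?_, h1⟩
  have : segment ℝ b x = γ '' Set.Icc 0 ((n : ℝ) / n) := by
    rw [div_self hn0.ne', segment_eq_image_lineMap]
  rw [this]
  exact hs

end

theorem cech {ι E A : Type} [NormedAddCommGroup E] [NormedSpace ℝ E] [Group A] {B : Set E}
    (hB : IsOpen B) (hconv : Convex ℝ B) (hne : B.Nonempty) (U : ι → Set E)
    (hU : ∀ i, IsOpen (U i)) (hpre : ∀ i, IsPreconnected (U i)) (hsub : ∀ i, U i ⊆ B)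
    (hcov : ∀ x ∈ B, ∃ i, x ∈ U i) (a : ι → ι → A)
    (ha : ∀ i j k, (U i ∩ U j ∩ U k).Nonempty → a i j * a j k = a i k) :
    ∃ b : ι → A, ∀ i j, (U i ∩ U j).Nonempty → b i * a i j = b j := by
  classical
  obtain ⟨b, hb⟩ := hne
  obtain ⟨i₀, hi₀⟩ := hcov b hb
  have htube : ∀ x : E, x ∈ B → ∃ ε > 0, ∃ s : E → ι → A,
      CSec U a (Metric.thickening ε (segment ℝ b x)) s ∧ s b i₀ = 1 := fun x hx =>
    cech_tube hU ha (fun y hy => hcov y (hconv.segment_subset hb hx hy)) hi₀
  choose! ε hε σ hσ hσ1 using htube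
  have hmem : ∀ x ∈ B, x ∈ Metric.thickening (ε x) (segment ℝ b x) := fun x hx =>
    Metric.self_subset_thickening (hε x hx) _ (right_mem_segment ℝ b x)
  have hbmem : ∀ x ∈ B, b ∈ Metric.thickening (ε x) (segment ℝ b x) := fun x hx =>
    Metric.self_subset_thickening (hε x hx) _ (left_mem_segment ℝ b x)
  have hcv : ∀ x : E, Convex ℝ (Metric.thickening (ε x) (segment ℝ b x)) := fun x =>
    (convex_segment b x).thickening (ε x)
  have hs : CSec U a B (fun z i => σ z z i) := by
    refine ⟨hcov, ?_, ?_⟩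
    · intro z hz i j hi hj
      exact (hσ z hz).2.1 z (hmem z hz) i j hi hj
    · intro z hz i hi
      filter_upwards [(hσ z hz).2.2 z (hmem z hz) i hi, (hU i).mem_nhds hi, hB.mem_nhds hz,
        Metric.isOpen_thickening.mem_nhds (hmem z hz)] with z' h1 h2 h3 h4
      rw [← h1]
      exact cech_unique hU ((hcv z').inter (hcv z)).isPreconnected
        ((hσ z' h3).mono Set.inter_subset_left) ((hσ z hz).mono Set.inter_subset_right)
        ⟨hbmem z' h3, hbmem z hz⟩ hi₀ (by rw [hσ1 z' h3, hσ1 z hz]) z' ⟨hmem z' h3, h4⟩ i h2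
  have hconst : ∀ i, ∀ x ∈ U i, ∀ y ∈ U i, σ x x i = σ y y i := by
    intro i
    refine cech_locconst (hpre i) (fun z => σ z z i) ?_
    intro z hz
    filter_upwards [hs.2.2 z (hsub i hz) i hz] with z' h1 _
    exact h1
  refine ⟨fun i => if h : (U i).Nonempty then σ h.some h.some i else 1, ?_⟩
  rintro i j ⟨z, hzi, hzj⟩
  have hi : (U i).Nonempty := ⟨z, hzi⟩
  have hj : (U j).Nonempty := ⟨z, hzj⟩
  simp only [hi, hj, dif_pos]
  rw [hconst i _ hi.some_mem z hzi, hconst j _ hj.some_mem z hzj]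
  exact hs.2.1 z (hsub i hzi) i j hzi hzj

end H84.AR
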