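import Pool.Agent.H84.AR.Tab

set_option autoImplicit false

namespace H84.AR

theorem chk11 : chkAll 1 1 = true := by decide +kernel

end H84.AR
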