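import Pool.Agent.H84.AR.Chk11
import Pool.Agent.H84.AR.Chk12
import Pool.Agent.H84.AR.Chk13
import Pool.Agent.H84.AR.Chk21
import Pool.Agent.H84.AR.Chk22
import Pool.Agent.H84.AR.Chk23
import Pool.Agent.H84.AR.Chk31
import Pool.Agent.H84.AR.Chk32
import Pool.Agent.H84.AR.Chk33

set_option autoImplicit false

namespace H84.AR

theorem chk_all (i j : ℕ) (hi : 1 ≤ i) (hi' : i ≤ 3) (hj : 1 ≤ j) (hj' : j ≤ 3) (k : ℕ)
    (hk : k < 200) : chk i j k = true := by
  have h : chkAll i j = true := by
    interval_cases i <;> interval_cases j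
    exacts [chk11, chk12, chk13, chk21, chk22, chk23, chk31, chk32, chk33]
  unfold chkAll at h
  rw [List.all_eq_true] at h
  exact h k (List.mem_range.2 hk)

end H84.AR
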