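import Pool.Agent.H84.AR.Fch

/-!
# ClA: the claim for the generators

`HC C`: the values of `C` on the generators (the result of `homC`). `gen_act`: `C (gG s) x = (gA s).act x`
(`qof_apply`). `word_act`: the same for words (`Af.act_comp`, `act_one`).
* `Cl_gen`: `η = (wG (tr i))⁻¹ * gG s * wG (tr j)`, `i = (gA s).p j`, `mat η = etM s j` (`mat_inv`); by `word_act` and `tr_p`
  `C (wG (tr i)) (0, y) = (i, mu e₂ * y + t₂)` and `C (gG s * wG (tr j)) (0, x) = (i, mu e₁ * x + t₁)`, so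
  `C η (0, x) = (0, mu (-e₂) * (mu e₁ * x + t₁ - t₂))` (apply `C (wG (tr i))` to both sides; `mu (10 - e % 10) * mu e = 1` by
  `mu_add`, `mu_mod`); `tst_ok`, `cg2_ok` (`e = etE s j`, `t = etT s j`).
* `Cl_U`: `gU` is central (`mat_inj`; `mat gU = mu 1 • 1`), take `i = j`, `e = 0`, `t = 0`; `Blk`, `FL`, `FT` of `uM 1` by
  `decide +kernel`.
-/

set_option autoImplicit false

namespace H84.AR

open O5

/-- the homomorphism on generators -/
structure HC (C : Gam →* Equiv.Perm Pt) : Prop where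
  hU : C gU = 1
  hX : C gX = qX
  hY : C gY = qY
  hW : C gW = qW
  hS : C (gS 1) = qS 1
  hgen : Submonoid.closure ({gU, gX, gY, gW, gS 1} : Set Gam) = ⊤

theorem gen_act {C : Gam →* Equiv.Perm Pt} (hC : HC C) (s : ℕ) (x : Pt) :
    C (gG s) x = (gA s).act x := by
  unfold gG gA
  split
  · rw [hC.hX]
    rfl
  · rw [hC.hY]
    rfl
  · rw [hC.hW]
    rfl
  · rw [hC.hS]
    rfl

theorem word_act {C : Gam →* Equiv.Perm Pt} (hC : HC C) (w : List ℕ) (x : Pt) :
    C (wG w) x = (wA w).act x := by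
  induction w generalizing x with
  | nil =>
    show C 1 x = (aS 0).act x
    rw [map_one, act_one]
    rfl
  | cons s w ih =>
    show C (gG s * wG w) x = (Af.comp (gA s) (wA w)).act x
    rw [map_mul, Equiv.Perm.mul_apply, gen_act hC, ih, Af.act_comp]

private theorem mu_inv10 (e : ℕ) : mu e * mu (10 - e % 10) = 1 := by
  rw [mu_add, ← mu_mod]
  have h : (e + (10 - e % 10)) % 10 = 0 := by omega
  rw [h]
  rfl

private theorem gU_comm' (g : Gam) : gU * g = g * gU := by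
  refine mat_inj ?_
  rw [mat_mul, mat_mul]
  show (mu 1 • (1 : M3)) * mat g = mat g * (mu 1 • (1 : M3))
  rw [Matrix.smul_mul, Matrix.mul_smul, one_mul, mul_one]

/-- the claim -/
def Cl (C : Gam →* Equiv.Perm Pt) (g : Gam) : Prop :=
  ∀ j : Fin 15, ∃ (i : Fin 15) (e : ℕ) (t : O5),
    Blk (mat ((wG (tr i))⁻¹ * g * wG (tr j))) ∧
    (∀ x, C ((wG (tr i))⁻¹ * g * wG (tr j)) (0, x) = (0, mu e * x + t)) ∧
    C2 (mu e) (FL (mat ((wG (tr i))⁻¹ * g * wG (tr j)))) ∧
    C2 t (FT (mat ((wG (tr i))⁻¹ * g * wG (tr j))))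

private theorem act_eq {C : Gam →* Equiv.Perm Pt} (hC : HC C) (s : ℕ) (j : Fin 15) (x : O5) :
    C (wG (tr ((gA s).p j))) (0, mu (etE s j) * x + etT s j) = C (gG s * wG (tr j)) (0, x) := by
  rw [word_act hC, map_mul, Equiv.Perm.mul_apply, gen_act hC, word_act hC, ← Af.act_comp]
  refine Prod.ext ?_ ?_
  · show (wA (tr ((gA s).p j))).p 0 = (gA s).p ((wA (tr j)).p 0)
    rw [tr_p, tr_p]
  · have h := mu_inv10 ((wA (tr ((gA s).p j))).e 0)
    show mu ((wA (tr ((gA s).p j))).e 0) * (mu ((Af.comp (gA s) (wA (tr j))).e 0 +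
        (10 - (wA (tr ((gA s).p j))).e 0 % 10)) * x +
        mu (10 - (wA (tr ((gA s).p j))).e 0 % 10) *
          ((Af.comp (gA s) (wA (tr j))).t 0 - (wA (tr ((gA s).p j))).t 0)) +
        (wA (tr ((gA s).p j))).t 0 =
      mu ((Af.comp (gA s) (wA (tr j))).e 0) * x + (Af.comp (gA s) (wA (tr j))).t 0
    rw [← mu_add]
    generalize mu ((Af.comp (gA s) (wA (tr j))).e 0) = E at *
    generalize (Af.comp (gA s) (wA (tr j))).t 0 = T at *
    generalize (wA (tr ((gA s).p j))).t 0 = t2 at *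
    generalize mu (10 - (wA (tr ((gA s).p j))).e 0 % 10) = m' at *
    generalize mu ((wA (tr ((gA s).p j))).e 0) = m at *
    linear_combination (E * x + T - t2) * h

theorem Cl_gen {C : Gam →* Equiv.Perm Pt} (hC : HC C) (s : ℕ) (hs : s < 4) : Cl C (gG s) := by
  intro j
  have h := tst_ok s hs j
  unfold tst at h
  rw [Bool.and_eq_true, Bool.and_eq_true, decide_eq_true_eq] at h
  obtain ⟨⟨h1, h2⟩, h3⟩ := h
  have hm : mat ((wG (tr ((gA s).p j)))⁻¹ * gG s * wG (tr j)) = etM s j := by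
    rw [mat_mul, mat_mul, mat_inv, mat_wG, mat_wG, mat_gG]
    unfold etM
    rw [mul_assoc]
  refine ⟨(gA s).p j, etE s j, etT s j, ?_, ?_, ?_, ?_⟩
  · rw [hm]
    exact h1
  · intro x
    rw [mul_assoc, map_mul, map_inv, Equiv.Perm.mul_apply, ← act_eq hC]
    exact (C (wG (tr ((gA s).p j)))).symm_apply_apply _
  · rw [hm]
    exact cg2_ok _ _ h2
  · rw [hm]
    exact cg2_ok _ _ h3

theorem Cl_U {C : Gam →* Equiv.Perm Pt} (hC : HC C) : Cl C gU := by
  intro j
  have hη : (wG (tr j))⁻¹ * gU * wG (tr j) = gU := by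
    rw [mul_assoc, gU_comm', inv_mul_cancel_left]
  have hm : mat gU = uM 1 := rfl
  refine ⟨j, 0, 0, ?_, ?_, ?_, ?_⟩
  · rw [hη, hm]
    decide +kernel
  · intro x
    rw [hη, hC.hU, add_zero, show mu 0 = 1 from rfl, one_mul]
    rfl
  · rw [hη, hm]
    exact cg2_ok _ _ (by decide +kernel)
  · rw [hη, hm]
    exact cg2_ok _ _ (by decide +kernel)

end H84.AR
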