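import Pool.Agent.H84.AR.ClA

/-!
# ClB: the claim for all elements

* `Cl_mul`: compose: `(wG (tr i'))⁻¹ g wG (tr i) * ((wG (tr i))⁻¹ h wG (tr j))`; `blk_mul`, `FL_mul`, `FT_mul`,
  `mu_add`; the translation of the composite is `mu e * t' + t`.
* `Cl_all`: `Submonoid.closure_induction`, `hC.hgen`.
-/

set_option autoImplicit false

namespace H84.AR

open O5

theorem Cl_one (C : Gam →* Equiv.Perm Pt) : Cl C 1 := by
  intro j
  have h : (wG (tr j))⁻¹ * 1 * wG (tr j) = 1 := by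
    rw [mul_one, inv_mul_cancel]
  refine ⟨j, 0, 0, ?_, ?_, ?_, ?_⟩
  · rw [h, mat_one]
    exact blk_one
  · intro x
    rw [h, map_one, Equiv.Perm.one_apply, add_zero, show mu 0 = 1 from rfl, one_mul]
  · rw [h, mat_one, FL_one, show mu 0 = 1 from rfl]
    exact C2.refl 1
  · rw [h, mat_one, FT_one]
    exact C2.refl 0

theorem Cl_mul {C : Gam →* Equiv.Perm Pt} {g h : Gam} (hg : Cl C g) (hh : Cl C h) :
    Cl C (g * h) := by
  intro j
  obtain ⟨i2, e2, t2, b2, c2, f2, u2⟩ := hh j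
  obtain ⟨i1, e1, t1, b1, c1, f1, u1⟩ := hg i2
  have hm : (wG (tr i1))⁻¹ * (g * h) * wG (tr j) =
      ((wG (tr i1))⁻¹ * g * wG (tr i2)) * ((wG (tr i2))⁻¹ * h * wG (tr j)) := by
    group
  refine ⟨i1, e1 + e2, mu e1 * t2 + t1, ?_, ?_, ?_, ?_⟩
  · rw [hm]
    exact blk_mul _ _ b1 b2
  · intro x
    rw [hm, map_mul, Equiv.Perm.mul_apply, c2, c1]
    refine Prod.ext rfl ?_
    show mu e1 * (mu e2 * x + t2) + t1 = mu (e1 + e2) * x + (mu e1 * t2 + t1)
    rw [← mu_add]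
    ring
  · rw [hm, ← mu_add]
    exact (f1.mul f2).trans (FL_mul _ _ b1 b2).symm
  · rw [hm]
    exact ((f1.mul u2).add u1).trans (FT_mul _ _ b1 b2).symm

theorem Cl_all {C : Gam →* Equiv.Perm Pt} (hC : HC C) (g : Gam) : Cl C g := by
  have hg : g ∈ Submonoid.closure ({gU, gX, gY, gW, gS 1} : Set Gam) := by
    rw [hC.hgen]
    exact Submonoid.mem_top g
  refine Submonoid.closure_induction (motive := fun x _ => Cl C x) ?_ ?_ ?_ hg
  · intro x hx
    simp only [Set.mem_insert_iff, Set.mem_singleton_iff] at hx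
    rcases hx with rfl | rfl | rfl | rfl | rfl
    · exact Cl_U hC
    · exact Cl_gen hC 0 (by norm_num)
    · exact Cl_gen hC 1 (by norm_num)
    · exact Cl_gen hC 2 (by norm_num)
    · exact Cl_gen hC 3 (by norm_num)
  · exact Cl_one C
  · intro x y _ _ hx hy
    exact Cl_mul hx hy

end H84.AR
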