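import Pool.Agent.H84.AR.ClA

/-!
# DetT: elements detected by virtual homomorphisms to `ℤ`

* `aff_all`: closure induction over the generators (`gen_act`, `Af.act_comp`, `act_one`; `C gU = 1`).
* `det_of_trans`: `N = {g | ∃ t, ∀ x, C g (0, x) = (0, x + t)}` is a subgroup (inverse: apply `C g` to both
  sides). Finite index: map `g` to `(A.p 0, A.e 0 % 10)` where `A` is chosen by `aff_all` (values in
  `Fin 15 × Fin 10`); if `g`, `h` have the same value, then `C g (0, x) = (i, mu e * x + t)`, `C h (0, y) = (i, mu e * y + t')`,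
  so `C (h⁻¹ * g) (0, x) = (0, x + mu (-e) * (t - t'))` and `h⁻¹ * g ∈ N`. (Finite quotient: injective map
  from `Gam ⧸ N`, e.g. by `Quotient.out`.) The map `g ↦ t g = (C g (0, 0)).2` is additive on `N`. As `t g ≠ 0` one
  of the four coordinates is not zero: `χ h = Multiplicative.ofAdd (t h).a` (`b`, `c`, `d`). Take `m = 1`.
* `det_conj`: `H' = H.comap (MulAut.conj γ)`, `χ' = χ ∘ conj`; `(γ g γ⁻¹) ^ m = γ g ^ m γ⁻¹` (`conj_pow`).
* `det_pow_ne`: if `g ^ n = 1` with `n > 0` then `χ (g ^ m) ^ n = 1` in `Multiplicative ℤ`, so `χ (g ^ m) = 1`.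
-/

set_option autoImplicit false

namespace H84.AR

open O5

/-- some power of `g` is detected by a homomorphism of a subgroup of finite index to `ℤ` -/
def Det (g : Gam) : Prop := ∃ m : ℕ, 0 < m ∧ ∃ (H : Subgroup Gam) (χ : H →* Multiplicative ℤ)
  (h : g ^ m ∈ H), H.FiniteIndex ∧ χ ⟨g ^ m, h⟩ ≠ 1

theorem aff_all {C : Gam →* Equiv.Perm Pt} (hC : HC C) (g : Gam) :
    ∃ A : Af, ∀ x, C g x = A.act x := by
  have hg : g ∈ Submonoid.closure ({gU, gX, gY, gW, gS 1} : Set Gam) := by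
    rw [hC.hgen]
    exact Submonoid.mem_top g
  induction hg using Submonoid.closure_induction with
  | mem y hy =>
    rcases hy with h | h | h | h | h
    · subst h
      refine ⟨aS 0, fun x => ?_⟩
      rw [hC.hU, act_one]
      rfl
    · subst h
      refine ⟨aK 20, fun x => ?_⟩
      rw [hC.hX]
      rfl
    · subst h
      refine ⟨aK 2, fun x => ?_⟩
      rw [hC.hY]
      rfl
    · subst h
      refine ⟨aK 1, fun x => ?_⟩
      rw [hC.hW]
      rfl
    · have h' : y = gS 1 := h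
      subst h'
      refine ⟨aS 1, fun x => ?_⟩
      rw [hC.hS]
      rfl
  | one =>
    refine ⟨aS 0, fun x => ?_⟩
    rw [map_one, act_one]
    rfl
  | mul y z _ _ ihy ihz =>
    obtain ⟨A, hA⟩ := ihy
    obtain ⟨B, hB⟩ := ihz
    refine ⟨Af.comp A B, fun x => ?_⟩
    rw [map_mul, Equiv.Perm.mul_apply, hB, hA, Af.act_comp]

/-- the elements which act on the line `0` by a translation -/
private def trN (C : Gam →* Equiv.Perm Pt) : Subgroup Gam where
  carrier := {g | ∃ t : O5, ∀ x : O5, C g (0, x) = (0, x + t)}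
  one_mem' := by
    refine ⟨0, fun x => ?_⟩
    rw [map_one, add_zero]
    rfl
  mul_mem' := by
    rintro g h ⟨t, ht⟩ ⟨u, hu⟩
    refine ⟨u + t, fun x => ?_⟩
    rw [map_mul, Equiv.Perm.mul_apply, hu, ht, add_assoc]
  inv_mem' := by
    rintro g ⟨t, ht⟩
    refine ⟨-t, fun x => ?_⟩
    have h1 := ht (x + -t)
    rw [add_assoc, neg_add_cancel, add_zero] at h1
    rw [map_inv, ← h1]
    exact (C g).symm_apply_apply _

private theorem trN_eq {C : Gam →* Equiv.Perm Pt} {g : Gam} (hg : g ∈ trN C) (x : O5) :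
    C g (0, x) = (0, x + (C g (0, 0)).2) := by
  obtain ⟨t, ht⟩ := hg
  rw [ht x, ht 0, zero_add]

private theorem mu_inv10' (e : ℕ) : mu e * mu (10 - e % 10) = 1 := by
  rw [mu_add, ← mu_mod]
  have h : (e + (10 - e % 10)) % 10 = 0 := by omega
  rw [h]
  rfl

/-- the invariant of a coset -/
private noncomputable def trF {C : Gam →* Equiv.Perm Pt} (hC : HC C) (g : Gam) : Fin 15 × Fin 10 :=
  ((aff_all hC g).choose.p 0, ⟨(aff_all hC g).choose.e 0 % 10, Nat.mod_lt _ (by norm_num)⟩)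

private theorem trF_aux {C : Gam →* Equiv.Perm Pt} (g h : Gam) (A B : Af)
    (hg : ∀ x, C g x = A.act x) (hh : ∀ x, C h x = B.act x) (e1 : A.p 0 = B.p 0)
    (e2 : A.e 0 % 10 = B.e 0 % 10) : g⁻¹ * h ∈ trN C := by
  refine ⟨mu (10 - A.e 0 % 10) * (B.t 0 - A.t 0), fun x => ?_⟩
  rw [map_mul, map_inv, Equiv.Perm.mul_apply]
  have h1 : C h (0, x) = C g (0, x + mu (10 - A.e 0 % 10) * (B.t 0 - A.t 0)) := by
    rw [hg, hh]
    unfold Af.act
    refine Prod.ext e1.symm ?_
    show mu (B.e 0) * x + B.t 0 =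
      mu (A.e 0) * (x + mu (10 - A.e 0 % 10) * (B.t 0 - A.t 0)) + A.t 0
    have h2 := mu_inv10' (A.e 0)
    have h3 : mu (B.e 0) = mu (A.e 0) := by
      rw [← mu_mod (B.e 0), ← e2, mu_mod]
    rw [h3]
    linear_combination (-(B.t 0 - A.t 0)) * h2
  rw [h1]
  exact (C g).symm_apply_apply _

private theorem trF_mem {C : Gam →* Equiv.Perm Pt} (hC : HC C) (g h : Gam)
    (e : trF hC g = trF hC h) : g⁻¹ * h ∈ trN C :=
  trF_aux g h _ _ (aff_all hC g).choose_spec (aff_all hC h).choose_spec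
    (Prod.ext_iff.1 e).1 (congrArg Fin.val (Prod.ext_iff.1 e).2)

private theorem trN_fin {C : Gam →* Equiv.Perm Pt} (hC : HC C) : (trN C).FiniteIndex := by
  have hinj : Function.Injective (fun q : Gam ⧸ trN C => trF hC q.out) := by
    intro q r hqr
    have h1 := trF_mem hC _ _ hqr
    have h2 : ((q.out : Gam) : Gam ⧸ trN C) = ((r.out : Gam) : Gam ⧸ trN C) :=
      QuotientGroup.eq.2 h1
    rw [QuotientGroup.out_eq', QuotientGroup.out_eq'] at h2
    exact h2
  have hf : Finite (Gam ⧸ trN C) := Finite.of_injective _ hinj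
  exact Subgroup.finiteIndex_of_finite_quotient

private theorem det_aux {C : Gam →* Equiv.Perm Pt} (hC : HC C) (g : Gam) (t : O5)
    (h : ∀ x, C g (0, x) = (0, x + t)) (f : O5 → ℤ) (hf : ∀ x y, f (x + y) = f x + f y)
    (hft : f t ≠ 0) : Det g := by
  have hg : g ^ 1 ∈ trN C := by
    rw [pow_one]
    exact ⟨t, h⟩
  refine ⟨1, one_pos, trN C, MonoidHom.mk'
    (fun k : trN C => Multiplicative.ofAdd (f (C (k : Gam) (0, 0)).2)) ?_, hg, trN_fin hC, ?_⟩
  · intro k l
    show Multiplicative.ofAdd (f (C ((k : Gam) * (l : Gam)) (0, 0)).2) = _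
    rw [map_mul, Equiv.Perm.mul_apply, trN_eq l.2 0, trN_eq k.2 (0 + (C (l : Gam) (0, 0)).2),
      ← ofAdd_add, ← hf, zero_add, add_comm]
  · show Multiplicative.ofAdd (f (C (g ^ 1) (0, 0)).2) ≠ 1
    rw [pow_one, h 0, zero_add]
    intro h1
    exact hft (Multiplicative.ofAdd.injective h1)

theorem det_of_trans {C : Gam →* Equiv.Perm Pt} (hC : HC C) (g : Gam) (t : O5) (ht : t ≠ 0)
    (h : ∀ x, C g (0, x) = (0, x + t)) : Det g := by
  by_contra hd
  have key : ∀ f : O5 → ℤ, (∀ x y, f (x + y) = f x + f y) → f t = 0 := by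
    intro f hf
    by_contra hft
    exact hd (det_aux hC g t h f hf hft)
  refine ht (O5.ext ?_ ?_ ?_ ?_)
  · exact key O5.a (fun x y => rfl)
  · exact key O5.b (fun x y => rfl)
  · exact key O5.c (fun x y => rfl)
  · exact key O5.d (fun x y => rfl)

theorem det_conj (γ g : Gam) (h : Det (γ * g * γ⁻¹)) : Det g := by
  obtain ⟨m, hm, H, χ, hmem, hfin, hne⟩ := h
  have hgm : g ^ m ∈ H.comap (MulAut.conj γ).toMonoidHom := by
    show γ * g ^ m * γ⁻¹ ∈ H
    rw [← conj_pow]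
    exact hmem
  have hfin' : (H.comap (MulAut.conj γ).toMonoidHom).FiniteIndex := by
    refine ⟨?_⟩
    rw [Subgroup.index_comap_of_surjective H (MulAut.conj γ).surjective]
    exact hfin.index_ne_zero
  refine ⟨m, hm, H.comap (MulAut.conj γ).toMonoidHom,
    χ.comp (MonoidHom.subgroupComap (MulAut.conj γ).toMonoidHom H), hgm, hfin', ?_⟩
  have h1 : MonoidHom.subgroupComap (MulAut.conj γ).toMonoidHom H ⟨g ^ m, hgm⟩ =
      ⟨(γ * g * γ⁻¹) ^ m, hmem⟩ := by
    refine Subtype.ext ?_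
    show γ * g ^ m * γ⁻¹ = (γ * g * γ⁻¹) ^ m
    rw [conj_pow]
  rw [MonoidHom.comp_apply, h1]
  exact hne

theorem det_pow_ne {g : Gam} (h : Det g) (n : ℕ) (hn : 0 < n) : g ^ n ≠ 1 := by
  intro hg
  obtain ⟨m, hm, H, χ, hmem, hfin, hne⟩ := h
  have h1 : (⟨g ^ m, hmem⟩ : H) ^ n = 1 := by
    refine Subtype.ext ?_
    show (g ^ m) ^ n = 1
    rw [← pow_mul, mul_comm, pow_mul, hg, one_pow]
  have h2 : (χ ⟨g ^ m, hmem⟩) ^ n = 1 := by
    rw [← map_pow, h1, map_one]
  have h3 : (n : ℤ) * Multiplicative.toAdd (χ ⟨g ^ m, hmem⟩) = 0 := by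
    have h4 := congrArg Multiplicative.toAdd h2
    rw [toAdd_pow, toAdd_one, nsmul_eq_mul] at h4
    exact h4
  rcases mul_eq_zero.1 h3 with h4 | h4
  · exact absurd h4 (by exact_mod_cast hn.ne')
  · exact hne (Multiplicative.toAdd.injective h4)

end H84.AR
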