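import Pool.Agent.H84.AR.Num

/-!
# NumE: elements of `ℤ[ζ]` of small norm

`x x̄ = nP x + nQ x φ` (`mul_star`). With `s = Σ x_i`, `q = Σ x_i²` one has
`2 (2 nP x + nQ x) = 5 q - s²`, and `s² ≤ 4 q` by Cauchy-Schwarz, so `q ≤ 2 (2 nP x + nQ x)`
(`nlinarith`, or write `5 q - s² - q` as a sum of squares `Σ_{i<j} (x_i - x_j)²`); this bounds the
coordinates (`|x_i| ≤ 2` when `2 nP x + nQ x ≤ 4`).
* `unit_enum`: `q ≤ 4`, so all coordinates are in `[-2, 2]`: 625 cases (`interval_cases` is too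
  slow; write a decidable statement over `a, b, c, d ∈ Finset.Icc (-2) 2` and use `decide +kernel`).
* `enum11`: `y = phi' * x` has `nP y = 1`, `nQ y = 0` (`nn_mul`; `nP phi' = 2`, `nQ phi' = -1`), `x = ph * y`.
* `enum23`: apply `enum11` to `phi' * x`. `no22`, `no46`: `phi' * x` (`phi' * phi' * x`) has
  `nP = 2`, `nQ = 0`, `no_two` (again 625 cases: `q ≤ 8`, `|x_i| ≤ 2`).
* `enum34`: the reduction satisfies `(red x)² = nP x + 3 nQ x = 0` in `ZMod 5` (apply `red` to `mul_star`,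
  `red ph = 3`, `red_star`), so `pp ∣ x` (`dvd_iff_red`), `x = pp * y`, and `y` is as in `enum23`.
-/

set_option autoImplicit false

namespace H84.AR

open O5

private theorem nn_sum (x : O5) : 2 * (2 * nP x + nQ x) = x.a ^ 2 + x.b ^ 2 + x.c ^ 2 + x.d ^ 2 +
    ((x.a - x.b) ^ 2 + (x.a - x.c) ^ 2 + (x.a - x.d) ^ 2 + (x.b - x.c) ^ 2 + (x.b - x.d) ^ 2 +
      (x.c - x.d) ^ 2) := by
  simp only [nP, nQ]
  ring

private theorem nn_bd (x : O5) (h : 2 * nP x + nQ x ≤ 4) : (-2 ≤ x.a ∧ x.a ≤ 2) ∧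
    (-2 ≤ x.b ∧ x.b ≤ 2) ∧ (-2 ≤ x.c ∧ x.c ≤ 2) ∧ (-2 ≤ x.d ∧ x.d ≤ 2) := by
  have h1 := nn_sum x
  have ha := sq_nonneg x.a
  have hb := sq_nonneg x.b
  have hc := sq_nonneg x.c
  have hd := sq_nonneg x.d
  have h2 := sq_nonneg (x.a - x.b)
  have h3 := sq_nonneg (x.a - x.c)
  have h4 := sq_nonneg (x.a - x.d)
  have h5 := sq_nonneg (x.b - x.c)
  have h6 := sq_nonneg (x.b - x.d)
  have h7 := sq_nonneg (x.c - x.d)
  have key : ∀ t : ℤ, t ^ 2 ≤ 8 → -2 ≤ t ∧ t ≤ 2 := by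
    intro t ht
    constructor <;> nlinarith
  exact ⟨key _ (by linarith), key _ (by linarith), key _ (by linarith), key _ (by linarith)⟩

theorem nn_zero (x : O5) (h : 2 * nP x + nQ x = 0) : x = 0 := by
  have h1 := nn_sum x
  have ha := sq_nonneg x.a
  have hb := sq_nonneg x.b
  have hc := sq_nonneg x.c
  have hd := sq_nonneg x.d
  have h2 := sq_nonneg (x.a - x.b)
  have h3 := sq_nonneg (x.a - x.c)
  have h4 := sq_nonneg (x.a - x.d)
  have h5 := sq_nonneg (x.b - x.c)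
  have h6 := sq_nonneg (x.b - x.d)
  have h7 := sq_nonneg (x.c - x.d)
  rw [h] at h1
  have ha' : x.a = 0 := pow_eq_zero_iff (two_ne_zero) |>.1 (by linarith)
  have hb' : x.b = 0 := pow_eq_zero_iff (two_ne_zero) |>.1 (by linarith)
  have hc' : x.c = 0 := pow_eq_zero_iff (two_ne_zero) |>.1 (by linarith)
  have hd' : x.d = 0 := pow_eq_zero_iff (two_ne_zero) |>.1 (by linarith)
  ext
  · exact ha'
  · exact hb'
  · exact hc'
  · exact hd'

private theorem chk_unit : ∀ a ∈ Finset.Icc (-2 : ℤ) 2, ∀ b ∈ Finset.Icc (-2 : ℤ) 2,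
    ∀ c ∈ Finset.Icc (-2 : ℤ) 2, ∀ d ∈ Finset.Icc (-2 : ℤ) 2,
    (nP ⟨a, b, c, d⟩ = 1 → nQ ⟨a, b, c, d⟩ = 0 → ∃ k < 10, (⟨a, b, c, d⟩ : O5) = mu k) ∧
    (nP ⟨a, b, c, d⟩ = 2 → nQ ⟨a, b, c, d⟩ ≠ 0) := by
  decide +kernel

private theorem mem_chk (x : O5) (h : 2 * nP x + nQ x ≤ 4) :
    (nP x = 1 → nQ x = 0 → ∃ k < 10, x = mu k) ∧ (nP x = 2 → nQ x ≠ 0) := by
  obtain ⟨ha, hb, hc, hd⟩ := nn_bd x h
  exact chk_unit x.a (Finset.mem_Icc.2 ha) x.b (Finset.mem_Icc.2 hb) x.c (Finset.mem_Icc.2 hc)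
    x.d (Finset.mem_Icc.2 hd)

theorem unit_enum (x : O5) (h1 : nP x = 1) (h2 : nQ x = 0) : ∃ k < 10, x = mu k :=
  (mem_chk x (by rw [h1, h2]; norm_num)).1 h1 h2

private theorem ph_phi : ph * phi' = 1 := by decide

private theorem nn_phi (x : O5) : nP (phi' * x) = 2 * nP x - nQ x ∧
    nQ (phi' * x) = nQ x - nP x := by
  obtain ⟨h1, h2⟩ := nn_mul phi' x
  have h3 : nP phi' = 2 := by decide
  have h4 : nQ phi' = -1 := by decide
  rw [h1, h2, h3, h4]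
  constructor <;> ring

private theorem of_phi (x y : O5) (h : phi' * x = y) : x = ph * y := by
  rw [← h, ← mul_assoc, ph_phi, one_mul]

theorem enum11 (x : O5) (h1 : nP x = 1) (h2 : nQ x = 1) : ∃ k < 10, x = ph * mu k := by
  obtain ⟨h3, h4⟩ := nn_phi x
  obtain ⟨k, hk, h⟩ := unit_enum (phi' * x) (by rw [h3, h1, h2]; norm_num)
    (by rw [h4, h1, h2]; norm_num)
  exact ⟨k, hk, of_phi x _ h⟩

theorem enum23 (x : O5) (h1 : nP x = 2) (h2 : nQ x = 3) : ∃ k < 10, x = ph * ph * mu k := by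
  obtain ⟨h3, h4⟩ := nn_phi x
  obtain ⟨k, hk, h⟩ := enum11 (phi' * x) (by rw [h3, h1, h2]; norm_num)
    (by rw [h4, h1, h2]; norm_num)
  exact ⟨k, hk, by rw [mul_assoc]; exact of_phi x _ h⟩

theorem no_two (x : O5) (h1 : nP x = 2) : nQ x ≠ 0 := by
  intro h2
  exact (mem_chk x (by rw [h1, h2]; norm_num)).2 h1 h2

theorem no22 (x : O5) (h1 : nP x = 2) : nQ x ≠ 2 := by
  intro h2
  obtain ⟨h3, h4⟩ := nn_phi x
  exact no_two (phi' * x) (by rw [h3, h1, h2]; norm_num) (by rw [h4, h1, h2]; norm_num)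

theorem no46 (x : O5) (h1 : nP x = 4) : nQ x ≠ 6 := by
  intro h2
  obtain ⟨h3, h4⟩ := nn_phi x
  exact no22 (phi' * x) (by rw [h3, h1, h2]; norm_num) (by rw [h4, h1, h2]; norm_num)

theorem enum34 (x : O5) (h1 : nP x = 3) (h2 : nQ x = 4) : ∃ k < 10, x = pp * ph * ph * mu k := by
  have h3 := congrArg red (mul_star x)
  have h4 : red ph = 3 := by decide
  rw [map_mul, red_star, map_add, map_mul, map_intCast, map_intCast, h4, h1, h2] at h3
  have h5 : red x * red x = 0 := by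
    rw [h3]
    decide
  have h6 : red x = 0 := by
    have h7 : ∀ t : ZMod 5, t * t = 0 → t = 0 := by decide
    exact h7 _ h5
  obtain ⟨y, hy⟩ := (dvd_iff_red x).2 h6
  obtain ⟨h8, h9⟩ := nn_mul pp y
  have h10 : nP pp = 3 := by decide
  have h11 : nQ pp = -1 := by decide
  rw [← hy, h10, h11] at h8 h9
  rw [h1] at h8
  rw [h2] at h9
  obtain ⟨k, hk, h⟩ := enum23 y (by linarith) (by linarith)
  exact ⟨k, hk, by rw [hy, h]; ring⟩

end H84.AR
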