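import Pool.Agent.H84.AR.Star
import Pool.Agent.H84.AR.NumE
import Pool.Agent.H84.AR.Mod2

/-!
# Disc: discreteness

`finO`: `2 (normSq (e1 x) + normSq (e2 x)) = 2 (2 nP x + nQ x)` (`φ + ψ = 1`) bounds `Σ x_i²` (see `NumE`), so
the coordinates are bounded integers.
`disc`: let `nsq y ≤ r`, `z = fl (rho g) y`, `nsq z ≤ r`. `star_id`: `(1 - r) normSq (M₂₂ - w) ≤ 1` with
`normSq w ≤ nsq z (α - 1) ≤ r α` (`α = normSq M₂₂`; Cauchy-Schwarz, `col_id`), so
`√α (1 - √r) ≤ 1 / √(1 - r)`: `α` is bounded by a constant depending on `r`. Then all entries are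
bounded: the rows and columns of a matrix in `U(2,1)` (`UM M` implies `M J Mᴴ = J`, `UM.exists_inv`)
satisfy `|M₂₀|² + |M₂₁|² = α - 1`, `|M₀ⱼ|² + |M₁ⱼ|² = |M₂ⱼ|² + 1` for `j ≠ 2`. So all `e1 (mat g i j)` are
bounded (`rho_apply`), all `e2 (mat g i j)` are bounded (`e2_bd`), `finO` and `mat_inj` give
finiteness (a function into a finite set of matrices: `Set.Finite.pi` or `Set.Finite.of_finite_image`).
If `r < 0` the set is empty (`nsq` is nonnegative).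
-/

set_option autoImplicit false

namespace H84.AR

open O5 Complex Pool.Agent.H89.SG

private theorem d_sum (x : O5) : 2 * (2 * nP x + nQ x) = x.a ^ 2 + x.b ^ 2 + x.c ^ 2 + x.d ^ 2 +
    ((x.a - x.b) ^ 2 + (x.a - x.c) ^ 2 + (x.a - x.d) ^ 2 + (x.b - x.c) ^ 2 + (x.b - x.d) ^ 2 +
      (x.c - x.d) ^ 2) := by
  simp only [nP, nQ]
  ring

private theorem d_int {t : ℤ} {A : ℝ} {n : ℕ} (hn : 4 * A ≤ n) (h : ((t ^ 2 : ℤ) : ℝ) ≤ 4 * A) :
    t ∈ Set.Icc (-(n : ℤ)) n := by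
  have h1 : ((t ^ 2 : ℤ) : ℝ) ≤ ((n : ℤ) : ℝ) := by
    push_cast at h ⊢
    linarith
  have h2 : t ^ 2 ≤ (n : ℤ) := by exact_mod_cast h1
  constructor
  · nlinarith
  · nlinarith

theorem finO (A : ℝ) : {x : O5 | normSq (e1 x) ≤ A ∧ normSq (e2 x) ≤ A}.Finite := by
  obtain ⟨n, hn⟩ := exists_nat_ge (4 * A)
  have hfin : (Set.Icc (-(n : ℤ)) n ×ˢ (Set.Icc (-(n : ℤ)) n ×ˢ
      (Set.Icc (-(n : ℤ)) n ×ˢ Set.Icc (-(n : ℤ)) n))).Finite :=
    (Set.finite_Icc _ _).prod ((Set.finite_Icc _ _).prod ((Set.finite_Icc _ _).prod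
      (Set.finite_Icc _ _)))
  refine (hfin.image fun v : ℤ × ℤ × ℤ × ℤ => (⟨v.1, v.2.1, v.2.2.1, v.2.2.2⟩ : O5)).subset ?_
  rintro x ⟨h1, h2⟩
  rw [normSq_e1] at h1
  rw [normSq_e2] at h2
  have h3 := Real.goldenRatio_add_goldenConj
  have h4 : (2 * (2 * nP x + nQ x) : ℝ) ≤ 4 * A := by
    have e : (nQ x : ℝ) * Real.goldenRatio + nQ x * Real.goldenConj = nQ x := by
      rw [← mul_add, h3, mul_one]
    linarith
  have h5 : ((2 * (2 * nP x + nQ x) : ℤ) : ℝ) ≤ 4 * A := by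
    push_cast
    exact h4
  rw [d_sum] at h5
  have key : ∀ t : ℤ, t ^ 2 ≤ x.a ^ 2 + x.b ^ 2 + x.c ^ 2 + x.d ^ 2 +
      ((x.a - x.b) ^ 2 + (x.a - x.c) ^ 2 + (x.a - x.d) ^ 2 + (x.b - x.c) ^ 2 + (x.b - x.d) ^ 2 +
        (x.c - x.d) ^ 2) → t ∈ Set.Icc (-(n : ℤ)) n := by
    intro t ht
    refine d_int hn (le_trans ?_ h5)
    exact_mod_cast ht
  have ha := sq_nonneg x.a
  have hb := sq_nonneg x.b
  have hc := sq_nonneg x.c
  have hd := sq_nonneg x.d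
  have g2 := sq_nonneg (x.a - x.b)
  have g3 := sq_nonneg (x.a - x.c)
  have g4 := sq_nonneg (x.a - x.d)
  have g5 := sq_nonneg (x.b - x.c)
  have g6 := sq_nonneg (x.b - x.d)
  have g7 := sq_nonneg (x.c - x.d)
  exact ⟨(x.a, x.b, x.c, x.d), ⟨key _ (by linarith), key _ (by linarith), key _ (by linarith),
    key _ (by linarith)⟩, rfl⟩

private theorem nsq_nn (z : E) : 0 ≤ nsq z := add_nonneg (normSq_nonneg _) (normSq_nonneg _)

/-- Cauchy-Schwarz for two summands -/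
private theorem d_cs (a b c d : ℂ) : ‖a * c + b * d‖ ^ 2 ≤
    (normSq a + normSq b) * (normSq c + normSq d) := by
  have h1 : ‖a * c + b * d‖ ≤ ‖a‖ * ‖c‖ + ‖b‖ * ‖d‖ := by
    refine (norm_add_le _ _).trans ?_
    rw [norm_mul, norm_mul]
  have h2 : 0 ≤ ‖a * c + b * d‖ := norm_nonneg _
  simp only [normSq_eq_norm_sq]
  have h3 : ‖a * c + b * d‖ ^ 2 ≤ (‖a‖ * ‖c‖ + ‖b‖ * ‖d‖) ^ 2 := pow_le_pow_left₀ h2 h1 2
  nlinarith [sq_nonneg (‖a‖ * ‖d‖ - ‖b‖ * ‖c‖)]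

theorem alpha_fin (r : ℝ) (hr : r < 1) : ∃ A : ℝ, ∀ g : Gam, ∀ y : E, nsq y ≤ r →
    nsq (fl (rho g) y) ≤ r → normSq (rho g 2 2) ≤ A := by
  refine ⟨1 / ((1 - r) * (1 - √r) ^ 2), fun g y hy hz => ?_⟩
  have hr0 : 0 ≤ r := (nsq_nn y).trans hy
  have hM := rho_UM g
  have hyb : y ∈ ball := lt_of_le_of_lt hy hr
  have h1 := star_id hM hyb
  have h2 := col_id hM
  obtain ⟨s, hs⟩ : ∃ s : ℝ, s = √r := ⟨_, rfl⟩
  have hs0 : 0 ≤ s := by rw [hs]; exact Real.sqrt_nonneg r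
  have hss : s ^ 2 = r := by rw [hs]; exact Real.sq_sqrt hr0
  have hs1 : s < 1 := by nlinarith
  rw [← hs]
  obtain ⟨a, ha⟩ : ∃ a : ℝ, a = ‖rho g 2 2‖ := ⟨_, rfl⟩
  have ha0 : 0 ≤ a := by rw [ha]; exact norm_nonneg _
  have haa : normSq (rho g 2 2) = a ^ 2 := by rw [ha, normSq_eq_norm_sq]
  obtain ⟨w, hw⟩ : ∃ w : ℂ, w = (starRingEnd ℂ) (fl (rho g) y).1 * rho g 0 2 +
    (starRingEnd ℂ) (fl (rho g) y).2 * rho g 1 2 := ⟨_, rfl⟩
  have hw1 : ‖w‖ ^ 2 ≤ nsq (fl (rho g) y) * (normSq (rho g 0 2) + normSq (rho g 1 2)) := by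
    have h3 := d_cs ((starRingEnd ℂ) (fl (rho g) y).1) ((starRingEnd ℂ) (fl (rho g) y).2)
      (rho g 0 2) (rho g 1 2)
    rw [normSq_conj, normSq_conj] at h3
    rw [hw]
    exact h3
  rw [h2, haa] at hw1
  have ha1 : 0 ≤ a ^ 2 - 1 := by
    rw [← haa, ← h2]
    exact add_nonneg (normSq_nonneg _) (normSq_nonneg _)
  have hw2 : ‖w‖ ^ 2 ≤ (s * a) ^ 2 := by
    refine hw1.trans ?_
    rw [mul_pow, hss]
    have h4 : nsq (fl (rho g) y) * (a ^ 2 - 1) ≤ r * (a ^ 2 - 1) :=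
      mul_le_mul_of_nonneg_right hz ha1
    nlinarith
  have hw3 : ‖w‖ ≤ s * a := by
    by_contra hc
    push Not at hc
    have h5 : 0 ≤ s * a := mul_nonneg hs0 ha0
    nlinarith [norm_nonneg w]
  have h6 : a - s * a ≤ ‖rho g 2 2 - w‖ := by
    have h7 := norm_sub_norm_le (rho g 2 2) w
    rw [← ha] at h7
    linarith
  have h8 : rho g 2 2 - (starRingEnd ℂ) (fl (rho g) y).1 * rho g 0 2 -
      (starRingEnd ℂ) (fl (rho g) y).2 * rho g 1 2 = rho g 2 2 - w := by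
    rw [hw]
    ring
  rw [h8, normSq_eq_norm_sq] at h1
  have h9 : 0 ≤ a - s * a := by nlinarith
  have h10 : (a - s * a) ^ 2 ≤ ‖rho g 2 2 - w‖ ^ 2 := pow_le_pow_left₀ h9 h6 2
  have h11 : 0 < (1 - r) * (1 - s) ^ 2 := mul_pos (by linarith) (pow_pos (by linarith) 2)
  rw [haa, le_div_iff₀ h11]
  have h12 : (1 - r) * (a - s * a) ^ 2 ≤ 1 := by
    have h13 : (1 - r) * (a - s * a) ^ 2 ≤ (1 - nsq y) * ‖rho g 2 2 - w‖ ^ 2 :=
      mul_le_mul (by linarith) h10 (sq_nonneg _) (by linarith)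
    have h14 := nsq_nn (fl (rho g) y)
    linarith
  calc a ^ 2 * ((1 - r) * (1 - s) ^ 2) = (1 - r) * (a - s * a) ^ 2 := by ring
    _ ≤ 1 := h12

private theorem UM_ct {M : Matrix (Fin 3) (Fin 3) ℂ} (hM : UM M) : UM M.conjTranspose := by
  have h1 : (Jm * M.conjTranspose * Jm) * M = 1 := by
    calc (Jm * M.conjTranspose * Jm) * M = Jm * (M.conjTranspose * Jm * M) := by
          simp only [Matrix.mul_assoc]
      _ = 1 := by
          unfold UM at hM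
          rw [hM, a1Jm_mul]
  have h2 : M * (Jm * M.conjTranspose * Jm) = 1 := mul_eq_one_comm.mp h1
  unfold UM
  rw [Matrix.conjTranspose_conjTranspose]
  calc M * Jm * M.conjTranspose = M * Jm * M.conjTranspose * (Jm * Jm) := by
        rw [a1Jm_mul, Matrix.mul_one]
    _ = (M * (Jm * M.conjTranspose * Jm)) * Jm := by simp only [Matrix.mul_assoc]
    _ = Jm := by rw [h2, Matrix.one_mul]

/-- the norms of a column -/
private theorem d_col {M : Matrix (Fin 3) (Fin 3) ℂ} (hM : UM M) (j : Fin 3) :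
    normSq (M 0 j) + normSq (M 1 j) - normSq (M 2 j) = if j = 2 then -1 else 1 := by
  have h := hM.a1scal j j
  rw [← normSq_eq_conj_mul_self, ← normSq_eq_conj_mul_self, ← normSq_eq_conj_mul_self] at h
  have h2 : Jm j j = ((if j = 2 then (-1 : ℝ) else 1 : ℝ) : ℂ) := by
    fin_cases j <;> simp [Jm, Matrix.diagonal]
  rw [h2] at h
  exact_mod_cast h

private theorem d_ent {M : Matrix (Fin 3) (Fin 3) ℂ} (hM : UM M) {A : ℝ}
    (h : normSq (M 2 2) ≤ A) (i j : Fin 3) : normSq (M i j) ≤ A + 1 := by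
  -- the last row
  have hrow : ∀ j, normSq (M 2 j) ≤ A := by
    intro j
    have h1 := d_col (UM_ct hM) 2
    simp only [Matrix.conjTranspose_apply, if_true] at h1
    have e : ∀ x : ℂ, normSq (star x) = normSq x := normSq_conj
    rw [e, e, e] at h1
    have h2 := normSq_nonneg (M 2 0)
    have h3 := normSq_nonneg (M 2 1)
    fin_cases j
    · show normSq (M 2 0) ≤ A
      linarith
    · show normSq (M 2 1) ≤ A
      linarith
    · exact h
  have h4 := d_col hM j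
  have h5 := hrow j
  have h6 := normSq_nonneg (M 0 j)
  have h7 := normSq_nonneg (M 1 j)
  have h8 : (if j = 2 then (-1 : ℝ) else 1) ≤ 1 := by split_ifs <;> norm_num
  fin_cases i
  · show normSq (M 0 j) ≤ A + 1
    linarith
  · show normSq (M 1 j) ≤ A + 1
    linarith
  · show normSq (M 2 j) ≤ A + 1
    linarith

private theorem dv_nn (i : Fin 3) : 1 ≤ normSq (dv i) ∧ normSq (dv i) ≤ Real.goldenRatio := by
  have h1 : 1 < Real.goldenRatio := Real.one_lt_goldenRatio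
  unfold dv
  split_ifs
  · rw [normSq_ofReal, sq_sq]
    exact ⟨h1.le, le_rfl⟩
  · rw [map_one]
    exact ⟨le_rfl, h1.le⟩

theorem entries_bd (A : ℝ) : ∃ B : ℝ, ∀ g : Gam, normSq (rho g 2 2) ≤ A →
    ∀ i j, normSq (e1 (mat g i j)) ≤ B := by
  refine ⟨(A + 1) * Real.goldenRatio, fun g h i j => ?_⟩
  have h1 := d_ent (rho_UM g) h i j
  have h2 : normSq (rho g i j) * normSq (dv j) = normSq (dv i) * normSq (e1 (mat g i j)) := by
    rw [← map_mul, ← map_mul, rho_apply, inv_mul_cancel_right₀ (dv_ne j)]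
  have h3 := dv_nn i
  have h4 := dv_nn j
  have h5 := normSq_nonneg (rho g i j)
  have h6 := normSq_nonneg (e1 (mat g i j))
  calc normSq (e1 (mat g i j)) ≤ normSq (dv i) * normSq (e1 (mat g i j)) := by
        nlinarith [h3.1]
    _ = normSq (rho g i j) * normSq (dv j) := h2.symm
    _ ≤ (A + 1) * Real.goldenRatio := mul_le_mul h1 h4.2 (by linarith [h4.1]) (by linarith)

theorem disc (r : ℝ) (hr : r < 1) :
    {g : Gam | ∃ z, nsq z ≤ r ∧ nsq (fl (rho g) z) ≤ r}.Finite := by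
  obtain ⟨A, hA⟩ := alpha_fin r hr
  obtain ⟨B, hB⟩ := entries_bd A
  have hF := finO (max B 2)
  have hP : (Set.pi Set.univ fun _ : Fin 3 => Set.pi Set.univ fun _ : Fin 3 =>
      {x : O5 | normSq (e1 x) ≤ max B 2 ∧ normSq (e2 x) ≤ max B 2}).Finite :=
    Set.Finite.pi fun _ => Set.Finite.pi fun _ => hF
  refine Set.Finite.of_finite_image (f := fun g : Gam => (mat g : Fin 3 → Fin 3 → O5))
    (hP.subset ?_) ?_
  · rintro _ ⟨g, ⟨z, h1, h2⟩, rfl⟩
    refine Set.mem_univ_pi.2 fun i => Set.mem_univ_pi.2 fun j => ?_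
    exact ⟨(hB g (hA g z h1 h2) i j).trans (le_max_left _ _),
      (e2_bd g i j).trans (le_max_right _ _)⟩
  · intro g _ h _ e
    exact mat_inj e

end H84.AR
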