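import Pool.Agent.H84.AR.O5

/-!
# Num: norms, roots of unity, divisibility by `π`

* `nn_mul`: `ring` after unfolding (or multiply `mul_star x` and `mul_star y`, `ph * ph = ph + 1`).
* `dvd_iff_red`: if `a + b + c + d = 5 n` then `x = pp * y` with an explicit `y`
  (`(1 - ζ)⁻¹ = (4 + 3 ζ + 2 ζ² + ζ³) / 5`); conversely `red pp = 0`.
* `mu_add`: reduce both exponents modulo 10 (`mu_mod`), 100 cases, `decide`.
-/

set_option autoImplicit false

namespace H84.AR

open O5

theorem nn_mul (x y : O5) : nP (x * y) = nP x * nP y + nQ x * nQ y ∧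
    nQ (x * y) = nP x * nQ y + nQ x * nP y + nQ x * nQ y := by
  simp only [mul_def, nP, nQ]
  constructor <;> ring

theorem dvd_iff_red (x : O5) : pp ∣ x ↔ red x = 0 := by
  constructor
  · rintro ⟨y, rfl⟩
    rw [map_mul]
    have h : red pp = 0 := by decide
    rw [h, zero_mul]
  · intro h
    have h1 : ((x.a + x.b + x.c + x.d : ℤ) : ZMod 5) = 0 := h
    obtain ⟨n, hn⟩ := (ZMod.intCast_zmod_eq_zero_iff_dvd (x.a + x.b + x.c + x.d) 5).1 h1
    refine ⟨⟨x.a - n, x.a + x.b - 2 * n, x.a + x.b + x.c - 3 * n, n⟩, ?_⟩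
    push_cast at hn
    simp only [pp, mul_def]
    ext <;> simp only <;> linarith

theorem red_star (x : O5) : red (star x) = red x := by
  show ((x.a - x.b + -x.b + (x.d - x.b) + (x.c - x.b) : ℤ) : ZMod 5) =
    ((x.a + x.b + x.c + x.d : ℤ) : ZMod 5)
  push_cast
  have h5 : (5 : ZMod 5) = 0 := rfl
  linear_combination (-(x.b : ZMod 5)) * h5

theorem mu_mod (a : ℕ) : mu (a % 10) = mu a := by
  unfold mu
  rw [Nat.mod_mod]

/-- powers of roots of unity -/
theorem mu_add (a b : ℕ) : mu a * mu b = mu (a + b) := by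
  have h : ∀ i < 10, ∀ j < 10, mu i * mu j = mu ((i + j) % 10) := by decide
  rw [← mu_mod a, ← mu_mod b, ← mu_mod (a + b), Nat.add_mod]
  exact h _ (Nat.mod_lt _ (by norm_num)) _ (Nat.mod_lt _ (by norm_num))

theorem star_mu (a : ℕ) : star (mu a) * mu a = 1 := by
  have h : ∀ i < 10, star (mu i) * mu i = 1 := by decide
  rw [← mu_mod a]
  exact h _ (Nat.mod_lt _ (by norm_num))

theorem nn_mu (a : ℕ) : nP (mu a) = 1 ∧ nQ (mu a) = 0 := by
  have h : ∀ i < 10, nP (mu i) = 1 ∧ nQ (mu i) = 0 := by decide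
  rw [← mu_mod a]
  exact h _ (Nat.mod_lt _ (by norm_num))

theorem nn_mu_mul (a : ℕ) (x : O5) : nP (mu a * x) = nP x ∧ nQ (mu a * x) = nQ x := by
  obtain ⟨h1, h2⟩ := nn_mul (mu a) x
  obtain ⟨h3, h4⟩ := nn_mu a
  rw [h1, h2, h3, h4]
  constructor <;> ring

end H84.AR
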