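import Pool.Agent.H84.AR.Adj
import Pool.Agent.H84.AR.Tab
import Pool.Agent.H84.AR.Num

/-!
# Elt: the group elements and their affine maps

`Pt = Fin 15 × O5`, `P = Gam × Perm Pt`. The generators: `pU` (the scalar `ρ`, identity map), `pX`, `pY`
(`diag (ρ, 1, 1)`, `diag (1, ρ, 1)`), `pW` (swap), `pS l`.
`qof A B h h'`: the permutation given by mutually inverse affine maps; the inverses are
`aK 180 = D1^9`, `aK 18 = D2^9`, `aK 1`, and for `s1, s2, s3` the products found by computer
(`s1⁻¹ = k s1 k`, `k = 100`; `s2⁻¹ = k s2 k`, `k = 110`; `s3⁻¹ = ρ^9 k s3 k'`, `k = 92`, `k' = 111`).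
The proofs are `Af.act_of_eqb` applied to a computation (`decide +kernel`).
-/

set_option autoImplicit false

namespace H84.AR

open O5

/-- the points -/
abbrev Pt : Type := Fin 15 × O5

theorem Af.act_comp (A B : Af) (x : Pt) : (Af.comp A B).act x = A.act (B.act x) := by
  unfold Af.comp Af.act
  simp only [Prod.mk.injEq, true_and]
  rw [mu_mod, ← mu_add]
  ring

theorem Af.act_of_eqb {A B : Af} (h : Af.eqb A B = true) (x : Pt) : A.act x = B.act x := by
  unfold Af.eqb at h
  rw [List.all_eq_true] at h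
  have h1 := h x.1 (List.mem_finRange _)
  simp only [Bool.and_eq_true, beq_iff_eq, decide_eq_true_eq] at h1
  obtain ⟨⟨h2, h3⟩, h4⟩ := h1
  unfold Af.act
  rw [h2, h4, ← mu_mod (A.e x.1), h3, mu_mod]

/-- the identity table -/
theorem act_one (x : Pt) : (aS 0).act x = x := by
  obtain ⟨j, y⟩ := x
  have h : ∀ j : Fin 15, (aS 0).p j = j ∧ (aS 0).e j = 0 ∧ (aS 0).t j = 0 := by decide +kernel
  unfold Af.act
  rw [(h j).1, (h j).2.1, (h j).2.2]
  show (j, mu 0 * y + 0) = (j, y)
  rw [add_zero, show mu 0 = 1 from rfl, one_mul]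

/-- the permutation of a pair of inverse affine maps -/
def qof (A B : Af) (h : Af.eqb (Af.comp A B) (aS 0) = true)
    (h' : Af.eqb (Af.comp B A) (aS 0) = true) : Equiv.Perm Pt where
  toFun := A.act
  invFun := B.act
  left_inv x := by rw [← Af.act_comp, Af.act_of_eqb h', act_one]
  right_inv x := by rw [← Af.act_comp, Af.act_of_eqb h, act_one]

theorem qof_apply (A B : Af) (h h') (x : Pt) : qof A B h h' x = A.act x := rfl

def qX : Equiv.Perm Pt := qof (aK 20) (aK 180) (by decide +kernel) (by decide +kernel)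
def qY : Equiv.Perm Pt := qof (aK 2) (aK 18) (by decide +kernel) (by decide +kernel)
def qW : Equiv.Perm Pt := qof (aK 1) (aK 1) (by decide +kernel) (by decide +kernel)

/-- the inverse tables -/
def aSi (l : ℕ) : Af :=
  match l with
  | 0 => aS 0
  | 1 => Af.comp (Af.comp (aK 100) (aS 1)) (aK 100)
  | 2 => Af.comp (Af.comp (aK 110) (aS 2)) (aK 110)
  | _ => Af.comp (Af.comp (aK 92) (aS 3)) (aK 111)

theorem aSi_ok : ∀ l < 4, Af.eqb (Af.comp (aS l) (aSi l)) (aS 0) = true ∧
    Af.eqb (Af.comp (aSi l) (aS l)) (aS 0) = true := by decide +kernel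

def qS (l : Fin 4) : Equiv.Perm Pt := qof (aS l) (aSi l) (aSi_ok l l.2).1 (aSi_ok l l.2).2

/-- the scalar `ρ` -/
def gU : Gam := mkG (uM 1) (uM_adj 1 (by norm_num))
def gX : Gam := mkG (kM 1 0 0) d1_adj
def gY : Gam := mkG (kM 0 1 0) d2_adj
def gW : Gam := mkG (kM 0 0 1) sw_adj
def gS (l : Fin 4) : Gam := mkG (sM l) (sM_adj l l.2)

abbrev P : Type := Gam × Equiv.Perm Pt

def pU : P := (gU, 1)
def pX : P := (gX, qX)
def pY : P := (gY, qY)
def pW : P := (gW, qW)
def pS (l : Fin 4) : P := (gS l, qS l)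

/-- the elements of `K0` times scalars -/
def nf (u a b s : ℕ) : P := pU ^ u * pX ^ a * pY ^ b * pW ^ s

/-- the pairs over the set `InS` -/
def RR : Set P := {r | ∃ (u a b s : ℕ) (l : Fin 4) (a' b' s' : ℕ),
  r = nf u a b s * pS l * nf 0 a' b' s'}

/-- the elements `g` such that (possibly) `D ∩ g D` is not empty -/
def InS (g : Gam) : Prop := ∃ r ∈ RR, r.1 = g

end H84.AR
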