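import Pool.Agent.H84.AR.Elt
import Pool.Agent.H84.AR.Blk

/-!
# Fch: the transversal and the check on generators
-/

set_option autoImplicit false

namespace H84.AR

open O5

/-- matrices of the generators `X, Y, W, S₁` -/
def gM (s : ℕ) : M3 :=
  match s with
  | 0 => kM 1 0 0
  | 1 => kM 0 1 0
  | 2 => kM 0 0 1
  | _ => sM 1

/-- the generators `X, Y, W, S₁` -/
def gG (s : ℕ) : Gam :=
  match s with
  | 0 => gX
  | 1 => gY
  | 2 => gW
  | _ => gS 1

/-- tables of the generators -/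
def gA (s : ℕ) : Af :=
  match s with
  | 0 => aK 20
  | 1 => aK 2
  | 2 => aK 1
  | _ => aS 1

theorem mat_gG (s : ℕ) : mat (gG s) = gM s := by
  unfold gG gM
  split <;> rfl

/-- words -/
def wM : List ℕ → M3
  | [] => 1
  | s :: w => gM s * wM w

/-- words -/
def wG : List ℕ → Gam
  | [] => 1
  | s :: w => gG s * wG w

/-- words -/
def wA : List ℕ → Af
  | [] => aS 0
  | s :: w => Af.comp (gA s) (wA w)

theorem mat_wG (w : List ℕ) : mat (wG w) = wM w := by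
  induction w with
  | nil => rfl
  | cons s w ih =>
    show mat (gG s * wG w) = gM s * wM w
    rw [mat_mul, mat_gG, ih]

/-- a transversal: `C (wG (tr j))` maps the line `0` to the line `j` -/
def tr (j : Fin 15) : List ℕ :=
  match (j : ℕ) with
  | 0 => []
  | 1 => [2, 3]
  | 2 => [2, 0, 3]
  | 3 => [3]
  | 4 => [0, 3]
  | 5 => [3, 2, 0, 3, 2, 3]
  | 6 => [3, 2, 3]
  | 7 => [2, 3, 2, 0, 3]
  | 8 => [2, 0, 3, 2, 3]
  | 9 => [3, 3, 2, 3]
  | 10 => [3, 2, 0, 3]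
  | 11 => [2, 3, 3, 2, 3]
  | 12 => [2, 3, 2, 3]
  | 13 => [0, 3, 2, 3]
  | _ => [3, 2, 3, 2, 3]

/-- test for congruence modulo `π²` -/
def cg2 (z : O5) : Bool :=
  (z.a + z.b + z.c + z.d) % 5 == 0 && (z.b + 2 * z.c + 3 * z.d) % 5 == 0

theorem cg2_ok (x y : O5) (h : cg2 (x - y) = true) : C2 x y := by
  unfold cg2 at h
  rw [Bool.and_eq_true, beq_iff_eq, beq_iff_eq] at h
  exact (r2_iff _).2 ⟨Int.dvd_of_emod_eq_zero h.1, Int.dvd_of_emod_eq_zero h.2⟩

/-- the matrix `(tr i)⁻¹ s tr j` -/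
def etM (s : ℕ) (j : Fin 15) : M3 := adj (wM (tr ((gA s).p j))) * (gM s * wM (tr j))

/-- exponent -/
def etE (s : ℕ) (j : Fin 15) : ℕ :=
  (Af.comp (gA s) (wA (tr j))).e 0 + (10 - (wA (tr ((gA s).p j))).e 0 % 10)

/-- translation -/
def etT (s : ℕ) (j : Fin 15) : O5 :=
  mu (10 - (wA (tr ((gA s).p j))).e 0 % 10) *
    ((Af.comp (gA s) (wA (tr j))).t 0 - (wA (tr ((gA s).p j))).t 0)

/-- the test -/
def tst (s : ℕ) (j : Fin 15) : Bool :=
  decide (Blk (etM s j)) && cg2 (mu (etE s j) - FL (etM s j)) && cg2 (etT s j - FT (etM s j))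

theorem tr_p : ∀ j : Fin 15, (wA (tr j)).p 0 = j := by decide +kernel

theorem tst_ok : ∀ s < 4, ∀ j : Fin 15, tst s j = true := by decide +kernel

theorem tr_blk : ∀ j : Fin 15, Blk (adj (wM (tr j))) → j = 0 := by decide +kernel

end H84.AR
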