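import Pool.Agent.H84.AR.RelA

/-!
# RelB: `RR` is the graph of a partial homomorphism

Write `N` for the set of all `nf u a b s` (a subgroup: `nf_mul`, `nf_inv`; `pU` central).
* `RR_mul`: `r = κ₁ pS i κ₂`, `r' = κ₃ pS j κ₄`, `κ₂ κ₃ = pU^u nf 0 a b s` with `a, b < 10`, `s < 2`
  (`nf_mul`, `nf_red`, `nf_split`). `relA` for `pS i * nf 0 a b s * pS j`: if it is in `RR`, so is `r r'` (multiply by
  `κ₁`, `κ₄` and `pU^u`). If its first component is not in `InS` then `(r r').1` is not (`InS` is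
  invariant under multiplication by `N` from both sides).
* `RR_inv`: `(κ pS l κ')⁻¹ = κ'⁻¹ (pS l)⁻¹ κ⁻¹` and `(pS l)⁻¹ ∈ RR`: `s1⁻¹ = k s1 k`, `k = nf 0 5 0 0` (index
  `100`), `s2⁻¹ = k s2 k`, `k = nf 0 5 5 0` (index `110`), `s3⁻¹ = nf 9 4 6 0 * s3 * nf 0 5 5 1` (indices `92`,
  `111`); first components: matrix identities (`decide +kernel`), second: `aSi`.
* `RR_inj`: `r r'⁻¹ ∈ RR` by `RR_mul` (the first component is `1 ∈ InS`), so
  `r r'⁻¹ = κ pS l κ'` with first component `1`; the entry `(2, 2)` gives `l = 0` (`col_of_InS` is not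
  enough: `nP`, `nQ` of the entry `(2, 2)` of `κ pS l κ'` are those of `sM l`), `pS 0 = 1`, and `nf_one`.
-/

set_option autoImplicit false

namespace H84.AR

open O5

private theorem rb_mu0 : mu 0 = 1 := rfl

private theorem rb_nf0 : nf 0 0 0 0 = 1 := by
  unfold nf
  simp

private theorem rb_pS0 : pS 0 = 1 := by
  unfold pS
  refine Prod.ext ?_ ?_
  · apply mat_inj
    rfl
  · apply Equiv.ext
    intro x
    exact act_one x

private theorem rb_pU_pow (u : ℕ) : pU ^ u = nf u 0 0 0 := by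
  unfold nf
  simp

private theorem rb_comm (u : ℕ) (r : P) : pU ^ u * r = r * pU ^ u :=
  ((Commute.pow_left (show Commute pU r from pU_comm r) u)).eq

/-- products with elements of `K0` -/
private theorem rb_of (u a b s : ℕ) (l : Fin 4) (u' a' b' s' : ℕ) :
    nf u a b s * pS l * nf u' a' b' s' ∈ RR := by
  obtain ⟨u2, a2, b2, s2, h2⟩ := nf_mul u' 0 0 0 u a b s
  refine ⟨u2, a2, b2, s2, l, a', b', s', ?_⟩
  rw [← h2, ← rb_pU_pow, nf_split u', rb_comm u' (nf u a b s)]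
  calc nf u a b s * pS l * (pU ^ u' * nf 0 a' b' s')
      = nf u a b s * (pS l * pU ^ u') * nf 0 a' b' s' := by simp only [mul_assoc]
    _ = nf u a b s * (pU ^ u' * pS l) * nf 0 a' b' s' := by rw [rb_comm u' (pS l)]
    _ = nf u a b s * pU ^ u' * pS l * nf 0 a' b' s' := by simp only [mul_assoc]

private theorem rb_both {r : P} (h : r ∈ RR) (u a b s u' a' b' s' : ℕ) :
    nf u a b s * r * nf u' a' b' s' ∈ RR := by
  obtain ⟨v, c, d, t, l, c', d', t', rfl⟩ := h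
  obtain ⟨u2, a2, b2, s2, h2⟩ := nf_mul u a b s v c d t
  obtain ⟨u3, a3, b3, s3, h3⟩ := nf_mul 0 c' d' t' u' a' b' s'
  have h4 := rb_of u2 a2 b2 s2 l u3 a3 b3 s3
  rw [← h2, ← h3] at h4
  have h5 : nf u a b s * (nf v c d t * pS l * nf 0 c' d' t') * nf u' a' b' s' =
      nf u a b s * nf v c d t * pS l * (nf 0 c' d' t' * nf u' a' b' s') := by
    simp only [mul_assoc]
  rw [h5]
  exact h4

theorem RR_mul {r r' : P} (h : r ∈ RR) (h' : r' ∈ RR) (hi : InS (r.1 * r'.1)) : r * r' ∈ RR := by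
  obtain ⟨u, a, b, s, i, a', b', s', rfl⟩ := h
  obtain ⟨v, c, d, t, j, c', d', t', rfl⟩ := h'
  obtain ⟨u2, a2, b2, s2, h2⟩ := nf_mul 0 a' b' s' v c d t
  obtain ⟨u3, hu3, a3, ha3, b3, hb3, s3, hs3, h3⟩ := nf_red u2 a2 b2 s2
  obtain ⟨u4, a4, b4, s4, h4⟩ := nf_mul u a b s u3 0 0 0
  have key : nf u a b s * pS i * nf 0 a' b' s' * (nf v c d t * pS j * nf 0 c' d' t') =
      nf u4 a4 b4 s4 * (pS i * nf 0 a3 b3 s3 * pS j) * nf 0 c' d' t' := by
    calc nf u a b s * pS i * nf 0 a' b' s' * (nf v c d t * pS j * nf 0 c' d' t')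
        = nf u a b s * pS i * (nf 0 a' b' s' * nf v c d t) * pS j * nf 0 c' d' t' := by
          simp only [mul_assoc]
      _ = nf u a b s * pS i * (pU ^ u3 * nf 0 a3 b3 s3) * pS j * nf 0 c' d' t' := by
          rw [h2, h3, nf_split u3]
      _ = nf u a b s * (pS i * pU ^ u3) * nf 0 a3 b3 s3 * pS j * nf 0 c' d' t' := by
          simp only [mul_assoc]
      _ = nf u a b s * (pU ^ u3 * pS i) * nf 0 a3 b3 s3 * pS j * nf 0 c' d' t' := by
          rw [rb_comm u3 (pS i)]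
      _ = nf u a b s * pU ^ u3 * (pS i * nf 0 a3 b3 s3 * pS j) * nf 0 c' d' t' := by
          simp only [mul_assoc]
      _ = _ := by rw [rb_pU_pow, h4]
  rw [key]
  rcases relA i j a3 b3 s3 ha3 hb3 hs3 with h5 | h5
  · exact rb_both h5 _ _ _ _ _ _ _ _
  · exfalso
    apply h5
    obtain ⟨r0, hr0, hr1⟩ := hi
    obtain ⟨u5, a5, b5, s5, h6⟩ := nf_inv u4 a4 b4 s4
    obtain ⟨u6, a6, b6, s6, h7⟩ := nf_inv 0 c' d' t'
    refine ⟨_, rb_both hr0 u5 a5 b5 s5 u6 a6 b6 s6, ?_⟩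
    have h8 : r0.1 = (nf u4 a4 b4 s4).1 * (pS i * nf 0 a3 b3 s3 * pS j).1 *
        (nf 0 c' d' t').1 := by
      rw [hr1]
      exact congrArg Prod.fst key
    show (nf u5 a5 b5 s5).1 * r0.1 * (nf u6 a6 b6 s6).1 = _
    rw [h8, ← h6, ← h7]
    show (nf u4 a4 b4 s4).1⁻¹ * _ * (nf 0 c' d' t').1⁻¹ = _
    group

private theorem rb_mat_nf0 (a b s : ℕ) : mat (nf 0 a b s).1 = kM a b s := by
  rw [mat_nf, rb_mu0, one_smul]

private theorem rb_inv_aux (l : Fin 4) (u a b s a' b' s' : ℕ) (ha : a < 10) (hb : b < 10)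
    (hs : s < 2) (ha' : a' < 10) (hb' : b' < 10) (hs' : s' < 2)
    (hm : sM l * (mu u • kM a b s * sM l * kM a' b' s') = 1)
    (hc : aSi l = Af.comp (Af.comp (aK (20 * a + 2 * b + s)) (aS l))
      (aK (20 * a' + 2 * b' + s'))) :
    (pS l)⁻¹ ∈ RR := by
  have h1 : pS l * (nf u a b s * pS l * nf 0 a' b' s') = 1 := by
    refine Prod.ext ?_ ?_
    · apply mat_inj
      show mat ((pS l).1 * ((nf u a b s).1 * (pS l).1 * (nf 0 a' b' s').1)) = mat 1
      rw [mat_mul, mat_mul, mat_mul, mat_nf, rb_mat_nf0]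
      exact hm
    · apply Equiv.ext
      intro x
      show (qS l) ((nf u a b s).2 ((qS l) ((nf 0 a' b' s').2 x))) = x
      rw [act_nf u a b s ha hb hs, act_nf 0 a' b' s' ha' hb' hs']
      show (aS l).act ((aK _).act ((aS l).act ((aK _).act x))) = x
      have e : (aK (20 * a + 2 * b + s)).act ((aS l).act ((aK (20 * a' + 2 * b' + s')).act x)) =
          (Af.comp (Af.comp (aK (20 * a + 2 * b + s)) (aS l)) (aK (20 * a' + 2 * b' + s'))).act x := by
        rw [Af.act_comp, Af.act_comp]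
      rw [e, ← hc, ← Af.act_comp, Af.act_of_eqb (aSi_ok l l.2).1, act_one]
  rw [inv_eq_of_mul_eq_one_right h1]
  exact rb_of _ _ _ _ _ _ _ _ _

private theorem rb_pS_inv (l : Fin 4) : (pS l)⁻¹ ∈ RR := by
  fin_cases l
  · show (pS 0)⁻¹ ∈ RR
    rw [rb_pS0, inv_one]
    refine ⟨0, 0, 0, 0, 0, 0, 0, 0, ?_⟩
    rw [rb_pS0, rb_nf0, mul_one, mul_one]
  · exact rb_inv_aux 1 0 5 0 0 5 0 0 (by norm_num) (by norm_num) (by norm_num) (by norm_num)
      (by norm_num) (by norm_num) (by decide +kernel) rfl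
  · exact rb_inv_aux 2 0 5 5 0 5 5 0 (by norm_num) (by norm_num) (by norm_num) (by norm_num)
      (by norm_num) (by norm_num) (by decide +kernel) rfl
  · exact rb_inv_aux 3 9 4 6 0 5 5 1 (by norm_num) (by norm_num) (by norm_num) (by norm_num)
      (by norm_num) (by norm_num) (by decide +kernel) rfl

theorem RR_inv {r : P} (h : r ∈ RR) : r⁻¹ ∈ RR := by
  obtain ⟨u, a, b, s, l, a', b', s', rfl⟩ := h
  obtain ⟨u5, a5, b5, s5, h6⟩ := nf_inv u a b s
  obtain ⟨u6, a6, b6, s6, h7⟩ := nf_inv 0 a' b' s'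
  have h8 : (nf u a b s * pS l * nf 0 a' b' s')⁻¹ =
      nf u6 a6 b6 s6 * (pS l)⁻¹ * nf u5 a5 b5 s5 := by
    rw [← h6, ← h7]
    group
  rw [h8]
  exact rb_both (rb_pS_inv l) _ _ _ _ _ _ _ _

private theorem rb_one : (1 : P) ∈ RR := by
  refine ⟨0, 0, 0, 0, 0, 0, 0, 0, ?_⟩
  rw [rb_pS0, rb_nf0, mul_one, mul_one]

private theorem rb_kM_col (X : M3) (a b s : ℕ) (i : Fin 3) : (X * kM a b s) i 2 = X i 2 := by
  unfold kM
  split_ifs <;> simp [Matrix.mul_apply, Fin.sum_univ_three]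

private theorem rb_kM_row2 (X : M3) (a b s : ℕ) (j : Fin 3) : (kM a b s * X) 2 j = X 2 j := by
  unfold kM
  split_ifs <;> simp [Matrix.mul_apply, Fin.sum_univ_three]

theorem RR_inj {r r' : P} (h : r ∈ RR) (h' : r' ∈ RR) (e : r.1 = r'.1) : r = r' := by
  have h1 : r * r'⁻¹ ∈ RR := by
    apply RR_mul h (RR_inv h')
    refine ⟨1, rb_one, ?_⟩
    show (1 : Gam) = r.1 * r'.1⁻¹
    rw [e, mul_inv_cancel]
  have h2 : (r * r'⁻¹).1 = 1 := by
    show r.1 * r'.1⁻¹ = 1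
    rw [e, mul_inv_cancel]
  obtain ⟨u, a, b, s, l, a', b', s', h3⟩ := h1
  have h4 : l = 0 := by
    have h5 : mat (nf u a b s * pS l * nf 0 a' b' s').1 = 1 := by
      rw [← h3, h2]
      rfl
    have h6 : mat (nf u a b s * pS l * nf 0 a' b' s').1 =
        mu u • (kM a b s * sM l * kM a' b' s') := by
      show mat ((nf u a b s).1 * (pS l).1 * (nf 0 a' b' s').1) = _
      rw [mat_mul, mat_mul, mat_nf, rb_mat_nf0, Matrix.smul_mul, Matrix.smul_mul]
      rfl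
    have h7 : mu u * (sM l) 2 2 = 1 := by
      have h8 := congrFun (congrFun (h6.symm.trans h5) 2) 2
      rw [Matrix.smul_apply, rb_kM_col, rb_kM_row2] at h8
      exact h8
    obtain ⟨h8, h9⟩ := nn_mu_mul u ((sM l) 2 2)
    rw [h7] at h8 h9
    fin_cases l
    · rfl
    · exfalso
      revert h9
      decide
    · exfalso
      revert h9
      decide
    · exfalso
      revert h9
      decide
  rw [h4, rb_pS0, mul_one] at h3
  obtain ⟨u2, a2, b2, s2, h9⟩ := nf_mul u a b s 0 a' b' s'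
  rw [h9] at h3
  rw [h3] at h2
  have h10 := nf_one u2 a2 b2 s2 h2
  rw [h10] at h3
  exact mul_inv_eq_one.1 h3

theorem RR_one : (1 : P) ∈ RR := by
  exact rb_one

theorem RR_U : pU ∈ RR := by
  have h := rb_of 1 0 0 0 0 0 0 0 0
  have h1 : nf 1 0 0 0 * pS 0 * nf 0 0 0 0 = pU := by
    rw [rb_pS0, rb_nf0, mul_one, mul_one]
    simp [nf]
  rw [h1] at h
  exact h

theorem RR_X : pX ∈ RR := by
  have h := rb_of 0 1 0 0 0 0 0 0 0
  have h1 : nf 0 1 0 0 * pS 0 * nf 0 0 0 0 = pX := by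
    rw [rb_pS0, rb_nf0, mul_one, mul_one]
    simp [nf]
  rw [h1] at h
  exact h

theorem RR_Y : pY ∈ RR := by
  have h := rb_of 0 0 1 0 0 0 0 0 0
  have h1 : nf 0 0 1 0 * pS 0 * nf 0 0 0 0 = pY := by
    rw [rb_pS0, rb_nf0, mul_one, mul_one]
    simp [nf]
  rw [h1] at h
  exact h

theorem RR_W : pW ∈ RR := by
  have h := rb_of 0 0 0 1 0 0 0 0 0
  have h1 : nf 0 0 0 1 * pS 0 * nf 0 0 0 0 = pW := by
    rw [rb_pS0, rb_nf0, mul_one, mul_one]
    simp [nf]
  rw [h1] at h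
  exact h

theorem RR_S (l : Fin 4) : pS l ∈ RR := by
  have h := rb_of 0 0 0 0 l 0 0 0 0
  rw [rb_nf0, one_mul, mul_one] at h
  exact h

/-- `InS` is contained in the group generated by `U, X, Y, W, S₁` (`s2 = s1 k s1`, `k = nf 0 0 0 1`,
`s3 = s2 k s1`, `k = nf 0 0 4 1`: matrix identities) -/
theorem InS_gen {g : Gam} (h : InS g) :
    g ∈ Submonoid.closure ({gU, gX, gY, gW, gS 1} : Set Gam) := by
  obtain ⟨r, ⟨u, a, b, s, l, a', b', s', rfl⟩, rfl⟩ := h
  have hU : gU ∈ Submonoid.closure ({gU, gX, gY, gW, gS 1} : Set Gam) :=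
    Submonoid.subset_closure (by simp)
  have hX : gX ∈ Submonoid.closure ({gU, gX, gY, gW, gS 1} : Set Gam) :=
    Submonoid.subset_closure (by simp)
  have hY : gY ∈ Submonoid.closure ({gU, gX, gY, gW, gS 1} : Set Gam) :=
    Submonoid.subset_closure (by simp)
  have hW : gW ∈ Submonoid.closure ({gU, gX, gY, gW, gS 1} : Set Gam) :=
    Submonoid.subset_closure (by simp)
  have hS1 : gS 1 ∈ Submonoid.closure ({gU, gX, gY, gW, gS 1} : Set Gam) :=
    Submonoid.subset_closure (by simp)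
  have hN : ∀ u a b s, (nf u a b s).1 ∈ Submonoid.closure ({gU, gX, gY, gW, gS 1} : Set Gam) := by
    intro u a b s
    show gU ^ u * gX ^ a * gY ^ b * gW ^ s ∈ _
    exact mul_mem (mul_mem (mul_mem (pow_mem hU _) (pow_mem hX _)) (pow_mem hY _)) (pow_mem hW _)
  have hS2 : gS 2 = gS 1 * (nf 0 0 0 1).1 * gS 1 := by
    apply mat_inj
    rw [mat_mul, mat_mul, rb_mat_nf0]
    show sM 2 = sM 1 * kM 0 0 1 * sM 1
    decide +kernel
  have hS3 : gS 3 = gS 2 * (nf 0 0 4 1).1 * gS 1 := by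
    apply mat_inj
    rw [mat_mul, mat_mul, rb_mat_nf0]
    show sM 3 = sM 2 * kM 0 4 1 * sM 1
    decide +kernel
  have hS2' : gS 2 ∈ Submonoid.closure ({gU, gX, gY, gW, gS 1} : Set Gam) := by
    rw [hS2]
    exact mul_mem (mul_mem hS1 (hN _ _ _ _)) hS1
  have hS : ∀ l, gS l ∈ Submonoid.closure ({gU, gX, gY, gW, gS 1} : Set Gam) := by
    intro l
    fin_cases l
    · have h0 : gS 0 = 1 := congrArg Prod.fst rb_pS0
      show gS 0 ∈ _
      rw [h0]
      exact one_mem _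
    · exact hS1
    · exact hS2'
    · show gS 3 ∈ _
      rw [hS3]
      exact mul_mem (mul_mem hS2' (hN _ _ _ _)) hS1
  show (nf u a b s).1 * gS l * (nf 0 a' b' s').1 ∈ _
  exact mul_mem (mul_mem (hN _ _ _ _) (hS l)) (hN _ _ _ _)

end H84.AR
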