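import Pool.Agent.H84.AR.Elt

/-!
# NF: calculus of `nf`

In the group `P` the relations `pX pY = pY pX`, `pW pX = pY pW`, `pW pY = pX pW`, `pW² = 1`,
`pX^10 = pY^10 = pU^10 = 1` hold and `pU` is central. For the second components this is
`Equiv.ext`, `qof_apply`, `← Af.act_comp` and `Af.act_of_eqb` with `decide +kernel`
(for `X^10` use `aK (20 a)`: `qX ^ a = ` the map of `aK (20 a)` by induction, a finite check for
`a < 10`), for the first components matrix identities (`mat_inj`, `mat_mul`; `Matrix.ext` and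
`fin_cases`, or `decide +kernel`); `gU` is central because its matrix is scalar.
From these: `nf_mul` (move `pW` to the right, `pW` exchanges `pX` and `pY`), `nf_red` (reduce the
exponents), `nf_inv`.
`mat_nf`: the matrix of `nf u a b s` is `ρ^u • kM a b s`. `act_nf`: the map of `nf u a b s` for
`a, b < 10`, `s < 2` is `aK (20 a + 2 b + s)`.
-/

set_option autoImplicit false

namespace H84.AR

open O5

/-- powers of an affine map -/
private def pAf (A : Af) : ℕ → Af
  | 0 => aS 0
  | n + 1 => Af.comp (pAf A n) A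

private theorem pAf_act (A B : Af) (h h') (n : ℕ) (x : Pt) :
    ((qof A B h h') ^ n) x = (pAf A n).act x := by
  induction n generalizing x with
  | zero => exact (act_one x).symm
  | succ n ih =>
    rw [pow_succ, Equiv.Perm.mul_apply, ih, qof_apply, pAf, Af.act_comp]

private theorem qXY : qX * qY = qY * qX := by
  refine Equiv.ext fun x => ?_
  have h : Af.eqb (Af.comp (aK 20) (aK 2)) (Af.comp (aK 2) (aK 20)) = true := by decide +kernel
  have e := Af.act_of_eqb h x
  rw [Af.act_comp, Af.act_comp] at e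
  exact e

private theorem qWX : qW * qX = qY * qW := by
  refine Equiv.ext fun x => ?_
  have h : Af.eqb (Af.comp (aK 1) (aK 20)) (Af.comp (aK 2) (aK 1)) = true := by decide +kernel
  have e := Af.act_of_eqb h x
  rw [Af.act_comp, Af.act_comp] at e
  exact e

private theorem qWY : qW * qY = qX * qW := by
  refine Equiv.ext fun x => ?_
  have h : Af.eqb (Af.comp (aK 1) (aK 2)) (Af.comp (aK 20) (aK 1)) = true := by decide +kernel
  have e := Af.act_of_eqb h x
  rw [Af.act_comp, Af.act_comp] at e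
  exact e

private theorem qWW : qW ^ 2 = 1 := by
  refine Equiv.ext fun x => ?_
  have h : Af.eqb (pAf (aK 1) 2) (aS 0) = true := by decide +kernel
  have e := Af.act_of_eqb h x
  rw [act_one] at e
  unfold qW
  rw [pAf_act]
  exact e

private theorem qX10 : qX ^ 10 = 1 := by
  refine Equiv.ext fun x => ?_
  have h : Af.eqb (pAf (aK 20) 10) (aS 0) = true := by decide +kernel
  have e := Af.act_of_eqb h x
  rw [act_one] at e
  unfold qX
  rw [pAf_act]
  exact e

private theorem qY10 : qY ^ 10 = 1 := by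
  refine Equiv.ext fun x => ?_
  have h : Af.eqb (pAf (aK 2) 10) (aS 0) = true := by decide +kernel
  have e := Af.act_of_eqb h x
  rw [act_one] at e
  unfold qY
  rw [pAf_act]
  exact e

private theorem kM_mul0 (a b a' b' s : ℕ) : kM a b 0 * kM a' b' s = kM (a + a') (b + b') s := by
  unfold kM
  by_cases hs : s % 2 = 0
  · simp only [hs, Nat.zero_mod, if_true]
    refine Matrix.ext fun i j => ?_
    fin_cases i <;> fin_cases j <;> simp [Matrix.mul_apply, Fin.sum_univ_three, mu_add]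
  · simp only [hs, Nat.zero_mod, if_true, if_false]
    refine Matrix.ext fun i j => ?_
    fin_cases i <;> fin_cases j <;> simp [Matrix.mul_apply, Fin.sum_univ_three, mu_add]

private theorem mu_zero : mu 0 = 1 := rfl

private theorem kM_one : kM 0 0 0 = 1 := by decide +kernel

private theorem mat_gX (a : ℕ) : mat (gX ^ a) = kM a 0 0 := by
  induction a with
  | zero => rw [pow_zero, mat_one, kM_one]
  | succ a ih =>
    rw [pow_succ, mat_mul, ih]
    exact kM_mul0 a 0 1 0 0

private theorem mat_gY (a : ℕ) : mat (gY ^ a) = kM 0 a 0 := by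
  induction a with
  | zero => rw [pow_zero, mat_one, kM_one]
  | succ a ih =>
    rw [pow_succ, mat_mul, ih]
    exact kM_mul0 0 a 0 1 0

private theorem gWW : gW ^ 2 = 1 := by
  refine mat_inj ?_
  rw [pow_two, mat_mul, mat_one]
  show kM 0 0 1 * kM 0 0 1 = 1
  decide +kernel

private theorem kM_mod (a b s : ℕ) : kM a b (s % 2) = kM a b s := by
  unfold kM
  rw [Nat.mod_mod]

private theorem mat_gW (s : ℕ) : mat (gW ^ s) = kM 0 0 s := by
  rw [pow_eq_pow_mod s gWW, ← kM_mod]
  rcases Nat.mod_two_eq_zero_or_one s with h | h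
  · rw [h, pow_zero, mat_one, kM_one]
  · rw [h, pow_one]
    rfl

private theorem mat_gU (u : ℕ) : mat (gU ^ u) = mu u • (1 : M3) := by
  induction u with
  | zero => rw [pow_zero, mat_one, mu_zero, one_smul]
  | succ u ih =>
    rw [pow_succ, mat_mul, ih]
    show (mu u • (1 : M3)) * (mu 1 • (1 : M3)) = _
    rw [Matrix.smul_mul, Matrix.mul_smul, one_mul, smul_smul, mu_add]

private theorem gXY : gX * gY = gY * gX := by
  refine mat_inj ?_
  rw [mat_mul, mat_mul]
  show kM 1 0 0 * kM 0 1 0 = kM 0 1 0 * kM 1 0 0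
  decide +kernel

private theorem gWX : gW * gX = gY * gW := by
  refine mat_inj ?_
  rw [mat_mul, mat_mul]
  show kM 0 0 1 * kM 1 0 0 = kM 0 1 0 * kM 0 0 1
  decide +kernel

private theorem gWY : gW * gY = gX * gW := by
  refine mat_inj ?_
  rw [mat_mul, mat_mul]
  show kM 0 0 1 * kM 0 1 0 = kM 1 0 0 * kM 0 0 1
  decide +kernel

private theorem gX10 : gX ^ 10 = 1 := by
  refine mat_inj ?_
  rw [mat_gX, mat_one]
  decide +kernel

private theorem gY10 : gY ^ 10 = 1 := by
  refine mat_inj ?_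
  rw [mat_gY, mat_one]
  decide +kernel

private theorem gU10 : gU ^ 10 = 1 := by
  refine mat_inj ?_
  rw [mat_gU, mat_one]
  show (mu 0) • (1 : M3) = 1
  rw [mu_zero, one_smul]

private theorem pXY : pX * pY = pY * pX := Prod.ext gXY qXY
private theorem pWX : pW * pX = pY * pW := Prod.ext gWX qWX
private theorem pWY : pW * pY = pX * pW := Prod.ext gWY qWY
private theorem pWW : pW ^ 2 = 1 := Prod.ext gWW qWW
private theorem pX10 : pX ^ 10 = 1 := Prod.ext gX10 qX10
private theorem pY10 : pY ^ 10 = 1 := Prod.ext gY10 qY10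
private theorem pU10 : pU ^ 10 = 1 := Prod.ext gU10 (one_pow 10)

private theorem pWab (s a b : ℕ) : ∃ c d, pW ^ s * (pX ^ a * pY ^ b) = pX ^ c * pY ^ d * pW ^ s := by
  induction s with
  | zero => exact ⟨a, b, by rw [pow_zero, one_mul, mul_one]⟩
  | succ s ih =>
    obtain ⟨c, d, h⟩ := ih
    refine ⟨d, c, ?_⟩
    have h1 : pW * pX ^ c = pY ^ c * pW := (SemiconjBy.pow_right (show SemiconjBy pW pX pY from pWX) c)
    have h2 : pW * pY ^ d = pX ^ d * pW := (SemiconjBy.pow_right (show SemiconjBy pW pY pX from pWY) d)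
    have h3 : pY ^ c * pX ^ d = pX ^ d * pY ^ c :=
      ((show Commute pY pX from pXY.symm).pow_pow c d)
    calc pW ^ (s + 1) * (pX ^ a * pY ^ b) = pW * (pW ^ s * (pX ^ a * pY ^ b)) := by
          rw [pow_succ', mul_assoc]
      _ = (pW * pX ^ c) * pY ^ d * pW ^ s := by rw [h]; simp only [mul_assoc]
      _ = pY ^ c * (pW * pY ^ d) * pW ^ s := by rw [h1]; simp only [mul_assoc]
      _ = (pY ^ c * pX ^ d) * (pW * pW ^ s) := by rw [h2]; simp only [mul_assoc]
      _ = pX ^ d * pY ^ c * pW ^ (s + 1) := by rw [h3, pow_succ']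

theorem pU_comm (r : P) : pU * r = r * pU := by
  refine Prod.ext ?_ ?_
  · show gU * r.1 = r.1 * gU
    refine mat_inj ?_
    rw [mat_mul, mat_mul]
    show (mu 1 • (1 : M3)) * mat r.1 = mat r.1 * (mu 1 • (1 : M3))
    rw [Matrix.smul_mul, Matrix.mul_smul, one_mul, mul_one]
  · show 1 * r.2 = r.2 * 1
    rw [one_mul, mul_one]

theorem nf_mul (u a b s u' a' b' s' : ℕ) :
    ∃ u'' a'' b'' s'', nf u a b s * nf u' a' b' s' = nf u'' a'' b'' s'' := by
  obtain ⟨c, d, h⟩ := pWab s a' b'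
  refine ⟨u + u', a + c, b + d, s + s', ?_⟩
  have h1 : ∀ r : P, r * pU ^ u' = pU ^ u' * r := fun r =>
    ((show Commute pU r from pU_comm r).pow_left u').eq.symm
  have h2 : pY ^ b * pX ^ c = pX ^ c * pY ^ b :=
    ((show Commute pY pX from pXY.symm).pow_pow b c)
  unfold nf
  calc pU ^ u * pX ^ a * pY ^ b * pW ^ s * (pU ^ u' * pX ^ a' * pY ^ b' * pW ^ s')
      = pU ^ u * ((pX ^ a * pY ^ b * pW ^ s) * pU ^ u') * (pX ^ a' * pY ^ b') * pW ^ s' := by
        simp only [mul_assoc]
    _ = pU ^ u * (pU ^ u' * (pX ^ a * pY ^ b * pW ^ s)) * (pX ^ a' * pY ^ b') * pW ^ s' := by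
        rw [h1]
    _ = (pU ^ u * pU ^ u') * (pX ^ a * pY ^ b) * (pW ^ s * (pX ^ a' * pY ^ b')) * pW ^ s' := by
        simp only [mul_assoc]
    _ = (pU ^ u * pU ^ u') * pX ^ a * (pY ^ b * pX ^ c) * pY ^ d * (pW ^ s * pW ^ s') := by
        rw [h]
        simp only [mul_assoc]
    _ = (pU ^ u * pU ^ u') * (pX ^ a * pX ^ c) * (pY ^ b * pY ^ d) * (pW ^ s * pW ^ s') := by
        rw [h2]
        simp only [mul_assoc]
    _ = pU ^ (u + u') * pX ^ (a + c) * pY ^ (b + d) * pW ^ (s + s') := by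
        rw [pow_add, pow_add, pow_add, pow_add]

theorem nf_split (u a b s : ℕ) : nf u a b s = pU ^ u * nf 0 a b s := by
  unfold nf
  rw [pow_zero, one_mul]
  simp only [mul_assoc]

theorem nf_red (u a b s : ℕ) : ∃ u' < 10, ∃ a' < 10, ∃ b' < 10, ∃ s' < 2,
    nf u a b s = nf u' a' b' s' := by
  refine ⟨u % 10, Nat.mod_lt _ (by norm_num), a % 10, Nat.mod_lt _ (by norm_num), b % 10,
    Nat.mod_lt _ (by norm_num), s % 2, Nat.mod_lt _ (by norm_num), ?_⟩
  unfold nf
  rw [← pow_eq_pow_mod u pU10, ← pow_eq_pow_mod a pX10, ← pow_eq_pow_mod b pY10,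
    ← pow_eq_pow_mod s pWW]

private theorem inv_pow9 {G : Type*} [Group G] {x : G} (h : x ^ 10 = 1) (a : ℕ) :
    (x ^ a)⁻¹ = x ^ (9 * a) := by
  refine inv_eq_of_mul_eq_one_right ?_
  rw [← pow_add, show a + 9 * a = 10 * a by ring, pow_mul, h, one_pow]

theorem nf_inv (u a b s : ℕ) : ∃ u' a' b' s', (nf u a b s)⁻¹ = nf u' a' b' s' := by
  have hs : (pW ^ s)⁻¹ = pW ^ s := by
    refine inv_eq_of_mul_eq_one_right ?_
    rw [← pow_add, ← two_mul, pow_mul, pWW, one_pow]
  have e : (nf u a b s)⁻¹ = nf 0 0 0 s * nf 0 0 (9 * b) 0 * nf 0 (9 * a) 0 0 * nf (9 * u) 0 0 0 := by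
    unfold nf
    simp only [mul_inv_rev, hs, inv_pow9 pU10, inv_pow9 pX10, inv_pow9 pY10, pow_zero, one_mul,
      mul_one, mul_assoc]
  obtain ⟨u1, a1, b1, s1, e1⟩ := nf_mul 0 0 0 s 0 0 (9 * b) 0
  obtain ⟨u2, a2, b2, s2, e2⟩ := nf_mul u1 a1 b1 s1 0 (9 * a) 0 0
  obtain ⟨u3, a3, b3, s3, e3⟩ := nf_mul u2 a2 b2 s2 (9 * u) 0 0 0
  exact ⟨u3, a3, b3, s3, by rw [e, e1, e2, e3]⟩

theorem mat_nf (u a b s : ℕ) : mat (nf u a b s).1 = mu u • kM a b s := by
  show mat (gU ^ u * gX ^ a * gY ^ b * gW ^ s) = _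
  rw [mat_mul, mat_mul, mat_mul, mat_gU, mat_gX, mat_gY, mat_gW, Matrix.smul_mul, one_mul,
    Matrix.smul_mul, kM_mul0, Matrix.smul_mul, kM_mul0]
  simp only [add_zero, zero_add]

private theorem pow_chk : (∀ a < 10, Af.eqb (pAf (aK 20) a) (aK (20 * a)) = true) ∧
    (∀ b < 10, Af.eqb (pAf (aK 2) b) (aK (2 * b)) = true) ∧
    (∀ s < 2, Af.eqb (pAf (aK 1) s) (aK s) = true) := by
  refine ⟨?_, ?_, ?_⟩
  · decide +kernel
  · decide +kernel
  · decide +kernel

private theorem prod_chk : ∀ a < 10, ∀ b < 10, ∀ s < 2,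
    Af.eqb (Af.comp (Af.comp (aK (20 * a)) (aK (2 * b))) (aK s)) (aK (20 * a + 2 * b + s)) = true := by
  decide +kernel

theorem act_nf (u a b s : ℕ) (ha : a < 10) (hb : b < 10) (hs : s < 2) (x : Pt) :
    (nf u a b s).2 x = (aK (20 * a + 2 * b + s)).act x := by
  have e : (nf u a b s).2 = qX ^ a * qY ^ b * qW ^ s := by
    show (1 : Equiv.Perm Pt) ^ u * qX ^ a * qY ^ b * qW ^ s = _
    rw [one_pow, one_mul]
  rw [e, Equiv.Perm.mul_apply, Equiv.Perm.mul_apply]
  unfold qX qY qW
  rw [pAf_act, pAf_act, pAf_act, Af.act_of_eqb (pow_chk.1 a ha), Af.act_of_eqb (pow_chk.2.1 b hb),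
    Af.act_of_eqb (pow_chk.2.2 s hs), ← Af.act_of_eqb (prod_chk a ha b hb s hs), Af.act_comp,
    Af.act_comp]

private theorem mu_one_iff : ∀ k < 10, mu k = 1 → k = 0 := by decide +kernel

/-- the elements of `K0` form a graph -/
theorem nf_one (u a b s : ℕ) (h : (nf u a b s).1 = 1) : nf u a b s = 1 := by
  obtain ⟨u', hu, a', ha, b', hb, s', hs, e⟩ := nf_red u a b s
  rw [e] at h ⊢
  have h1 : mu u' • kM a' b' s' = (1 : M3) := by rw [← mat_nf, h, mat_one]
  have hu0 : u' = 0 := by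
    refine mu_one_iff u' hu ?_
    have h2 := congrFun (congrFun h1 2) 2
    unfold kM at h2
    split_ifs at h2 with h3
    · simpa using h2
    · simpa using h2
  subst hu0
  rw [mu_zero, one_smul] at h1
  have hs0 : s' = 0 := by
    by_contra hne
    have h3 : s' = 1 := by omega
    subst h3
    have h2 := congrFun (congrFun h1 0) 0
    have h4 : (0 : O5) = 1 := by simpa [kM] using h2
    exact absurd h4 (by decide)
  subst hs0
  have ha0 : a' = 0 := by
    refine mu_one_iff a' ha ?_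
    have h2 := congrFun (congrFun h1 0) 0
    simpa [kM] using h2
  have hb0 : b' = 0 := by
    refine mu_one_iff b' hb ?_
    have h2 := congrFun (congrFun h1 1) 1
    simpa [kM] using h2
  subst ha0 hb0
  unfold nf
  simp only [pow_zero, mul_one]

end H84.AR
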