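import Pool.Agent.H84.AR.Rho
import Pool.Agent.H84.AR.NumE
import Pool.Agent.H84.AR.NF

/-!
# Stab: the stabiliser of `e₃`

`stabK`: `v = (0, 0, v₂)`: `col_eq` gives `nQ v₂ = 0`, `nP v₂ = 1`, so `v₂ = ρ^u` (`unit_enum`). By unitarity
(`uni`, `i = 2`, `j = 0, 1`: `ph * star v₂ * g 2 j = 0`) `g 2 0 = g 2 1 = 0`. The first two columns `(x, y)` satisfy
`x x̄ + y ȳ = 1` (`uni`, `i = j`), i.e. `nP x + nP y = 1`, `nQ x + nQ y = 0`, and both
`3 nP - nQ ≥ 0`, `3 nP + 4 nQ ≥ 0` for `x` and `y`: so `(nP x, nQ x) = (0, 0)` or `(1, 0)`: one of `x`, `y` vanishes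
(`nn_zero`) and the other is a root of unity. Orthogonality of the two columns: the matrix is
`ρ^u • kM a b s` (divide by `ρ^u`), and `mat_nf`, `mat_inj`.
`orb`: apply `stabK` to `g'⁻¹ g`, whose third column is `ρ^u e₃` (`mat_mul`, `mat_inv`, `adj_mat`).
-/

set_option autoImplicit false

namespace H84.AR

open O5

private theorem st_pos (x : O5) : 0 ≤ 2 * nP x + nQ x := by
  have h : 2 * (2 * nP x + nQ x) = x.a ^ 2 + x.b ^ 2 + x.c ^ 2 + x.d ^ 2 +
    ((x.a - x.b) ^ 2 + (x.a - x.c) ^ 2 + (x.a - x.d) ^ 2 + (x.b - x.c) ^ 2 + (x.b - x.d) ^ 2 +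
      (x.c - x.d) ^ 2) := by
    simp only [nP, nQ]
    ring
  have h0 : 0 ≤ 2 * (2 * nP x + nQ x) := by
    rw [h]
    positivity
  linarith

private theorem st_pos2 (x : O5) : 0 ≤ 3 * nP x - nQ x ∧ 0 ≤ 3 * nP x + 4 * nQ x := by
  constructor
  · have h := st_pos (phi' * x)
    obtain ⟨h1, h2⟩ := nn_mul phi' x
    have h3 : nP phi' = 2 := by decide
    have h4 : nQ phi' = -1 := by decide
    rw [h1, h2, h3, h4] at h
    linarith
  · have h := st_pos (ph * x)
    obtain ⟨h1, h2⟩ := nn_mul ph x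
    have h3 : nP ph = 1 := by decide
    have h4 : nQ ph = 1 := by decide
    rw [h1, h2, h3, h4] at h
    linarith

private theorem st_col (x y : O5) (h : star x * x + star y * y = 1) :
    (x = 0 ∧ ∃ k, y = mu k) ∨ (y = 0 ∧ ∃ k, x = mu k) := by
  have hx := mul_star x
  have hy := mul_star y
  rw [mul_comm] at hx hy
  rw [hx, hy] at h
  have hP : nP x + nP y = 1 := by
    have := congrArg O5.a h
    simp only [one_def, mul_def, add_def, intCast_def, ph] at this
    linarith
  have hQ : nQ x + nQ y = 0 := by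
    have := congrArg O5.c h
    simp only [one_def, mul_def, add_def, intCast_def, ph] at this
    linarith
  obtain ⟨h1, h2⟩ := st_pos2 x
  obtain ⟨h3, h4⟩ := st_pos2 y
  have hQ0 : nQ x = 0 := by omega
  have hQ1 : nQ y = 0 := by omega
  have hc : nP x = 0 ∨ nP x = 1 := by omega
  rcases hc with hc | hc
  · left
    refine ⟨nn_zero x (by rw [hc, hQ0]; rfl), ?_⟩
    obtain ⟨k, _, hk⟩ := unit_enum y (by omega) hQ1
    exact ⟨k, hk⟩
  · right
    refine ⟨nn_zero y (by rw [hQ1]; omega), ?_⟩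
    obtain ⟨k, _, hk⟩ := unit_enum x hc hQ0
    exact ⟨k, hk⟩

private theorem st_mul0 (k : ℕ) (y : O5) (h : star (mu k) * y = 0) : y = 0 := by
  calc y = (star (mu k) * mu k) * y := by rw [star_mu, one_mul]
    _ = mu k * (star (mu k) * y) := by ring
    _ = 0 := by rw [h, mul_zero]

private theorem st_ph0 (y : O5) (h : ph * y = 0) : y = 0 := by
  have h1 : phi' * ph = 1 := by decide
  calc y = (phi' * ph) * y := by rw [h1, one_mul]
    _ = phi' * (ph * y) := by ring
    _ = 0 := by rw [h, mul_zero]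

private theorem st_mu (k m : ℕ) : mu k * mu (m + 9 * k) = mu m := by
  rw [mu_add, show k + (m + 9 * k) = m + 10 * k by ring, ← mu_mod, Nat.add_mul_mod_self_left, mu_mod]

theorem stabK (g : Gam) (h0 : mat g 0 2 = 0) (h1 : mat g 1 2 = 0) :
    ∃ u a b s, g = (nf u a b s).1 := by
  have hz : nP (0 : O5) = 0 ∧ nQ (0 : O5) = 0 := by decide
  obtain ⟨hc1, hc2⟩ := col_eq g
  rw [h0, h1, hz.1] at hc1
  rw [h0, h1, hz.2] at hc2
  obtain ⟨u, _, hu⟩ := unit_enum (mat g 2 2) (by omega) (by omega)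
  have h20 : mat g 2 0 = 0 := by
    have h := uni g 2 0
    have e : Hh 2 0 = 0 := by decide
    rw [h0, h1, e, star_zero, zero_mul, zero_mul, zero_add, zero_sub, neg_eq_zero, hu] at h
    exact st_mul0 u _ (st_ph0 _ h)
  have h21 : mat g 2 1 = 0 := by
    have h := uni g 2 1
    have e : Hh 2 1 = 0 := by decide
    rw [h0, h1, e, star_zero, zero_mul, zero_mul, zero_add, zero_sub, neg_eq_zero, hu] at h
    exact st_mul0 u _ (st_ph0 _ h)
  have hA : star (mat g 0 0) * mat g 0 0 + star (mat g 1 0) * mat g 1 0 = 1 := by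
    have h := uni g 0 0
    have e : Hh 0 0 = 1 := by decide
    rw [h20, e, mul_zero, mul_zero, sub_zero] at h
    exact h
  have hB : star (mat g 0 1) * mat g 0 1 + star (mat g 1 1) * mat g 1 1 = 1 := by
    have h := uni g 1 1
    have e : Hh 1 1 = 1 := by decide
    rw [h21, e, mul_zero, mul_zero, sub_zero] at h
    exact h
  have hO : star (mat g 0 0) * mat g 0 1 + star (mat g 1 0) * mat g 1 1 = 0 := by
    have h := uni g 0 1
    have e : Hh 0 1 = 0 := by decide
    rw [h21, e, mul_zero, mul_zero, sub_zero] at h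
    exact h
  have hone : ∀ k : ℕ, mu k ≠ 0 := by
    intro k hk
    have h := star_mu k
    rw [hk, mul_zero] at h
    exact absurd h (by decide)
  rcases st_col _ _ hA with ⟨hx, k, hk⟩ | ⟨hx, k, hk⟩
  · rw [hx, star_zero, zero_mul, zero_add, hk] at hO
    have h11 := st_mul0 k _ hO
    rcases st_col _ _ hB with ⟨_, m, hm⟩ | ⟨_, m, hm⟩
    · exact absurd (hm.symm.trans h11) (hone m)
    · refine ⟨u, m + 9 * u, k + 9 * u, 1, mat_inj ?_⟩
      rw [mat_nf]
      refine Matrix.ext fun i j => ?_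
      fin_cases i <;> fin_cases j
      · show mat g 0 0 = mu u * 0
        rw [mul_zero]; exact hx
      · show mat g 0 1 = mu u * mu (m + 9 * u)
        rw [st_mu]; exact hm
      · show mat g 0 2 = mu u * 0
        rw [mul_zero]; exact h0
      · show mat g 1 0 = mu u * mu (k + 9 * u)
        rw [st_mu]; exact hk
      · show mat g 1 1 = mu u * 0
        rw [mul_zero]; exact h11
      · show mat g 1 2 = mu u * 0
        rw [mul_zero]; exact h1
      · show mat g 2 0 = mu u * 0
        rw [mul_zero]; exact h20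
      · show mat g 2 1 = mu u * 0
        rw [mul_zero]; exact h21
      · show mat g 2 2 = mu u * 1
        rw [mul_one]; exact hu
  · rw [hx, star_zero, zero_mul, add_zero, hk] at hO
    have h01 := st_mul0 k _ hO
    rcases st_col _ _ hB with ⟨_, m, hm⟩ | ⟨_, m, hm⟩
    · refine ⟨u, k + 9 * u, m + 9 * u, 0, mat_inj ?_⟩
      rw [mat_nf]
      refine Matrix.ext fun i j => ?_
      fin_cases i <;> fin_cases j
      · show mat g 0 0 = mu u * mu (k + 9 * u)
        rw [st_mu]; exact hk
      · show mat g 0 1 = mu u * 0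
        rw [mul_zero]; exact h01
      · show mat g 0 2 = mu u * 0
        rw [mul_zero]; exact h0
      · show mat g 1 0 = mu u * 0
        rw [mul_zero]; exact hx
      · show mat g 1 1 = mu u * mu (m + 9 * u)
        rw [st_mu]; exact hm
      · show mat g 1 2 = mu u * 0
        rw [mul_zero]; exact h1
      · show mat g 2 0 = mu u * 0
        rw [mul_zero]; exact h20
      · show mat g 2 1 = mu u * 0
        rw [mul_zero]; exact h21
      · show mat g 2 2 = mu u * 1
        rw [mul_one]; exact hu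
    · exact absurd (hm.symm.trans h01) (hone m)

theorem orb (g g' : Gam) (u : ℕ) (h : ∀ i, mat g i 2 = mu u * mat g' i 2) :
    ∃ u' a b s, g = g' * (nf u' a b s).1 := by
  have key : ∀ i, mat (g'⁻¹ * g) i 2 = mu u * (1 : M3) i 2 := by
    intro i
    rw [mat_mul, Matrix.mul_apply, mat_inv, ← adj_mat g', Matrix.mul_apply, Finset.mul_sum]
    refine Finset.sum_congr rfl fun k _ => ?_
    rw [h k]
    ring
  obtain ⟨u', a, b, s, hs⟩ := stabK (g'⁻¹ * g)
    (by rw [key 0, Matrix.one_apply_ne (by decide), mul_zero])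
    (by rw [key 1, Matrix.one_apply_ne (by decide), mul_zero])
  exact ⟨u', a, b, s, by rw [← hs, mul_inv_cancel_left]⟩

end H84.AR
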