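import Pool.Agent.H84.AR.Star
import Pool.Agent.H84.AR.Stab
import Pool.Agent.H84.AR.RelB

/-!
# GeoT: the types of the third column

Write `(P, Q) = (nP v₂, nQ v₂)`, `v = ` third column of `g`.
* `types`: `normSq (e1 v₂) = P + Q φ ≥ 1` (`col_id` or `col_eq` and positivity), `< 4 + 6 φ`;
  `0 ≤ normSq (e2 v₂) = P + Q ψ ≤ 1` (from `col_eq`: `Σ (nP v_i + nQ v_i ψ) = Q + (P + Q - 1) ψ = ψ (P + Q ψ - 1) ≥ 0`,
  `ψ² = ψ + 1`, `ψ < 0`). Subtract: `0 ≤ Q √5 < 13.71`, so `0 ≤ Q ≤ 6`, and `P ∈ [-Q ψ, 1 - Q ψ]`: for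
  `Q = 0`: `P = 1` (`P = 0` excluded by `≥ 1`), `Q = 1: 1`, `Q = 2: 2`, `Q = 3: 2`, `Q = 4: 3`, `Q = 5: 4`,
  `Q = 6: 4` (excluded by `< 4 + 6 φ`).
* for each type the pairs `(nP v_i, nQ v_i)`, `i = 0, 1`, are `≥ 0` at both places and add up to
  `(Q, P + Q - 1)` (`col_eq`); a finite search gives the possibilities:
  `(1,0)`: both zero, `stabK`. `(1,1)`: `(0,0) + (1,1)`; `enum11`, `orb` with `g' = κ s1`.
  `(2,2)`: impossible (`no22`). `(2,3)`: total `(3,4)`: `(1,1) + (2,3)` (`orb` with `g' = κ s2`), or `(0,0) + (3,4)`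
  (one coordinate is zero; excluded by `alpha_bd2`: `normSq v₂ = 2 + 3 φ > 6.8`).
  `(3,4)`: total `(4,6)`: `(2,3) + (2,3)` (`enum23`, `enum34`, `orb` with `g' = κ s3`) or `(0,0) + (4,6)` (`no46`).
  `(4,5)`: total `(5,8)`: only `(0,0) + (5,8)` (excluded by `alpha_bd2`: `4 + 5 φ > 6.8`).
  (`κ = (nf u a b s).1`; the column of `κ g'` is the column of `g'` multiplied by `ρ^u kM a b s`.)
-/

set_option autoImplicit false

namespace H84.AR

open O5 Complex Pool.Agent.H89.SG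

private theorem gold_lo : (1.618 : ℝ) < Real.goldenRatio := by
  have h : (2.236 : ℝ) < √5 := Real.lt_sqrt_of_sq_lt (by norm_num)
  unfold Real.goldenRatio
  linarith

private theorem gold_hi : Real.goldenRatio < (1.6181 : ℝ) := by
  have h : √5 < (2.2362 : ℝ) := (Real.sqrt_lt' (by norm_num)).2 (by norm_num)
  unfold Real.goldenRatio
  linarith

private theorem gold_conj : Real.goldenConj = 1 - Real.goldenRatio := by
  have := Real.goldenRatio_add_goldenConj
  linarith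

private theorem bds (x : O5) : (0 ≤ nQ x → 618 * nQ x ≤ 1000 * nP x) ∧
    (nQ x < 0 → -(1618 * nQ x) ≤ 1000 * nP x) := by
  have h1 : 0 ≤ (nP x : ℝ) + nQ x * Real.goldenRatio := by
    rw [← normSq_e1]; exact normSq_nonneg _
  have h2 : 0 ≤ (nP x : ℝ) + nQ x * Real.goldenConj := by
    rw [← normSq_e2]; exact normSq_nonneg _
  rw [gold_conj] at h2
  have hg := gold_lo
  constructor
  · intro h
    have h3 : (0 : ℝ) ≤ nQ x := by exact_mod_cast h
    have h4 : (618 * nQ x : ℝ) ≤ 1000 * nP x := by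
      nlinarith [mul_nonneg h3 (sub_nonneg.2 hg.le)]
    exact_mod_cast h4
  · intro h
    have h3 : (nQ x : ℝ) < 0 := by exact_mod_cast h
    have h4 : -(1618 * nQ x : ℝ) ≤ 1000 * nP x := by
      nlinarith [mul_nonneg (neg_nonneg.2 h3.le) (sub_nonneg.2 hg.le)]
    exact_mod_cast h4

private theorem nonneg2 {p0 q0 p1 q1 S T : ℤ} (b0 : 0 ≤ q0 → 618 * q0 ≤ 1000 * p0)
    (b0' : q0 < 0 → -(1618 * q0) ≤ 1000 * p0) (b1 : 0 ≤ q1 → 618 * q1 ≤ 1000 * p1)
    (b1' : q1 < 0 → -(1618 * q1) ≤ 1000 * p1) (c1 : p0 + p1 = S) (c2 : q0 + q1 = T)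
    (hST : 1000 * S < 618 * T + 2236) (hT : 0 ≤ T) : 0 ≤ q0 ∧ 0 ≤ q1 := by
  rcases le_or_gt 0 q0 with h0 | h0
  · refine ⟨h0, ?_⟩
    rcases le_or_gt 0 q1 with h1 | h1
    · exact h1
    · have e0 := b0 h0
      have e1 := b1' h1
      clear b0 b0' b1 b1'
      omega
  · rcases le_or_gt 0 q1 with h1 | h1
    · have e0 := b0' h0
      have e1 := b1 h1
      clear b0 b0' b1 b1'
      omega
    · exfalso
      clear b0 b0' b1 b1'
      omega

theorem types (g : Gam) (h : normSq (rho g 2 2) < 4 + 6 * Real.goldenRatio) :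
    (nP (mat g 2 2) = 1 ∧ nQ (mat g 2 2) = 0) ∨ (nP (mat g 2 2) = 1 ∧ nQ (mat g 2 2) = 1) ∨
    (nP (mat g 2 2) = 2 ∧ nQ (mat g 2 2) = 2) ∨ (nP (mat g 2 2) = 2 ∧ nQ (mat g 2 2) = 3) ∨
    (nP (mat g 2 2) = 3 ∧ nQ (mat g 2 2) = 4) ∨ (nP (mat g 2 2) = 4 ∧ nQ (mat g 2 2) = 5) := by
  rw [rho22, normSq_e1] at h
  have b0 := bds (mat g 0 2)
  have b1 := bds (mat g 1 2)
  have b2 := bds (mat g 2 2)
  obtain ⟨c1, c2⟩ := col_eq g
  have hlo := gold_lo
  have hhi := gold_hi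
  generalize nP (mat g 0 2) = p0 at *
  generalize nQ (mat g 0 2) = q0 at *
  generalize nP (mat g 1 2) = p1 at *
  generalize nQ (mat g 1 2) = q1 at *
  generalize nP (mat g 2 2) = p at *
  generalize nQ (mat g 2 2) = q at *
  have p0n : 0 ≤ p0 := by
    rcases le_or_gt 0 q0 with h0 | h0
    · have := b0.1 h0; clear b0 b1 b2; omega
    · have := b0.2 h0; clear b0 b1 b2; omega
  have p1n : 0 ≤ p1 := by
    rcases le_or_gt 0 q1 with h0 | h0
    · have := b1.1 h0; clear b0 b1 b2; omega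
    · have := b1.2 h0; clear b0 b1 b2; omega
  have hq0 : 0 ≤ q := by clear b0 b1 b2; omega
  have e2 := b2.1 hq0
  have e0 : 618 * q0 ≤ 1000 * p0 := by
    rcases le_or_gt 0 q0 with h0 | h0
    · exact b0.1 h0
    · clear b0 b1 b2; omega
  have e1 : 618 * q1 ≤ 1000 * p1 := by
    rcases le_or_gt 0 q1 with h0 | h0
    · exact b1.1 h0
    · clear b0 b1 b2; omega
  have f0 : -(1618 * q0) ≤ 1000 * p0 := by
    rcases le_or_gt 0 q0 with h0 | h0
    · clear b0 b1 b2; omega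
    · exact b0.2 h0
  have f1 : -(1618 * q1) ≤ 1000 * p1 := by
    rcases le_or_gt 0 q1 with h0 | h0
    · clear b0 b1 b2; omega
    · exact b1.2 h0
  clear b0 b1 b2
  have hq0' : (0 : ℝ) ≤ q := by exact_mod_cast hq0
  have h1 : (1000 * p + 1618 * q : ℝ) < 13709 := by
    nlinarith [mul_nonneg hq0' (sub_nonneg.2 hlo.le)]
  have h2 : 1000 * p + 1618 * q < 13709 := by exact_mod_cast h1
  have h3 : q = 6 → p < 4 := by
    intro hq
    rw [hq] at h
    have : (p : ℝ) < 4 := by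
      push_cast at h
      linarith
    exact_mod_cast this
  have hq6 : q ≤ 6 := by omega
  have k1 : 618 * (p + q - 1) ≤ 1000 * q := by omega
  have k2 : 0 ≤ 1618 * (p + q - 1) + 1000 * q := by omega
  clear e0 e1 f0 f1 c1 c2 p0n p1n h h1
  interval_cases q
  · exact Or.inl (by omega)
  · exact Or.inr (Or.inl (by omega))
  · exact Or.inr (Or.inr (Or.inl (by omega)))
  · exact Or.inr (Or.inr (Or.inr (Or.inl (by omega))))
  · exact Or.inr (Or.inr (Or.inr (Or.inr (Or.inl (by omega)))))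
  · exact Or.inr (Or.inr (Or.inr (Or.inr (Or.inr (by omega)))))
  · exfalso
    have := h3 rfl
    omega

/-- the possibilities for the first two entries of the third column -/
theorem pairs (g : Gam) :
    (nP (mat g 2 2) = 1 → nQ (mat g 2 2) = 0 → mat g 0 2 = 0 ∧ mat g 1 2 = 0) ∧
    (nP (mat g 2 2) = 1 → nQ (mat g 2 2) = 1 →
      (mat g 0 2 = 0 ∧ nP (mat g 1 2) = 1 ∧ nQ (mat g 1 2) = 1) ∨
      (mat g 1 2 = 0 ∧ nP (mat g 0 2) = 1 ∧ nQ (mat g 0 2) = 1)) ∧
    (nP (mat g 2 2) = 2 → nQ (mat g 2 2) = 3 → mat g 0 2 = 0 ∨ mat g 1 2 = 0 ∨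
      (nP (mat g 0 2) = 1 ∧ nQ (mat g 0 2) = 1 ∧ nP (mat g 1 2) = 2 ∧ nQ (mat g 1 2) = 3) ∨
      (nP (mat g 0 2) = 2 ∧ nQ (mat g 0 2) = 3 ∧ nP (mat g 1 2) = 1 ∧ nQ (mat g 1 2) = 1)) ∧
    (nP (mat g 2 2) = 3 → nQ (mat g 2 2) = 4 →
      (nP (mat g 0 2) = 2 ∧ nQ (mat g 0 2) = 3 ∧ nP (mat g 1 2) = 2 ∧ nQ (mat g 1 2) = 3)) ∧
    (nP (mat g 2 2) = 4 → nQ (mat g 2 2) = 5 → mat g 0 2 = 0 ∨ mat g 1 2 = 0) := by
  have b0 := bds (mat g 0 2)
  have b1 := bds (mat g 1 2)
  obtain ⟨c1, c2⟩ := col_eq g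
  have z0 := nn_zero (mat g 0 2)
  have z1 := nn_zero (mat g 1 2)
  have n0 := no46 (mat g 0 2)
  have n1 := no46 (mat g 1 2)
  generalize nP (mat g 0 2) = p0 at *
  generalize nQ (mat g 0 2) = q0 at *
  generalize nP (mat g 1 2) = p1 at *
  generalize nQ (mat g 1 2) = q1 at *
  generalize nP (mat g 2 2) = p at *
  generalize nQ (mat g 2 2) = q at *
  have key := fun S T c1 c2 hST hT => nonneg2 (S := S) (T := T) b0.1 b0.2 b1.1 b1.2 c1 c2 hST hT
  have key2 := fun (h0 : 0 ≤ q0) (h1 : 0 ≤ q1) => And.intro (b0.1 h0) (b1.1 h1)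
  clear b0 b1
  refine ⟨?_, ?_, ?_, ?_, ?_⟩
  · rintro rfl rfl
    obtain ⟨hq0, hq1⟩ := key _ _ c1 c2 (by norm_num) (by norm_num)
    obtain ⟨e0, e1⟩ := key2 hq0 hq1
    clear key key2 n0 n1
    have hq : q0 = 0 := by clear z0 z1; omega
    have hq' : q1 = 0 := by clear z0 z1; omega
    subst hq hq'
    have hp : p0 = 0 := by clear z0 z1; omega
    have hp' : p1 = 0 := by clear z0 z1; omega
    subst hp hp'
    exact ⟨z0 (by norm_num), z1 (by norm_num)⟩
  · rintro rfl rfl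
    obtain ⟨hq0, hq1⟩ := key _ _ c1 c2 (by norm_num) (by norm_num)
    obtain ⟨e0, e1⟩ := key2 hq0 hq1
    clear key key2 n0 n1
    have hq : q0 ≤ 1 := by clear z0 z1; omega
    interval_cases q0
    · have hp : p0 = 0 := by clear z0 z1; omega
      subst hp
      refine Or.inl ⟨z0 (by norm_num), ?_, ?_⟩
      · clear z0 z1; omega
      · clear z0 z1; omega
    · have hq' : q1 = 0 := by clear z0 z1; omega
      have hp : p1 = 0 := by clear z0 z1; omega
      subst hp hq'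
      refine Or.inr ⟨z1 (by norm_num), ?_, ?_⟩
      · clear z0 z1; omega
      · clear z0 z1; omega
  · rintro rfl rfl
    obtain ⟨hq0, hq1⟩ := key _ _ c1 c2 (by norm_num) (by norm_num)
    obtain ⟨e0, e1⟩ := key2 hq0 hq1
    clear key key2 n0 n1
    have hq : q0 ≤ 4 := by clear z0 z1; omega
    interval_cases q0
    · have hp : p0 = 0 := by clear z0 z1; omega
      subst hp
      exact Or.inl (z0 (by norm_num))
    · refine Or.inr (Or.inr (Or.inl ⟨?_, ?_, ?_, ?_⟩))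
      all_goals (clear z0 z1; omega)
    · exfalso
      clear z0 z1; omega
    · refine Or.inr (Or.inr (Or.inr ⟨?_, ?_, ?_, ?_⟩))
      all_goals (clear z0 z1; omega)
    · have hq' : q1 = 0 := by clear z0 z1; omega
      have hp : p1 = 0 := by clear z0 z1; omega
      subst hp hq'
      exact Or.inr (Or.inl (z1 (by norm_num)))
  · rintro rfl rfl
    obtain ⟨hq0, hq1⟩ := key _ _ c1 c2 (by norm_num) (by norm_num)
    obtain ⟨e0, e1⟩ := key2 hq0 hq1
    clear key key2 z0 z1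
    have hq : q0 ≤ 6 := by clear n0 n1; omega
    interval_cases q0
    · exfalso
      refine n1 ?_ ?_
      · clear n0 n1; omega
      · clear n0 n1; omega
    · exfalso
      clear n0 n1; omega
    · exfalso
      clear n0 n1; omega
    · refine ⟨?_, ?_, ?_, ?_⟩
      all_goals (clear n0 n1; omega)
    · exfalso
      clear n0 n1; omega
    · exfalso
      clear n0 n1; omega
    · exfalso
      refine n0 ?_ ?_
      · clear n0 n1; omega
      · rfl
  · rintro rfl rfl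
    obtain ⟨hq0, hq1⟩ := key _ _ c1 c2 (by norm_num) (by norm_num)
    obtain ⟨e0, e1⟩ := key2 hq0 hq1
    clear key key2 n0 n1
    have hq : q0 ≤ 8 := by clear z0 z1; omega
    interval_cases q0
    · have hp : p0 = 0 := by clear z0 z1; omega
      subst hp
      exact Or.inl (z0 (by norm_num))
    · exfalso; clear z0 z1; omega
    · exfalso; clear z0 z1; omega
    · exfalso; clear z0 z1; omega
    · exfalso; clear z0 z1; omega
    · exfalso; clear z0 z1; omega
    · exfalso; clear z0 z1; omega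
    · exfalso; clear z0 z1; omega
    · have hq' : q1 = 0 := by clear z0 z1; omega
      have hp : p1 = 0 := by clear z0 z1; omega
      subst hp hq'
      exact Or.inr (z1 (by norm_num))

end H84.AR
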