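import Pool.Agent.H84.AR.O5

/-!
# The unitary group `Gam = U(h; ℤ[ζ])`, `h = diag (1, 1, -φ)`

Levels, scalars, the finite group `K0`, the elements `s0 = 1`, `s1`, `s2`, `s3`.
-/

set_option autoImplicit false

namespace H84.AR

open O5 Matrix

/-- 3 × 3 matrices over `ℤ[ζ]` -/
abbrev M3 : Type := Matrix (Fin 3) (Fin 3) O5

/-- the form -/
def Hh : M3 := !![1, 0, 0; 0, 1, 0; 0, 0, -ph]

/-- its inverse -/
def Hi : M3 := !![1, 0, 0; 0, 1, 0; 0, 0, -phi']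

/-- the adjoint with respect to the form -/
def adj (M : M3) : M3 := Hi * Mᴴ * Hh

theorem ph_mul : ph * phi' = 1 := by decide

theorem Hh_Hi : Hh * Hi = 1 := by decide

theorem Hi_Hh : Hi * Hh = 1 := by decide

theorem adj_mul (M N : M3) : adj (M * N) = adj N * adj M := by
  unfold adj
  rw [conjTranspose_mul]
  calc Hi * (Nᴴ * Mᴴ) * Hh = Hi * Nᴴ * 1 * Mᴴ * Hh := by simp only [mul_one, mul_assoc]
    _ = Hi * Nᴴ * Hh * (Hi * Mᴴ * Hh) := by rw [← Hh_Hi]; simp only [mul_assoc]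

theorem adj_one : adj 1 = 1 := by
  unfold adj
  rw [conjTranspose_one, mul_one, Hi_Hh]

/-- The unitary group. -/
def Gam : Subgroup M3ˣ where
  carrier := {u | adj (u : M3) * u = 1}
  one_mem' := by
    show adj ((1 : M3ˣ) : M3) * ((1 : M3ˣ) : M3) = 1
    rw [Units.val_one, adj_one, mul_one]
  mul_mem' := by
    intro a b ha hb
    have ha' : adj (a : M3) * a = 1 := ha
    have hb' : adj (b : M3) * b = 1 := hb
    show adj ((a * b : M3ˣ) : M3) * ((a * b : M3ˣ) : M3) = 1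
    rw [Units.val_mul, adj_mul, mul_assoc, ← mul_assoc (adj (a : M3)), ha', one_mul, hb']
  inv_mem' := by
    intro a ha
    have ha' : adj (a : M3) * a = 1 := ha
    show adj ((a⁻¹ : M3ˣ) : M3) * ((a⁻¹ : M3ˣ) : M3) = 1
    have h1 : ((a⁻¹ : M3ˣ) : M3) = adj (a : M3) := by
      calc ((a⁻¹ : M3ˣ) : M3) = adj (a : M3) * a * ((a⁻¹ : M3ˣ) : M3) := by rw [ha', one_mul]
        _ = adj (a : M3) := by rw [mul_assoc, ← Units.val_mul, mul_inv_cancel, Units.val_one,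
            mul_one]
    have h2 : (a : M3) * adj (a : M3) = 1 := by
      rw [← h1, ← Units.val_mul, mul_inv_cancel, Units.val_one]
    rw [h1, ← adj_mul, h2, adj_one]

/-- the matrix of an element -/
def mat (g : Gam) : M3 := ((g : M3ˣ) : M3)

theorem mat_mul (g h : Gam) : mat (g * h) = mat g * mat h := rfl

theorem mat_one : mat 1 = 1 := rfl

theorem mat_inj {g h : Gam} (e : mat g = mat h) : g = h := Subtype.ext (Units.ext e)

theorem adj_mat (g : Gam) : adj (mat g) * mat g = 1 := g.2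

theorem mat_inv (g : Gam) : mat g⁻¹ = adj (mat g) := by
  calc mat g⁻¹ = adj (mat g) * mat g * mat g⁻¹ := by rw [adj_mat, one_mul]
    _ = adj (mat g) := by rw [mul_assoc, ← mat_mul, mul_inv_cancel, mat_one, mul_one]

/-- an element of the group from a matrix -/
def mkG (M : M3) (h : adj M * M = 1) : Gam :=
  ⟨⟨M, adj M, mul_eq_one_comm.1 h, h⟩, h⟩

theorem mat_mkG (M : M3) (h : adj M * M = 1) : mat (mkG M h) = M := rfl

/-- `g ≡ 1` modulo `π ^ k` -/
def IsLev (k : ℕ) (g : Gam) : Prop := ∃ X : M3, mat g = 1 + pp ^ k • X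

/-- the principal congruence subgroup of level `π ^ k` -/
def lev (k : ℕ) : Subgroup Gam where
  carrier := {g | IsLev k g}
  one_mem' := ⟨0, by rw [mat_one, smul_zero, add_zero]⟩
  mul_mem' := by
    rintro a b ⟨X, hX⟩ ⟨Y, hY⟩
    refine ⟨X + Y + pp ^ k • (X * Y), ?_⟩
    rw [mat_mul, hX, hY, mul_add, mul_one, add_mul, one_mul, smul_add, smul_add,
      Matrix.smul_mul, Matrix.mul_smul]
    abel
  inv_mem' := by
    rintro a ⟨X, hX⟩
    refine ⟨-(mat a⁻¹ * X), ?_⟩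
    have h1 : mat a⁻¹ * mat a = 1 := by rw [← mat_mul, inv_mul_cancel, mat_one]
    rw [hX, mul_add, mul_one, Matrix.mul_smul] at h1
    rw [smul_neg, ← h1]
    abel

/-- scalar matrices -/
def uM (k : ℕ) : M3 := mu k • (1 : M3)

/-- `diag (ρ^a, ρ^b, 1)` times a power of the swap -/
def kM (a b s : ℕ) : M3 :=
  if s % 2 = 0 then !![mu a, 0, 0; 0, mu b, 0; 0, 0, 1] else !![0, mu a, 0; mu b, 0, 0; 0, 0, 1]

/-- the elements `s0 = 1`, `s1`, `s2`, `s3` -/
def sM (l : ℕ) : M3 :=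
  match l with
  | 0 => 1
  | 1 => !![ph, 0, ph; 0, 1, 0; 1, 0, ph]
  | 2 => !![ph, ph, ⟨1, 0, -1, -1⟩; ph, 0, ph; ph, 1, ⟨1, 0, -1, -1⟩]
  | _ => !![⟨1, 1, 1, 0⟩, ph, ⟨1, 1, 0, -1⟩; ph, ph, ⟨1, 0, -1, -1⟩; ⟨1, 1, 0, 0⟩, ph,
      ⟨1, 1, -1, -1⟩]

end H84.AR
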