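import Pool.Agent.H84.AR.Grp
import Pool.Agent.H84.AR.Mod2

/-!
# HekA: the Hecke correspondence at `π`

* `hek`: `M' = 1 + pp ^ (k - 2) • (-zt • (Cc * X * Cc'))` satisfies `M' * Cc = Cc * mat g` (`Cc' * Cc = (pp * star pp) • 1`,
  `- zt * (pp * star pp) = pp ^ 2`, `decide`). `adj Cc = Cc'` (`decide +kernel`), so
  `Cc' * (adj M' * M') * Cc = adj (M' * Cc) * (M' * Cc) = adj (mat g) * Cc' * Cc * mat g = (pp * star pp) • 1`
  (`adj_mul`, `adj_mat`); multiply by `Cc` on the left and `Cc'` on the right and cancel `(pp * star pp) ^ 2 ≠ 0` (`noZ`,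
  `pp_ne`) entrywise: `adj M' * M' = 1`; `mkG`.
* `hek_red`: entrywise; `red Cc = !![1, 2, 0; -2, 1, 0; 0, 0, 0]`, `red Cc' = !![1, -2, 0; 2, 1, 0; 0, 0, 0]`,
  `red (-zt) = -1`.
* `hek_even`: all entries of `Y = -zt • (Cc * X * Cc')` have `red = 0` by `hek_red`, so `Y = pp • X'` (`dvd_iff_red`);
  `Y 0 2 = -zt * (X 0 2 + phi' * X 1 2) * star pp = pp * (X 0 2 + phi' * X 1 2)` (`-zt * star pp = pp`); cancel `pp`.
-/

set_option autoImplicit false

namespace H84.AR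

open O5

/-- the matrix of the correspondence -/
def Cc : M3 := !![1, phi', 0; -phi', 1, 0; 0, 0, pp]

/-- its adjoint -/
def Cc' : M3 := !![1, -phi', 0; phi', 1, 0; 0, 0, star pp]

theorem Cc_mul : Cc * Cc' = (pp * star pp) • (1 : M3) := by decide +kernel

theorem Cc'_mul : Cc' * Cc = (pp * star pp) • (1 : M3) := by decide +kernel

theorem adj_Cc : adj Cc = Cc' := by decide +kernel

theorem zt_pp : -zt * star pp = pp := by decide

theorem zt_pp2 : -zt * (pp * star pp) = pp ^ 2 := by decide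

/-- `g' = Cc g Cc⁻¹` -/
def HR (g g' : Gam) : Prop := Cc * mat g = mat g' * Cc

private theorem hek_mul (k : ℕ) (hk : 2 ≤ k) (X : M3) :
    (1 + pp ^ (k - 2) • (-zt • (Cc * X * Cc'))) * Cc = Cc * (1 + pp ^ k • X) := by
  have e : pp ^ (k - 2) * (-zt * (pp * star pp)) = pp ^ k := by
    rw [zt_pp2, ← pow_add, Nat.sub_add_cancel hk]
  rw [add_mul, one_mul, mul_add, mul_one, Matrix.smul_mul, Matrix.smul_mul, mul_assoc (Cc * X),
    Cc'_mul, Matrix.mul_smul, mul_one, smul_smul, smul_smul, Matrix.mul_smul,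
    mul_assoc (pp ^ (k - 2)), e]

private theorem hek_cancel (P : M3)
    (h : Cc' * P * Cc = (pp * star pp) • (1 : M3)) : P = 1 := by
  have h1 : Cc * (Cc' * P * Cc) * Cc' = ((pp * star pp) * (pp * star pp)) • P := by
    calc Cc * (Cc' * P * Cc) * Cc' = (Cc * Cc') * P * (Cc * Cc') := by simp only [mul_assoc]
      _ = ((pp * star pp) * (pp * star pp)) • P := by
        rw [Cc_mul, Matrix.smul_mul, one_mul, Matrix.mul_smul, mul_one, smul_smul]
  have h2 : Cc * (Cc' * P * Cc) * Cc' = ((pp * star pp) * (pp * star pp)) • (1 : M3) := by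
    rw [h, Matrix.mul_smul, mul_one, Matrix.smul_mul, Cc_mul, smul_smul]
  have hne : (pp * star pp) * (pp * star pp) ≠ 0 := by decide
  have h3 : ((pp * star pp) * (pp * star pp)) • P = ((pp * star pp) * (pp * star pp)) • (1 : M3) :=
    h1.symm.trans h2
  ext1 i j
  have h4 := congrFun (congrFun h3 i) j
  rw [Matrix.smul_apply, Matrix.smul_apply, smul_eq_mul, smul_eq_mul] at h4
  exact mul_left_cancel₀ hne h4

theorem hek (g : Gam) (k : ℕ) (hk : 2 ≤ k) (X : M3) (h : mat g = 1 + pp ^ k • X) :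
    ∃ g' : Gam, HR g g' ∧ mat g' = 1 + pp ^ (k - 2) • (-zt • (Cc * X * Cc')) := by
  have hm := hek_mul k hk X
  rw [← h] at hm
  have hu : adj (1 + pp ^ (k - 2) • (-zt • (Cc * X * Cc'))) *
      (1 + pp ^ (k - 2) • (-zt • (Cc * X * Cc'))) = 1 := by
    apply hek_cancel
    calc Cc' * (adj (1 + pp ^ (k - 2) • (-zt • (Cc * X * Cc'))) *
          (1 + pp ^ (k - 2) • (-zt • (Cc * X * Cc')))) * Cc
        = adj ((1 + pp ^ (k - 2) • (-zt • (Cc * X * Cc'))) * Cc) *
          ((1 + pp ^ (k - 2) • (-zt • (Cc * X * Cc'))) * Cc) := by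
            rw [adj_mul, adj_Cc]
            simp only [mul_assoc]
      _ = adj (Cc * mat g) * (Cc * mat g) := by rw [hm]
      _ = adj (mat g) * (Cc' * Cc) * mat g := by
            rw [adj_mul, adj_Cc]
            simp only [mul_assoc]
      _ = (pp * star pp) • (1 : M3) := by
            rw [Cc'_mul, Matrix.mul_smul, mul_one, Matrix.smul_mul, adj_mat]
  refine ⟨mkG _ hu, ?_, mat_mkG _ hu⟩
  show Cc * mat g = mat (mkG _ hu) * Cc
  rw [mat_mkG, hm]

/-- the reduction of the new matrix is `- f u uᵀ`, `u = (1, -2, 0)` -/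
private theorem red_smul (X : M3) (i j : Fin 3) :
    red ((-zt • (Cc * X * Cc')) i j) = -(∑ a : Fin 3, ∑ b : Fin 3,
      red (Cc i b) * red (X b a) * red (Cc' a j)) := by
  have hz : red (-zt) = -1 := by decide
  rw [Matrix.smul_apply, smul_eq_mul, map_mul, hz, Matrix.mul_apply, map_sum, neg_mul, one_mul]
  congr 1
  refine Finset.sum_congr rfl fun a _ => ?_
  rw [map_mul, Matrix.mul_apply, map_sum, Finset.sum_mul]
  refine Finset.sum_congr rfl fun b _ => ?_
  rw [map_mul]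

private theorem redC :
    red (Cc 0 0) = 1 ∧ red (Cc 0 1) = 2 ∧ red (Cc 0 2) = 0 ∧
    red (Cc 1 0) = -2 ∧ red (Cc 1 1) = 1 ∧ red (Cc 1 2) = 0 ∧
    red (Cc 2 0) = 0 ∧ red (Cc 2 1) = 0 ∧ red (Cc 2 2) = 0 := by decide

private theorem redC' :
    red (Cc' 0 0) = 1 ∧ red (Cc' 0 1) = -2 ∧ red (Cc' 0 2) = 0 ∧
    red (Cc' 1 0) = 2 ∧ red (Cc' 1 1) = 1 ∧ red (Cc' 1 2) = 0 ∧
    red (Cc' 2 0) = 0 ∧ red (Cc' 2 1) = 0 ∧ red (Cc' 2 2) = 0 := by decide

theorem hek_red (X : M3) (f : ZMod 5)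
    (hf : f = red (X 0 0) + 2 * red (X 0 1) + 2 * red (X 1 0) + 4 * red (X 1 1)) :
    red ((-zt • (Cc * X * Cc')) 0 0) = -f ∧ red ((-zt • (Cc * X * Cc')) 0 1) = 2 * f ∧
    red ((-zt • (Cc * X * Cc')) 1 0) = 2 * f ∧ red ((-zt • (Cc * X * Cc')) 1 1) = -(4 * f) ∧
    red ((-zt • (Cc * X * Cc')) 0 2) = 0 ∧ red ((-zt • (Cc * X * Cc')) 1 2) = 0 ∧
    red ((-zt • (Cc * X * Cc')) 2 0) = 0 ∧ red ((-zt • (Cc * X * Cc')) 2 1) = 0 ∧
    red ((-zt • (Cc * X * Cc')) 2 2) = 0 := by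
  obtain ⟨a00, a01, a02, a10, a11, a12, a20, a21, a22⟩ := redC
  obtain ⟨b00, b01, b02, b10, b11, b12, b20, b21, b22⟩ := redC'
  have h5 : (5 : ZMod 5) = 0 := rfl
  subst hf
  simp only [red_smul, Fin.sum_univ_three, a00, a01, a02, a10, a11, a12, a20, a21, a22,
    b00, b01, b02, b10, b11, b12, b20, b21, b22]
  refine ⟨?_, ?_, ?_, ?_, ?_, ?_, ?_, ?_, ?_⟩
  · ring
  · linear_combination (-2 * red (X 1 1) - red (X 0 1)) * h5
  · linear_combination (-2 * red (X 1 1) - red (X 1 0)) * h5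
  · linear_combination (3 * red (X 1 1) + 2 * red (X 1 0) + 2 * red (X 0 1)) * h5
  all_goals ring

theorem hek_even (X : M3)
    (hf : red (X 0 0) + 2 * red (X 0 1) + 2 * red (X 1 0) + 4 * red (X 1 1) = 0) :
    ∃ X' : M3, -zt • (Cc * X * Cc') = pp • X' ∧
      red (X' 0 2) = red (X 0 2) + 2 * red (X 1 2) := by
  obtain ⟨r00, r01, r10, r11, r02, r12, r20, r21, r22⟩ := hek_red X 0 hf.symm
  have hall : ∀ i j : Fin 3, red ((-zt • (Cc * X * Cc')) i j) = 0 := by
    intro i j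
    fin_cases i <;> fin_cases j
    · simpa using r00
    · simpa using r01
    · exact r02
    · simpa using r10
    · simpa using r11
    · exact r12
    · exact r20
    · exact r21
    · exact r22
  have hd : ∀ i j : Fin 3, ∃ c : O5, (-zt • (Cc * X * Cc')) i j = pp * c := fun i j =>
    (dvd_iff_red _).2 (hall i j)
  choose F hF using hd
  refine ⟨Matrix.of F, ?_, ?_⟩
  · ext1 i j
    rw [hF, Matrix.smul_apply, smul_eq_mul, Matrix.of_apply]
  · have h02 : (-zt • (Cc * X * Cc')) 0 2 = pp * (X 0 2 + phi' * X 1 2) := by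
      rw [Matrix.smul_apply, smul_eq_mul, Matrix.mul_apply, Fin.sum_univ_three]
      simp only [Matrix.mul_apply, Fin.sum_univ_three]
      have c00 : Cc 0 0 = 1 := rfl
      have c01 : Cc 0 1 = phi' := rfl
      have c02 : Cc 0 2 = 0 := rfl
      have d02 : Cc' 0 2 = 0 := rfl
      have d12 : Cc' 1 2 = 0 := rfl
      have d22 : Cc' 2 2 = star pp := rfl
      rw [c00, c01, c02, d02, d12, d22]
      calc -zt * ((1 * X 0 0 + phi' * X 1 0 + 0 * X 2 0) * 0 +
            (1 * X 0 1 + phi' * X 1 1 + 0 * X 2 1) * 0 +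
            (1 * X 0 2 + phi' * X 1 2 + 0 * X 2 2) * star pp)
          = (-zt * star pp) * (X 0 2 + phi' * X 1 2) := by ring
        _ = pp * (X 0 2 + phi' * X 1 2) := by rw [zt_pp]
    have h3 : F 0 2 = X 0 2 + phi' * X 1 2 := by
      apply mul_left_cancel₀ pp_ne
      rw [← hF, h02]
    have hph : red phi' = 2 := by decide
    rw [Matrix.of_apply, h3, map_add, map_mul, hph]

end H84.AR
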