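import Pool.Agent.H84.AR.Grp
import Pool.Agent.H84.AR.Mod2

/-!
# LevF: congruence subgroups have finite index

* `lev_fi`: map `g` to the coordinates of the entries of `mat g` in `ZMod (5 ^ k)` (a finite type of functions
  `Fin 3 → Fin 3 → Fin 4 → ZMod (5 ^ k)`). If `g`, `h` have the same image then `mat g - mat h = 5 ^ k • Z`, and `5 ^ k` is a
  multiple of `pp ^ (4 k)` (`five_dvd`), so of `pp ^ k`: `mat (h⁻¹ * g) = 1 + mat h⁻¹ * (mat g - mat h)`,
  `h⁻¹ * g ∈ lev k`. So `Gam ⧸ lev k` is finite.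
-/

set_option autoImplicit false

namespace H84.AR

open O5

theorem lev_anti {k l : ℕ} (h : k ≤ l) : lev l ≤ lev k := by
  rintro g ⟨X, hX⟩
  refine ⟨pp ^ (l - k) • X, ?_⟩
  rw [hX, smul_smul, ← pow_add, Nat.add_sub_cancel' h]

private theorem levF_pow (n : ℕ) : (5 : O5) ^ n = ⟨5 ^ n, 0, 0, 0⟩ := by
  induction n with
  | zero => rfl
  | succ n ih =>
    rw [pow_succ, ih]
    show (⟨5 ^ n, 0, 0, 0⟩ : O5) * ⟨5, 0, 0, 0⟩ = ⟨5 ^ (n + 1), 0, 0, 0⟩
    simp only [mul_def, O5.mk.injEq]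
    refine ⟨?_, ?_, ?_, ?_⟩ <;> ring

private theorem levF_dvd (k : ℕ) (x y : O5) (ha : (x.a : ZMod (5 ^ k)) = y.a)
    (hb : (x.b : ZMod (5 ^ k)) = y.b) (hc : (x.c : ZMod (5 ^ k)) = y.c)
    (hd : (x.d : ZMod (5 ^ k)) = y.d) : pp ^ k ∣ y - x := by
  rw [ZMod.intCast_eq_intCast_iff_dvd_sub] at ha hb hc hd
  obtain ⟨a, ha⟩ := ha
  obtain ⟨b, hb⟩ := hb
  obtain ⟨c, hc⟩ := hc
  obtain ⟨d, hd⟩ := hd
  push_cast at ha hb hc hd
  have h5 : (5 : O5) ^ k ∣ y - x := by
    refine ⟨⟨a, b, c, d⟩, ?_⟩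
    rw [levF_pow, sub_eq_add_neg]
    simp only [mul_def]
    ext
    · show y.a + -x.a = _
      linarith
    · show y.b + -x.b = _
      linarith
    · show y.c + -x.c = _
      linarith
    · show y.d + -x.d = _
      linarith
  have h1 : pp ∣ (5 : O5) := (dvd_pow_self pp (by norm_num)).trans five_dvd.1
  exact (pow_dvd_pow_of_dvd h1 k).trans h5

theorem lev_fi (k : ℕ) : (lev k).FiniteIndex := by
  have : NeZero (5 ^ k) := ⟨by positivity⟩
  let f : Gam → Fin 3 → Fin 3 → (ZMod (5 ^ k) × ZMod (5 ^ k)) × (ZMod (5 ^ k) × ZMod (5 ^ k)) :=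
    fun g i j => (((mat g i j).a, (mat g i j).b), ((mat g i j).c, (mat g i j).d))
  have key : ∀ h g : Gam, f h = f g → h⁻¹ * g ∈ lev k := by
    intro h g e
    have hd : ∀ i j, ∃ w : O5, mat g i j - mat h i j = pp ^ k * w := by
      intro i j
      have e1 := congrFun (congrFun e i) j
      simp only [f, Prod.mk.injEq] at e1
      exact levF_dvd k (mat h i j) (mat g i j) e1.1.1 e1.1.2 e1.2.1 e1.2.2
    choose w hw using hd
    have h1 : mat g = mat h + pp ^ k • (Matrix.of w) := by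
      ext1 i j
      rw [Matrix.add_apply, Matrix.smul_apply, Matrix.of_apply, smul_eq_mul, ← hw i j]
      abel
    refine ⟨mat h⁻¹ * Matrix.of w, ?_⟩
    rw [mat_mul, h1, mul_add, ← mat_mul, inv_mul_cancel, mat_one, Matrix.mul_smul]
  have : Finite (Gam ⧸ lev k) := by
    refine Finite.of_injective (fun q : Gam ⧸ lev k => f (Quotient.out q)) ?_
    intro q1 q2 e
    have h1 := key _ _ e
    rw [← QuotientGroup.eq, QuotientGroup.out_eq', QuotientGroup.out_eq'] at h1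
    exact h1
  exact Subgroup.finiteIndex_of_finite_quotient

end H84.AR
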