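import Pool.Agent.H84.AR.DetT
import Pool.Agent.H84.AR.HekA
import Pool.Agent.H84.AR.LevF

/-!
# HekB: subgroups of finite index and transport along the correspondence

* `det_HR`: `Γ₀ = {γ | ∃ γ', HR γ γ'}` is a subgroup (products; inverses: `Cc * mat γ⁻¹ = mat γ'⁻¹ * Cc`) containing
  `lev 2` (`hek` with `k = 2`), so of finite index (`lev_fi`). `γ'` is unique (`Cc * Cc' = (pp * star pp) • 1`, no zero
  divisors, `mat_inj`); `ψ : Γ₀ →* Gam` (`Classical.choose`; multiplicative by uniqueness). Given `m`, `H`, `χ` for `g'`: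
  take `(H.comap ψ).map Γ₀.subtype` (finite index: `Subgroup.FiniteIndex` of a comap and `relIndex` multiplicativity, or
  use `Γ₁ = {γ | ∃ h : γ ∈ Γ₀, ψ ⟨γ, h⟩ ∈ H}`), the homomorphism `χ ∘ ψ` and the same `m`: `ψ (g ^ m) = g' ^ m`.
-/

set_option autoImplicit false

namespace H84.AR

open O5

private theorem hb_ne : pp * star pp ≠ 0 := by decide

private theorem hb_cancel {A B : M3} (h : A * Cc = B * Cc) : A = B := by
  have h1 : A * (Cc * Cc') = B * (Cc * Cc') := by
    rw [← mul_assoc, h, mul_assoc]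
  rw [Cc_mul, Matrix.mul_smul, Matrix.mul_smul, mul_one, mul_one] at h1
  ext1 i j
  have h2 := congrFun (congrFun h1 i) j
  rw [Matrix.smul_apply, Matrix.smul_apply, smul_eq_mul, smul_eq_mul] at h2
  exact mul_left_cancel₀ hb_ne h2

theorem HR_uniq {g g' g'' : Gam} (h : HR g g') (h' : HR g g'') : g' = g'' := by
  have h1 : Cc * mat g = mat g' * Cc := h
  have h2 : Cc * mat g = mat g'' * Cc := h'
  exact mat_inj (hb_cancel (h1.symm.trans h2))

theorem HR_mul {g g' h h' : Gam} (hg : HR g g') (hh : HR h h') : HR (g * h) (g' * h') := by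
  have h1 : Cc * mat g = mat g' * Cc := hg
  have h2 : Cc * mat h = mat h' * Cc := hh
  show Cc * mat (g * h) = mat (g' * h') * Cc
  rw [mat_mul, mat_mul, ← mul_assoc, h1, mul_assoc, h2, mul_assoc]

theorem HR_inv {g g' : Gam} (hg : HR g g') : HR g⁻¹ g'⁻¹ := by
  have h1 : Cc * mat g = mat g' * Cc := hg
  show Cc * mat g⁻¹ = mat g'⁻¹ * Cc
  have h2 : mat g'⁻¹ * mat g' = 1 := by rw [← mat_mul, inv_mul_cancel, mat_one]
  have h3 : mat g * mat g⁻¹ = 1 := by rw [← mat_mul, mul_inv_cancel, mat_one]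
  calc Cc * mat g⁻¹ = mat g'⁻¹ * mat g' * Cc * mat g⁻¹ := by rw [h2, one_mul]
    _ = mat g'⁻¹ * (Cc * mat g) * mat g⁻¹ := by rw [h1]; simp only [mul_assoc]
    _ = mat g'⁻¹ * Cc * (mat g * mat g⁻¹) := by simp only [mul_assoc]
    _ = mat g'⁻¹ * Cc := by rw [h3, mul_one]

private theorem HR_one : HR 1 1 := by
  show Cc * mat 1 = mat 1 * Cc
  rw [mat_one, mul_one, one_mul]

/-- the elements which can be transported -/
private def hbG : Subgroup Gam where
  carrier := {g | ∃ g', HR g g'}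
  one_mem' := ⟨1, HR_one⟩
  mul_mem' := by
    rintro g h ⟨g', hg⟩ ⟨h', hh⟩
    exact ⟨g' * h', HR_mul hg hh⟩
  inv_mem' := by
    rintro g ⟨g', hg⟩
    exact ⟨g'⁻¹, HR_inv hg⟩

/-- the transport -/
private noncomputable def hbP : hbG →* Gam where
  toFun g := Classical.choose g.2
  map_one' := HR_uniq (Classical.choose_spec (1 : hbG).2) HR_one
  map_mul' g h := HR_uniq (Classical.choose_spec (g * h).2)
    (HR_mul (Classical.choose_spec g.2) (Classical.choose_spec h.2))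

private theorem hbP_eq {g g' : Gam} (h : HR g g') (hm : g ∈ hbG) : hbP ⟨g, hm⟩ = g' :=
  HR_uniq (Classical.choose_spec hm) h

private theorem hb_lev : lev 2 ≤ hbG := by
  rintro g ⟨X, hX⟩
  obtain ⟨g', hg', -⟩ := hek g 2 le_rfl X hX
  exact ⟨g', hg'⟩

private theorem HR_pow {g g' : Gam} (h : HR g g') (m : ℕ) : HR (g ^ m) (g' ^ m) := by
  induction m with
  | zero => rw [pow_zero, pow_zero]; exact HR_one
  | succ n ih => rw [pow_succ, pow_succ]; exact HR_mul ih h

theorem det_HR {g g' : Gam} (h : HR g g') (hd : Det g') : Det g := by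
  obtain ⟨m, hm, H, χ, hmem, hfin, hne⟩ := hd
  have hp := HR_pow h m
  have hm0 : g ^ m ∈ hbG := ⟨_, hp⟩
  have h0 : hbG.FiniteIndex := by
    have := lev_fi 2
    exact Subgroup.finiteIndex_of_le hb_lev
  have h1 : (H.comap hbP).FiniteIndex := by
    have := hfin
    have h5 : H.IsFiniteRelIndex hbP.range := Subgroup.isFiniteRelIndex_of_finiteIndex
    refine ⟨?_⟩
    rw [Subgroup.index_comap]
    exact h5.relIndex_ne_zero
  have hm1 : (⟨g ^ m, hm0⟩ : hbG) ∈ H.comap hbP := by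
    show hbP ⟨g ^ m, hm0⟩ ∈ H
    rw [hbP_eq hp hm0]
    exact hmem
  have hm2 : g ^ m ∈ (H.comap hbP).map hbG.subtype := ⟨⟨g ^ m, hm0⟩, hm1, rfl⟩
  refine ⟨m, hm, (H.comap hbP).map hbG.subtype, (χ.comp (hbP.subgroupComap H)).comp
    ((H.comap hbP).equivMapOfInjective hbG.subtype hbG.subtype_injective).symm.toMonoidHom,
    hm2, ?_, ?_⟩
  · refine ⟨?_⟩
    rw [Subgroup.index_map_subtype]
    exact mul_ne_zero h1.index_ne_zero h0.index_ne_zero
  · have h2 : ((H.comap hbP).equivMapOfInjective hbG.subtype hbG.subtype_injective).symm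
        ⟨g ^ m, hm2⟩ = ⟨⟨g ^ m, hm0⟩, hm1⟩ := by
      rw [MulEquiv.symm_apply_eq]
      rfl
    show χ (hbP.subgroupComap H (((H.comap hbP).equivMapOfInjective hbG.subtype
      hbG.subtype_injective).symm ⟨g ^ m, hm2⟩)) ≠ 1
    rw [h2]
    have h3 : hbP.subgroupComap H ⟨⟨g ^ m, hm0⟩, hm1⟩ = ⟨g' ^ m, hmem⟩ :=
      Subtype.ext (hbP_eq hp hm0)
    rw [h3]
    exact hne

end H84.AR
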