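import Pool.Agent.H84.AR.Grp
import Pool.Agent.H84.AR.Mod2

/-!
# LevS: the first coefficient of an element of level `k`

Let `mat g = 1 + pp ^ k • X`. `adj_mat` gives `adj X * star pp ^ k + X pp ^ k + (…) = 0` with
`star pp = -(mu 8) * pp` (`star_pp`; `adj` is conjugate linear): entrywise, for `ε = (-(mu 8)) ^ k`,
`pp ^ k * (ε * (adj X) i j + X i j + ε * pp ^ k * (adj X * X) i j) = 0`; cancel `pp ^ k` (`noZ`, `pp_ne`), apply `red`
(`red ε = (-1) ^ k`; `red (mu 8) = 1`): `x i j = - (-1)^k Hi_i x j i Hh_j` with `x = red X`, `red Hh = (1, 1, 2)`,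
`red Hi = (1, 1, 3)`.
Trace: `det (mat g)` satisfies `star det * det = 1` (`Matrix.det_mul`, `det_conjTranspose` of `adj_mat`; `Hi.det * Hh.det = 1`)
and `det (1 + pp ^ k • X) = 1 + pp ^ k * (tr X + pp ^ k * (…))` (`Matrix.det_fin_three`), so `≡ 1` modulo `π²`
(`2 ≤ k`), `abs_one`: `det = 1`, so `pp ^ k * (tr X + pp ^ k * (…)) = 0` and `red (tr X) = 0`.
-/

set_option autoImplicit false

namespace H84.AR

open O5

private theorem ls_Hh : Hh = Matrix.diagonal ![1, 1, -ph] := by decide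

private theorem ls_herm (g : Gam) : (mat g).conjTranspose * Hh * mat g = Hh := by
  have h1 := adj_mat g
  unfold adj at h1
  calc (mat g).conjTranspose * Hh * mat g
      = Hh * Hi * (mat g).conjTranspose * Hh * mat g := by rw [Hh_Hi, one_mul]
    _ = Hh * (Hi * (mat g).conjTranspose * Hh * mat g) := by simp only [mul_assoc]
    _ = Hh := by rw [h1, mul_one]

private theorem ls_star (k : ℕ) : star (pp ^ k) = (-(mu 8)) ^ k * pp ^ k := by
  rw [star_pow, star_pp, mul_pow]

private theorem ls_eps (k : ℕ) : red ((-(mu 8)) ^ k) = (-1) ^ k := by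
  rw [map_pow]
  have h : red (-(mu 8)) = -1 := by decide
  rw [h]

private theorem ls_redpp (k : ℕ) (hk : 2 ≤ k) : red (pp ^ k) = 0 := by
  rw [map_pow]
  have h : red pp = 0 := by decide
  rw [h, zero_pow (by omega)]

private theorem ls_key (g : Gam) (k : ℕ) (hk : 2 ≤ k) (X : M3) (h : mat g = 1 + pp ^ k • X)
    (i j : Fin 3) : (-1) ^ k * (red (X j i) * red ((![1, 1, -ph] : Fin 3 → O5) j)) +
      red ((![1, 1, -ph] : Fin 3 → O5) i) * red (X i j) = 0 := by
  have h0 := ls_herm g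
  rw [h, Matrix.conjTranspose_add, Matrix.conjTranspose_one, Matrix.conjTranspose_smul,
    ls_star] at h0
  have h1 : pp ^ k • ((-(mu 8)) ^ k • (X.conjTranspose * Hh) + Hh * X +
      ((-(mu 8)) ^ k * pp ^ k) • (X.conjTranspose * Hh * X)) = 0 := by
    have h2 : (1 + ((-(mu 8)) ^ k * pp ^ k) • X.conjTranspose) * Hh * (1 + pp ^ k • X) =
      Hh + pp ^ k • ((-(mu 8)) ^ k • (X.conjTranspose * Hh) + Hh * X +
      ((-(mu 8)) ^ k * pp ^ k) • (X.conjTranspose * Hh * X)) := by
      simp only [add_mul, mul_add, one_mul, mul_one, smul_add, Matrix.smul_mul, Matrix.mul_smul,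
        smul_smul]
      rw [mul_comm ((-(mu 8)) ^ k) (pp ^ k)]
      abel
    rw [h2] at h0
    exact left_eq_add.mp h0.symm
  have h2 := congrFun (congrFun h1 i) j
  simp only [Matrix.smul_apply, Matrix.add_apply, Matrix.zero_apply, smul_eq_mul] at h2
  have h3 := (mul_eq_zero.mp h2).resolve_left (pow_ne_zero k pp_ne)
  have h4 := congrArg red h3
  rw [map_zero, map_add, map_add, map_mul, map_mul, ls_eps, map_mul, ls_redpp k hk, mul_zero,
    zero_mul, add_zero, ls_Hh, Matrix.mul_diagonal, Matrix.diagonal_mul, map_mul, map_mul,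
    Matrix.conjTranspose_apply, red_star] at h4
  exact h4

private theorem ls_r0 : red ((![1, 1, -ph] : Fin 3 → O5) 0) = 1 := by decide
private theorem ls_r1 : red ((![1, 1, -ph] : Fin 3 → O5) 1) = 1 := by decide
private theorem ls_r2 : red ((![1, 1, -ph] : Fin 3 → O5) 2) = 2 := by decide

private theorem ls_det (g : Gam) : star (mat g).det * (mat g).det = 1 := by
  have h1 := congrArg Matrix.det (adj_mat g)
  unfold adj at h1
  rw [Matrix.det_mul, Matrix.det_mul, Matrix.det_mul, Matrix.det_conjTranspose,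
    Matrix.det_one] at h1
  have h2 : Hi.det * Hh.det = 1 := by rw [← Matrix.det_mul, Hi_Hh, Matrix.det_one]
  calc star (mat g).det * (mat g).det = (Hi.det * Hh.det) * (star (mat g).det * (mat g).det) := by
        rw [h2, one_mul]
    _ = Hi.det * star (mat g).det * Hh.det * (mat g).det := by ring
    _ = 1 := h1

private theorem ls_exp (q : O5) (X : M3) : (1 + q • X).det = 1 + q * (X 0 0 + X 1 1 + X 2 2 +
    q * (X 0 0 * X 1 1 - X 0 1 * X 1 0 + X 0 0 * X 2 2 - X 0 2 * X 2 0 + X 1 1 * X 2 2 -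
      X 1 2 * X 2 1 + q * X.det)) := by
  rw [Matrix.det_fin_three, Matrix.det_fin_three]
  simp only [Matrix.add_apply, Matrix.smul_apply, smul_eq_mul, Matrix.one_apply_eq]
  rw [Matrix.one_apply_ne (by decide : (0 : Fin 3) ≠ 1), Matrix.one_apply_ne (by decide : (0 : Fin 3) ≠ 2),
    Matrix.one_apply_ne (by decide : (1 : Fin 3) ≠ 0), Matrix.one_apply_ne (by decide : (1 : Fin 3) ≠ 2),
    Matrix.one_apply_ne (by decide : (2 : Fin 3) ≠ 0), Matrix.one_apply_ne (by decide : (2 : Fin 3) ≠ 1)]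
  ring

theorem lev_tr (g : Gam) (k : ℕ) (hk : 2 ≤ k) (X : M3) (h : mat g = 1 + pp ^ k • X) :
    red (X 0 0) + red (X 1 1) + red (X 2 2) = 0 := by
  have h1 := ls_det g
  have h2 := ls_exp (pp ^ k) X
  rw [← h] at h2
  have h3 : (mat g).det = 1 := by
    apply abs_one _ h1
    rw [h2, add_sub_cancel_left]
    exact Dvd.dvd.mul_right (pow_dvd_pow pp hk) _
  rw [h3] at h2
  have h4 := (mul_eq_zero.mp (left_eq_add.mp h2)).resolve_left (pow_ne_zero k pp_ne)
  have h5 := congrArg red h4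
  rw [map_zero, map_add, map_mul, ls_redpp k hk, zero_mul, add_zero, map_add, map_add] at h5
  exact h5

theorem lev_odd (g : Gam) (k : ℕ) (hk : 2 ≤ k) (ho : Odd k) (X : M3)
    (h : mat g = 1 + pp ^ k • X) : red (X 1 0) = red (X 0 1) ∧
    red (X 2 0) = 3 * red (X 0 2) ∧ red (X 2 1) = 3 * red (X 1 2) := by
  have hm : ((-1 : ZMod 5)) ^ k = -1 := ho.neg_one_pow
  have a := ls_key g k hk X h 1 0
  have b := ls_key g k hk X h 2 0
  have c := ls_key g k hk X h 2 1
  rw [hm, ls_r0, ls_r1] at a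
  rw [hm, ls_r0, ls_r2] at b
  rw [hm, ls_r1, ls_r2] at c
  have h5 : (5 : ZMod 5) = 0 := rfl
  refine ⟨by linear_combination a, ?_, ?_⟩
  · linear_combination 3 * b - red (X 2 0) * h5
  · linear_combination 3 * c - red (X 2 1) * h5

theorem lev_even (g : Gam) (k : ℕ) (hk : 2 ≤ k) (ho : Even k) (X : M3)
    (h : mat g = 1 + pp ^ k • X) : red (X 0 0) = 0 ∧ red (X 1 1) = 0 ∧ red (X 2 2) = 0 ∧
    red (X 1 0) = -red (X 0 1) ∧
    red (X 2 0) = 2 * red (X 0 2) ∧ red (X 2 1) = 2 * red (X 1 2) := by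
  have hm : ((-1 : ZMod 5)) ^ k = 1 := ho.neg_one_pow
  have d0 := ls_key g k hk X h 0 0
  have d1 := ls_key g k hk X h 1 1
  have d2 := ls_key g k hk X h 2 2
  have a := ls_key g k hk X h 1 0
  have b := ls_key g k hk X h 2 0
  have c := ls_key g k hk X h 2 1
  rw [hm, ls_r0] at d0
  rw [hm, ls_r1] at d1
  rw [hm, ls_r2] at d2
  rw [hm, ls_r0, ls_r1] at a
  rw [hm, ls_r0, ls_r2] at b
  rw [hm, ls_r1, ls_r2] at c
  have h5 : (5 : ZMod 5) = 0 := rfl
  refine ⟨?_, ?_, ?_, ?_, ?_, ?_⟩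
  · linear_combination 3 * d0 - red (X 0 0) * h5
  · linear_combination 3 * d1 - red (X 1 1) * h5
  · linear_combination 4 * d2 - 3 * red (X 2 2) * h5
  · linear_combination a
  · linear_combination 3 * b - (red (X 2 0) + red (X 0 2)) * h5
  · linear_combination 3 * c - (red (X 2 1) + red (X 1 2)) * h5

/-- conjugation -/
theorem lev_conj (γ g : Gam) (k : ℕ) (X : M3) (h : mat g = 1 + pp ^ k • X) :
    mat (γ * g * γ⁻¹) = 1 + pp ^ k • (mat γ * X * mat γ⁻¹) := by
  have h1 : mat γ * mat γ⁻¹ = 1 := by rw [← mat_mul, mul_inv_cancel, mat_one]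
  rw [mat_mul, mat_mul, h, mul_add, add_mul, mul_one, h1, Matrix.mul_smul, Matrix.smul_mul]

end H84.AR
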