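import Pool.Agent.H84.AR.Cech

/-!
# Mac: Macbeath's theorem

`U g` (`g ∈ Γ`) are open preconnected nonempty subsets of the convex open set `B`, covering `B`, and
`U a ∩ U b ∩ U d ≠ ∅` implies `U (g a) ∩ U (g b) ∩ U (g d) ≠ ∅`.
* `conn`: if `T : Set Γ` is closed under `a ∈ T`, `U a ∩ U b ≠ ∅` implies `b ∈ T`, and `T` is not empty, then `T`
  is everything: `⋃_{a ∈ T} U a` and `⋃_{a ∉ T} U a` are disjoint open sets covering `B`.
* `mac_gen`: apply `conn` to the submonoid (`b = a (a⁻¹ b)` and `U 1 ∩ U (a⁻¹ b) ≠ ∅`).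
* `mac`: apply `cech` to `a g h = c (g⁻¹ h)`: get `b`; replace `b` by `(b 1)⁻¹ b`, so `b 1 = 1`. For fixed `g` the
  function `b' h = (b g)⁻¹ b (g h)` satisfies the same equations, `b' 1 = 1`, and `{h | b h = b' h}` is
  closed as in `conn`, so `b' = b`: `b (g h) = b g b h`. For `U 1 ∩ U g ≠ ∅`: `b g = b 1 * c g = c g`.
-/

set_option autoImplicit false

namespace H84.AR

theorem conn {Γ E : Type} [NormedAddCommGroup E] [NormedSpace ℝ E] {B : Set E}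
    (hconv : Convex ℝ B) (U : Γ → Set E) (hU : ∀ g, IsOpen (U g)) (hsub : ∀ g, U g ⊆ B)
    (hne : ∀ g, (U g).Nonempty) (hcov : ∀ x ∈ B, ∃ g, x ∈ U g) (T : Set Γ) (hT : T.Nonempty)
    (h : ∀ a ∈ T, ∀ b, (U a ∩ U b).Nonempty → b ∈ T) : ∀ g, g ∈ T := by
  intro g
  by_contra hg
  obtain ⟨t, ht⟩ := hT
  have hpc : IsPreconnected B := hconv.isPreconnected
  have key := hpc (⋃ a ∈ T, U a) (⋃ a ∈ Tᶜ, U a)
    (isOpen_biUnion fun a _ => hU a) (isOpen_biUnion fun a _ => hU a)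
    (by
      intro x hx
      obtain ⟨a, ha⟩ := hcov x hx
      by_cases haT : a ∈ T
      · left
        exact Set.mem_biUnion haT ha
      · right
        exact Set.mem_biUnion (show a ∈ Tᶜ from haT) ha)
    (by
      obtain ⟨x, hx⟩ := hne t
      exact ⟨x, hsub t hx, Set.mem_biUnion ht hx⟩)
    (by
      obtain ⟨x, hx⟩ := hne g
      exact ⟨x, hsub g hx, Set.mem_biUnion (show g ∈ Tᶜ from hg) hx⟩)
  obtain ⟨x, -, hx1, hx2⟩ := key
  rw [Set.mem_iUnion₂] at hx1 hx2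
  obtain ⟨a, haT, ha⟩ := hx1
  obtain ⟨b, hbT, hb⟩ := hx2
  exact hbT (h a haT b ⟨x, ha, hb⟩)

theorem mac_gen {Γ E : Type} [Group Γ] [NormedAddCommGroup E] [NormedSpace ℝ E] {B : Set E}
    (hconv : Convex ℝ B) (U : Γ → Set E) (hU : ∀ g, IsOpen (U g)) (hsub : ∀ g, U g ⊆ B)
    (hne : ∀ g, (U g).Nonempty) (hcov : ∀ x ∈ B, ∃ g, x ∈ U g)
    (htr : ∀ g a b, (U a ∩ U b).Nonempty → (U (g * a) ∩ U (g * b)).Nonempty) (M : Submonoid Γ)
    (hM : ∀ g, (U 1 ∩ U g).Nonempty → g ∈ M) : M = ⊤ := by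
  rw [eq_top_iff]
  intro g _
  refine conn hconv U hU hsub hne hcov (M : Set Γ) ⟨1, M.one_mem⟩ ?_ g
  intro a ha b hab
  have h1 := htr a⁻¹ a b hab
  rw [inv_mul_cancel] at h1
  have h2 := M.mul_mem ha (hM _ h1)
  rw [mul_inv_cancel_left] at h2
  exact h2

theorem mac {Γ E A : Type} [Group Γ] [Group A] [NormedAddCommGroup E] [NormedSpace ℝ E] {B : Set E}
    (hB : IsOpen B) (hconv : Convex ℝ B) (U : Γ → Set E) (hU : ∀ g, IsOpen (U g))
    (hpre : ∀ g, IsPreconnected (U g)) (hsub : ∀ g, U g ⊆ B) (hne : ∀ g, (U g).Nonempty)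
    (hcov : ∀ x ∈ B, ∃ g, x ∈ U g)
    (htr : ∀ g a b, (U a ∩ U b).Nonempty → (U (g * a) ∩ U (g * b)).Nonempty) (c : Γ → A)
    (hc : ∀ a b d, (U a ∩ U b ∩ U d).Nonempty → c (a⁻¹ * b) * c (b⁻¹ * d) = c (a⁻¹ * d)) :
    ∃ C : Γ →* A, ∀ g, (U 1 ∩ U g).Nonempty → C g = c g := by
  obtain ⟨b, hb⟩ := cech hB hconv ((hne 1).mono (hsub 1)) U hU hpre hsub hcov
    (fun g h => c (g⁻¹ * h)) hc
  have key : ∀ g h, b (g * h) = b g * (b 1)⁻¹ * b h := by
    intro g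
    have h1 := conn hconv U hU hsub hne hcov {h | b (g * h) = b g * (b 1)⁻¹ * b h}
      ⟨1, by simp⟩ (by
        intro x hx y hxy
        have hx' : b (g * x) = b g * (b 1)⁻¹ * b x := hx
        have h2 := hb (g * x) (g * y) (htr g x y hxy)
        have h3 := hb x y hxy
        have h4 : (g * x)⁻¹ * (g * y) = x⁻¹ * y := by group
        simp only [h4] at h2
        show b (g * y) = b g * (b 1)⁻¹ * b y
        rw [← h2, ← h3, hx', mul_assoc])
    exact h1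
  refine ⟨MonoidHom.mk' (fun g => (b 1)⁻¹ * b g) ?_, ?_⟩
  · intro x y
    show (b 1)⁻¹ * b (x * y) = (b 1)⁻¹ * b x * ((b 1)⁻¹ * b y)
    rw [key]
    group
  · intro g hg
    have h2 := hb 1 g hg
    show (b 1)⁻¹ * b g = c g
    rw [← h2]
    simp

end H84.AR
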