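import Mathlib

/-!
# The ring `O5 = ℤ[ζ]`, `ζ = exp (2 π i / 5)`

Elements are `a + b ζ + c ζ² + d ζ³` with integer coordinates (everything is computable).
-/

set_option autoImplicit false

namespace H84.AR

/-- `a + b ζ + c ζ² + d ζ³` -/
@[ext] structure O5 where
  a : ℤ
  b : ℤ
  c : ℤ
  d : ℤ
deriving DecidableEq

namespace O5

/-- multiplication, `ζ⁴ = -1 - ζ - ζ² - ζ³` -/
def mul (x y : O5) : O5 :=
  ⟨x.a * y.a - (x.b * y.d + x.c * y.c + x.d * y.b) + (x.c * y.d + x.d * y.c),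
   x.a * y.b + x.b * y.a - (x.b * y.d + x.c * y.c + x.d * y.b) + x.d * y.d,
   x.a * y.c + x.b * y.b + x.c * y.a - (x.b * y.d + x.c * y.c + x.d * y.b),
   x.a * y.d + x.b * y.c + x.c * y.b + x.d * y.a - (x.b * y.d + x.c * y.c + x.d * y.b)⟩

instance : Zero O5 := ⟨⟨0, 0, 0, 0⟩⟩
instance : One O5 := ⟨⟨1, 0, 0, 0⟩⟩
instance : Add O5 := ⟨fun x y => ⟨x.a + y.a, x.b + y.b, x.c + y.c, x.d + y.d⟩⟩
instance : Neg O5 := ⟨fun x => ⟨-x.a, -x.b, -x.c, -x.d⟩⟩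
instance : Sub O5 := ⟨fun x y => ⟨x.a - y.a, x.b - y.b, x.c - y.c, x.d - y.d⟩⟩
instance : Mul O5 := ⟨mul⟩
instance : NatCast O5 := ⟨fun n => ⟨n, 0, 0, 0⟩⟩
instance : IntCast O5 := ⟨fun n => ⟨n, 0, 0, 0⟩⟩

theorem zero_def : (0 : O5) = ⟨0, 0, 0, 0⟩ := rfl
theorem one_def : (1 : O5) = ⟨1, 0, 0, 0⟩ := rfl
theorem add_def (x y : O5) : x + y = ⟨x.a + y.a, x.b + y.b, x.c + y.c, x.d + y.d⟩ := rfl
theorem neg_def (x : O5) : -x = ⟨-x.a, -x.b, -x.c, -x.d⟩ := rfl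
theorem sub_def (x y : O5) : x - y = ⟨x.a - y.a, x.b - y.b, x.c - y.c, x.d - y.d⟩ := rfl
theorem mul_def (x y : O5) : x * y =
  ⟨x.a * y.a - (x.b * y.d + x.c * y.c + x.d * y.b) + (x.c * y.d + x.d * y.c),
   x.a * y.b + x.b * y.a - (x.b * y.d + x.c * y.c + x.d * y.b) + x.d * y.d,
   x.a * y.c + x.b * y.b + x.c * y.a - (x.b * y.d + x.c * y.c + x.d * y.b),
   x.a * y.d + x.b * y.c + x.c * y.b + x.d * y.a - (x.b * y.d + x.c * y.c + x.d * y.b)⟩ := rfl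
theorem natCast_def (n : ℕ) : (n : O5) = ⟨n, 0, 0, 0⟩ := rfl
theorem intCast_def (n : ℤ) : (n : O5) = ⟨n, 0, 0, 0⟩ := rfl

instance : CommRing O5 where
  add_assoc x y z := by simp only [add_def, add_assoc]
  zero_add x := by simp only [add_def, zero_def, zero_add]
  add_zero x := by simp only [add_def, zero_def, add_zero]
  add_comm x y := by simp only [add_def, add_comm]
  mul_assoc x y z := by
    simp only [mul_def, O5.mk.injEq]
    refine ⟨?_, ?_, ?_, ?_⟩ <;> ring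
  one_mul x := by ext <;> simp [mul_def, one_def]
  mul_one x := by ext <;> simp [mul_def, one_def]
  mul_comm x y := by
    simp only [mul_def, O5.mk.injEq]
    refine ⟨?_, ?_, ?_, ?_⟩ <;> ring
  left_distrib x y z := by
    simp only [mul_def, add_def, O5.mk.injEq]
    refine ⟨?_, ?_, ?_, ?_⟩ <;> ring
  right_distrib x y z := by
    simp only [mul_def, add_def, O5.mk.injEq]
    refine ⟨?_, ?_, ?_, ?_⟩ <;> ring
  zero_mul x := by ext <;> simp [mul_def, zero_def]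
  mul_zero x := by ext <;> simp [mul_def, zero_def]
  neg_add_cancel x := by ext <;> simp [neg_def, add_def, zero_def]
  sub_eq_add_neg x y := by ext <;> simp [neg_def, add_def, sub_def, sub_eq_add_neg]
  nsmul := nsmulRec
  zsmul := zsmulRec
  natCast n := ⟨n, 0, 0, 0⟩
  natCast_zero := by ext <;> simp [zero_def]
  natCast_succ n := by ext <;> simp [add_def, one_def]
  intCast n := ⟨n, 0, 0, 0⟩
  intCast_ofNat n := by ext <;> simp [natCast_def]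
  intCast_negSucc n := by
    ext <;> simp [natCast_def, neg_def, Int.negSucc_eq]

/-- complex conjugation -/
instance : StarRing O5 where
  star x := ⟨x.a - x.b, -x.b, x.d - x.b, x.c - x.b⟩
  star_involutive x := by ext <;> simp
  star_mul x y := by
    simp only [mul_def, O5.mk.injEq]
    refine ⟨?_, ?_, ?_, ?_⟩ <;> ring
  star_add x y := by
    simp only [add_def, O5.mk.injEq]
    refine ⟨?_, ?_, ?_, ?_⟩ <;> ring

theorem star_def (x : O5) : star x = ⟨x.a - x.b, -x.b, x.d - x.b, x.c - x.b⟩ := rfl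

/-- `ζ` -/
def zt : O5 := ⟨0, 1, 0, 0⟩
/-- the golden ratio `φ = - ζ² - ζ³` -/
def ph : O5 := ⟨0, 0, -1, -1⟩
/-- `φ⁻¹ = φ - 1` -/
def phi' : O5 := ⟨-1, 0, -1, -1⟩
/-- the prime `π = 1 - ζ` above `5` -/
def pp : O5 := ⟨1, -1, 0, 0⟩
/-- the roots of unity `ρ^k`, `ρ = - ζ³ = exp (π i / 5)` -/
def mu (k : ℕ) : O5 :=
  match k % 10 with
  | 0 => ⟨1, 0, 0, 0⟩
  | 1 => ⟨0, 0, 0, -1⟩
  | 2 => ⟨0, 1, 0, 0⟩
  | 3 => ⟨1, 1, 1, 1⟩
  | 4 => ⟨0, 0, 1, 0⟩
  | 5 => ⟨-1, 0, 0, 0⟩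
  | 6 => ⟨0, 0, 0, 1⟩
  | 7 => ⟨0, -1, 0, 0⟩
  | 8 => ⟨-1, -1, -1, -1⟩
  | _ => ⟨0, 0, -1, 0⟩

/-- reduction modulo `π` -/
def red : O5 →+* ZMod 5 where
  toFun x := ((x.a + x.b + x.c + x.d : ℤ) : ZMod 5)
  map_one' := by simp [one_def]
  map_zero' := by simp [zero_def]
  map_add' x y := by
    simp only [add_def]
    push_cast
    ring
  map_mul' x y := by
    simp only [mul_def]
    push_cast
    have h5 : (5 : ZMod 5) = 0 := rfl
    linear_combination (-((x.b : ZMod 5) * y.d + x.c * y.c + x.d * y.b)) * h5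

/-- `x x̄ = nP x + nQ x φ` -/
def nP (x : O5) : ℤ :=
  x.a ^ 2 + x.b ^ 2 + x.c ^ 2 + x.d ^ 2 - (x.a * x.b + x.b * x.c + x.c * x.d)
/-- `x x̄ = nP x + nQ x φ` -/
def nQ (x : O5) : ℤ :=
  (x.a * x.b + x.b * x.c + x.c * x.d) - (x.a * x.c + x.b * x.d) - x.a * x.d

theorem mul_star (x : O5) : x * star x = (nP x : O5) + (nQ x : O5) * ph := by
  simp only [mul_def, star_def, nP, nQ, ph, intCast_def, add_def, O5.mk.injEq]
  refine ⟨?_, ?_, ?_, ?_⟩ <;> ring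

end O5

end H84.AR
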