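import Pool.Agent.H84.AR.ClB

/-!
# Pur: pure elements of level one

Apply `Cl` with `j = 0` (`tr 0 = []`): `Blk (mat ((wG (tr i))⁻¹ * g))`; as `mat g ≡ 1` modulo `π` this gives
`Blk (adj (wM (tr i)))`, so `i = 0` (`tr_blk`) and `C g (0, x) = (0, mu e * x + t)`. Modulo `π²`:
`FL (mat g) ≡ 1 + 7 π (X₀₀ + X₁₁ - 2 X₂₂) + 10 π X₀₀ ≡ 1` (`X₂₂ = π X'`, so `star (mat g 2 2) ≡ 1`; `star_pp`; `5 ≡ 0` by
`five_dvd`; `red (X₀₀ + X₁₁) = 5 f = 0`), so `mu e = 1` (`mu_one`); `t ≡ FT (mat g) ≡ 3 π (X₁₀ + X₀₁)`, and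
`red (X₁₀ + X₀₁) = - 4 f ≠ 0`; if `t = 0` then `pp ^ 2 ∣ 3 pp (X₁₀ + X₀₁)`, `pp ∣ 3 (X₁₀ + X₀₁)` (cancel `pp`,
`dvd_iff_red`).
-/

set_option autoImplicit false

namespace H84.AR

open O5

private theorem pu_red_pp : red pp = 0 := by decide

private theorem pu_five : (5 : O5) = pp * (pp * (pp * (pp * ⟨-1, -1, 0, 1⟩))) := by decide

private theorem pu_pow5 (y : O5) : C2 ((1 + pp * y) ^ 5) 1 := by
  have h5 := pu_five
  refine ⟨y * (pp * (pp * (pp * ⟨-1, -1, 0, 1⟩))) + 10 * y ^ 2 + 10 * pp * y ^ 3 +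
    5 * pp ^ 2 * y ^ 4 + pp ^ 3 * y ^ 5, ?_⟩
  linear_combination (pp * y) * h5

private theorem pu_blk (N X : M3) (h : Blk (N * (1 + pp • X))) : Blk N := by
  have hr : ∀ i j, red ((N * (1 + pp • X)) i j) = red (N i j) := by
    intro i j
    rw [mul_add, mul_one, Matrix.mul_smul, Matrix.add_apply, Matrix.smul_apply, smul_eq_mul,
      map_add, map_mul, pu_red_pp, zero_mul, add_zero]
  unfold Blk at h ⊢
  rw [hr, hr, hr, hr] at h
  exact h

/-- elements of the form `1 + π X` with `X ≡ f u uᵀ`, `u = (1, -2, 0)`, act on the line `0` by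
nontrivial translations -/
theorem pure_trans {C : Gam →* Equiv.Perm Pt} (hC : HC C) (g : Gam) (X : M3)
    (hX : mat g = 1 + pp • X) (f : ZMod 5) (hf : f ≠ 0) (h00 : red (X 0 0) = f)
    (h01 : red (X 0 1) = -2 * f) (h10 : red (X 1 0) = -2 * f) (h11 : red (X 1 1) = 4 * f)
    (h22 : red (X 2 2) = 0) : ∃ t : O5, t ≠ 0 ∧ ∀ x, C g (0, x) = (0, x + t) := by
  obtain ⟨i, e, t, hb, hc, hl, ht⟩ := Cl_all hC g 0
  have ht0 : tr 0 = [] := rfl
  have hw : wG (tr 0) = 1 := rfl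
  have hi : i = 0 := by
    apply tr_blk
    rw [hw, mul_one, mat_mul, mat_inv, mat_wG, hX] at hb
    exact pu_blk _ _ hb
  subst hi
  have hg : (wG (tr 0))⁻¹ * g * wG (tr 0) = g := by
    rw [hw, inv_one, one_mul, mul_one]
  rw [hg] at hb hl ht
  have hc' : ∀ x, C g (0, x) = (0, mu e * x + t) := by
    intro x
    have := hc x
    rwa [hg] at this
  -- entries
  have m00 : mat g 0 0 = 1 + pp * X 0 0 := by
    rw [hX, Matrix.add_apply, Matrix.smul_apply, smul_eq_mul, Matrix.one_apply_eq]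
  have m11 : mat g 1 1 = 1 + pp * X 1 1 := by
    rw [hX, Matrix.add_apply, Matrix.smul_apply, smul_eq_mul, Matrix.one_apply_eq]
  have m22 : mat g 2 2 = 1 + pp * X 2 2 := by
    rw [hX, Matrix.add_apply, Matrix.smul_apply, smul_eq_mul, Matrix.one_apply_eq]
  have m01 : mat g 0 1 = pp * X 0 1 := by
    rw [hX, Matrix.add_apply, Matrix.smul_apply, smul_eq_mul, Matrix.one_apply_ne (by decide),
      zero_add]
  have m10 : mat g 1 0 = pp * X 1 0 := by
    rw [hX, Matrix.add_apply, Matrix.smul_apply, smul_eq_mul, Matrix.one_apply_ne (by decide),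
      zero_add]
  obtain ⟨y, hy⟩ : pp ∣ X 2 2 := (dvd_iff_red _).2 h22
  obtain ⟨z, hz⟩ : pp ∣ X 0 0 + X 1 1 := by
    rw [dvd_iff_red, map_add, h00, h11]
    have h5 : (5 : ZMod 5) = 0 := rfl
    linear_combination f * h5
  -- the linear part
  have hdet : C2 (mat g 0 0 * mat g 1 1 - mat g 0 1 * mat g 1 0) 1 := by
    rw [m00, m11, m01, m10]
    exact ⟨z + X 0 0 * X 1 1 - X 0 1 * X 1 0, by linear_combination pp * hz⟩
  have hst : C2 (star (mat g 2 2)) 1 := by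
    rw [m22, hy, star_add, star_one, star_mul, star_mul, star_pp]
    exact ⟨star y * (mu 8) ^ 2, by ring⟩
  have hsq : C2 ((mat g 0 0 ^ 2 - mat g 0 1 ^ 2) ^ 5) 1 := by
    have h1 : mat g 0 0 ^ 2 - mat g 0 1 ^ 2 =
        1 + pp * (2 * X 0 0 + pp * (X 0 0 ^ 2 - X 0 1 ^ 2)) := by
      rw [m00, m01]
      ring
    rw [h1]
    exact pu_pow5 _
  have hFL : C2 (FL (mat g)) 1 := by
    have h1 := ((hdet.mul (hst.pow 2)).pow 7).mul hsq
    have h2 : ((1 * 1 ^ 2 : O5)) ^ 7 * 1 = 1 := by ring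
    rw [h2] at h1
    exact h1
  have hmu : mu e = 1 := mu_one e (hl.trans hFL)
  refine ⟨t, ?_, ?_⟩
  · rintro rfl
    obtain ⟨w, hw'⟩ := ht
    unfold FT at hw'
    rw [m00, m11, m01, m10] at hw'
    have h3 : pp * (3 * (X 1 0 + X 0 1)) =
        pp * (pp * (-w - 3 * (X 0 0 * X 1 0 + X 0 1 * X 1 1))) := by
      linear_combination -hw'
    have h4 := mul_left_cancel₀ pp_ne h3
    have h5 : red (3 * (X 1 0 + X 0 1)) = 0 := (dvd_iff_red _).1 ⟨_, h4⟩
    rw [map_mul, map_add, h10, h01] at h5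
    apply hf
    have h6 : red (3 : O5) = 3 := by decide
    rw [h6] at h5
    have h7 : (5 : ZMod 5) = 0 := rfl
    have h8 : 3 * f = 0 := by linear_combination h5 + 3 * f * h7
    have h9 : f = 2 * (3 * f) := by linear_combination (-f) * h7
    rw [h9, h8, mul_zero]
  · intro x
    rw [hc' x, hmu, one_mul]

end H84.AR
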