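import Pool.Agent.H84.AR.Elt

/-!
# Sel: linear algebra over `ZMod 5`

`Y = mat γ * X * mat γ⁻¹`, `mat γ⁻¹ = adj (mat γ)` (`mat_inv`); `v = (1, 2, 0)`.
* `odd_sel`: `y 0 0 + 2 y 0 1 + 2 y 1 0 + 4 y 1 1 = r x c` with the row `r = vᵀ red (mat γ)` and the column
  `c = red (mat γ⁻¹) v`. Use the six elements with `γ⁻¹ = 1, W, S₁, X⁵ S₁, Y⁵ S₁, X⁵ Y⁵ S₁` (`red (mat (gS 1))` is
  `!![3, 0, 3; 0, 1, 0; 1, 0, 3]`, `X⁵ = diag (-1, 1, 1)`): the pairs `(r, c)` are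
  `(1,2,0),(1,2,0)`; `(2,1,0),(2,1,0)`; `(3,2,2),(3,2,1)`; `(2,2,2),(2,2,1)`; `(3,3,2),(3,3,1)`; `(2,3,2),(2,3,1)`.
  If all six values vanish for `x = !![a, c, d; c, b, e; 3 d, 3 e, -a-b]` then `a = b = c = d = e = 0`
  (`decide` over `ZMod 5`, or elimination; checked by computer).
* `even_sel`: `γ ∈ {1, W, S₁}`, `x = !![0, c, d; -c, 0, e; 2 d, 2 e, 0]`: if `y 0 2 + 2 y 1 2 = 0` for the three then
  `c = d = e = 0` (checked by computer).
-/

set_option autoImplicit false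

namespace H84.AR

open O5

private theorem val_o (A X B : M3) :
    red ((A * X * B) 0 0) + 2 * red ((A * X * B) 0 1) +
      2 * red ((A * X * B) 1 0) + 4 * red ((A * X * B) 1 1) =
    (red (A 0 0) + 2 * red (A 1 0)) * (red (X 0 0) * (red (B 0 0) + 2 * red (B 0 1)) +
        red (X 0 1) * (red (B 1 0) + 2 * red (B 1 1)) +
        red (X 0 2) * (red (B 2 0) + 2 * red (B 2 1))) +
      (red (A 0 1) + 2 * red (A 1 1)) * (red (X 1 0) * (red (B 0 0) + 2 * red (B 0 1)) +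
        red (X 1 1) * (red (B 1 0) + 2 * red (B 1 1)) +
        red (X 1 2) * (red (B 2 0) + 2 * red (B 2 1))) +
      (red (A 0 2) + 2 * red (A 1 2)) * (red (X 2 0) * (red (B 0 0) + 2 * red (B 0 1)) +
        red (X 2 1) * (red (B 1 0) + 2 * red (B 1 1)) +
        red (X 2 2) * (red (B 2 0) + 2 * red (B 2 1))) := by
  simp only [Matrix.mul_apply, Fin.sum_univ_three, map_add, map_mul]
  ring

private theorem val_e (A X B : M3) :
    red ((A * X * B) 0 2) + 2 * red ((A * X * B) 1 2) =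
    (red (A 0 0) + 2 * red (A 1 0)) * (red (X 0 0) * red (B 0 2) + red (X 0 1) * red (B 1 2) +
        red (X 0 2) * red (B 2 2)) +
      (red (A 0 1) + 2 * red (A 1 1)) * (red (X 1 0) * red (B 0 2) + red (X 1 1) * red (B 1 2) +
        red (X 1 2) * red (B 2 2)) +
      (red (A 0 2) + 2 * red (A 1 2)) * (red (X 2 0) * red (B 0 2) + red (X 2 1) * red (B 1 2) +
        red (X 2 2) * red (B 2 2)) := by
  simp only [Matrix.mul_apply, Fin.sum_univ_three, map_add, map_mul]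
  ring

private theorem val_oi (g : Gam) (X : M3) :
    red ((mat g⁻¹ * X * mat (g⁻¹)⁻¹) 0 0) + 2 * red ((mat g⁻¹ * X * mat (g⁻¹)⁻¹) 0 1) +
      2 * red ((mat g⁻¹ * X * mat (g⁻¹)⁻¹) 1 0) + 4 * red ((mat g⁻¹ * X * mat (g⁻¹)⁻¹) 1 1) =
    (red (adj (mat g) 0 0) + 2 * red (adj (mat g) 1 0)) *
        (red (X 0 0) * (red (mat g 0 0) + 2 * red (mat g 0 1)) +
        red (X 0 1) * (red (mat g 1 0) + 2 * red (mat g 1 1)) +
        red (X 0 2) * (red (mat g 2 0) + 2 * red (mat g 2 1))) +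
      (red (adj (mat g) 0 1) + 2 * red (adj (mat g) 1 1)) *
        (red (X 1 0) * (red (mat g 0 0) + 2 * red (mat g 0 1)) +
        red (X 1 1) * (red (mat g 1 0) + 2 * red (mat g 1 1)) +
        red (X 1 2) * (red (mat g 2 0) + 2 * red (mat g 2 1))) +
      (red (adj (mat g) 0 2) + 2 * red (adj (mat g) 1 2)) *
        (red (X 2 0) * (red (mat g 0 0) + 2 * red (mat g 0 1)) +
        red (X 2 1) * (red (mat g 1 0) + 2 * red (mat g 1 1)) +
        red (X 2 2) * (red (mat g 2 0) + 2 * red (mat g 2 1))) := by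
  rw [inv_inv, mat_inv]
  exact val_o _ _ _

private theorem el_val (M : M3) (h : adj M * M = 1) (r c : Fin 3 → ZMod 5)
    (hr : ∀ k, red (adj M 0 k) + 2 * red (adj M 1 k) = r k)
    (hc : ∀ k, red (M k 0) + 2 * red (M k 1) = c k) (X : M3)
    (hX : ∀ γ : Gam, red ((mat γ * X * mat γ⁻¹) 0 0) + 2 * red ((mat γ * X * mat γ⁻¹) 0 1) +
      2 * red ((mat γ * X * mat γ⁻¹) 1 0) + 4 * red ((mat γ * X * mat γ⁻¹) 1 1) = 0) :
    r 0 * (red (X 0 0) * c 0 + red (X 0 1) * c 1 + red (X 0 2) * c 2) +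
      r 1 * (red (X 1 0) * c 0 + red (X 1 1) * c 1 + red (X 1 2) * c 2) +
      r 2 * (red (X 2 0) * c 0 + red (X 2 1) * c 1 + red (X 2 2) * c 2) = 0 := by
  have h1 := hX (mkG M h)⁻¹
  rw [val_oi, mat_mkG, hr, hr, hr, hc, hc, hc] at h1
  exact h1

private theorem fin5 : ∀ a b c d e : ZMod 5,
    (1 * (a * 1 + c * 2 + d * 0) + 2 * (c * 1 + b * 2 + e * 0) +
      0 * (3 * d * 1 + 3 * e * 2 + (-a - b) * 0) = 0) →
    (2 * (a * 2 + c * 1 + d * 0) + 1 * (c * 2 + b * 1 + e * 0) +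
      0 * (3 * d * 2 + 3 * e * 1 + (-a - b) * 0) = 0) →
    (3 * (a * 3 + c * 2 + d * 1) + 2 * (c * 3 + b * 2 + e * 1) +
      2 * (3 * d * 3 + 3 * e * 2 + (-a - b) * 1) = 0) →
    (2 * (a * 2 + c * 2 + d * 1) + 2 * (c * 2 + b * 2 + e * 1) +
      2 * (3 * d * 2 + 3 * e * 2 + (-a - b) * 1) = 0) →
    (3 * (a * 3 + c * 3 + d * 1) + 3 * (c * 3 + b * 3 + e * 1) +
      2 * (3 * d * 3 + 3 * e * 3 + (-a - b) * 1) = 0) →
    (2 * (a * 2 + c * 3 + d * 1) + 3 * (c * 2 + b * 3 + e * 1) +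
      2 * (3 * d * 2 + 3 * e * 3 + (-a - b) * 1) = 0) →
    a = 0 ∧ b = 0 ∧ c = 0 ∧ d = 0 ∧ e = 0 := by
  decide +kernel

theorem odd_sel (X : M3) (h10 : red (X 1 0) = red (X 0 1)) (h20 : red (X 2 0) = 3 * red (X 0 2))
    (h21 : red (X 2 1) = 3 * red (X 1 2)) (htr : red (X 0 0) + red (X 1 1) + red (X 2 2) = 0)
    (hne : ∃ i j, red (X i j) ≠ 0) :
    ∃ γ : Gam, red ((mat γ * X * mat γ⁻¹) 0 0) + 2 * red ((mat γ * X * mat γ⁻¹) 0 1) +
      2 * red ((mat γ * X * mat γ⁻¹) 1 0) + 4 * red ((mat γ * X * mat γ⁻¹) 1 1) ≠ 0 := by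
  by_contra hcon
  have hX : ∀ γ : Gam, red ((mat γ * X * mat γ⁻¹) 0 0) + 2 * red ((mat γ * X * mat γ⁻¹) 0 1) +
      2 * red ((mat γ * X * mat γ⁻¹) 1 0) + 4 * red ((mat γ * X * mat γ⁻¹) 1 1) = 0 := by
    intro γ
    by_contra h
    exact hcon ⟨γ, h⟩
  have e1 := el_val 1 (by decide +kernel) ![1, 2, 0] ![1, 2, 0] (by decide +kernel)
    (by decide +kernel) X hX
  have e2 := el_val (kM 0 0 1) (by decide +kernel) ![2, 1, 0] ![2, 1, 0] (by decide +kernel)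
    (by decide +kernel) X hX
  have e3 := el_val (sM 1) (by decide +kernel) ![3, 2, 2] ![3, 2, 1] (by decide +kernel)
    (by decide +kernel) X hX
  have e4 := el_val (kM 5 0 0 * sM 1) (by decide +kernel) ![2, 2, 2] ![2, 2, 1]
    (by decide +kernel) (by decide +kernel) X hX
  have e5 := el_val (kM 0 5 0 * sM 1) (by decide +kernel) ![3, 3, 2] ![3, 3, 1]
    (by decide +kernel) (by decide +kernel) X hX
  have e6 := el_val (kM 5 5 0 * sM 1) (by decide +kernel) ![2, 3, 2] ![2, 3, 1]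
    (by decide +kernel) (by decide +kernel) X hX
  have h22 : red (X 2 2) = -red (X 0 0) - red (X 1 1) := by linear_combination htr
  rw [h10, h20, h21, h22] at e1 e2 e3 e4 e5 e6
  obtain ⟨ha, hb, hc, hd, he⟩ := fin5 (red (X 0 0)) (red (X 1 1)) (red (X 0 1)) (red (X 0 2))
    (red (X 1 2)) e1 e2 e3 e4 e5 e6
  obtain ⟨i, j, hij⟩ := hne
  apply hij
  rw [ha, hb] at h22
  rw [hc] at h10
  rw [hd] at h20
  rw [he] at h21
  fin_cases i <;> fin_cases j
  · exact ha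
  · exact hc
  · exact hd
  · exact h10
  · exact hb
  · exact he
  · exact h20.trans (mul_zero _)
  · exact h21.trans (mul_zero _)
  · exact h22.trans (by decide)

private theorem fin3 : ∀ c d e : ZMod 5,
    (1 * (0 * 0 + c * 0 + d * 1) + 2 * (-c * 0 + 0 * 0 + e * 1) +
      0 * (2 * d * 0 + 2 * e * 0 + 0 * 1) = 0) →
    (2 * (0 * 0 + c * 0 + d * 1) + 1 * (-c * 0 + 0 * 0 + e * 1) +
      0 * (2 * d * 0 + 2 * e * 0 + 0 * 1) = 0) →
    (3 * (0 * 2 + c * 0 + d * 3) + 2 * (-c * 2 + 0 * 0 + e * 3) +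
      3 * (2 * d * 2 + 2 * e * 0 + 0 * 3) = 0) →
    c = 0 ∧ d = 0 ∧ e = 0 := by
  decide +kernel

private theorem el_vale (M : M3) (h : adj M * M = 1) (r c : Fin 3 → ZMod 5)
    (hr : ∀ k, red (M 0 k) + 2 * red (M 1 k) = r k)
    (hc : ∀ k, red (adj M k 2) = c k) (X : M3)
    (hX : ∀ γ : Gam, red ((mat γ * X * mat γ⁻¹) 0 2) + 2 * red ((mat γ * X * mat γ⁻¹) 1 2) = 0) :
    r 0 * (red (X 0 0) * c 0 + red (X 0 1) * c 1 + red (X 0 2) * c 2) +
      r 1 * (red (X 1 0) * c 0 + red (X 1 1) * c 1 + red (X 1 2) * c 2) +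
      r 2 * (red (X 2 0) * c 0 + red (X 2 1) * c 1 + red (X 2 2) * c 2) = 0 := by
  have h1 := hX (mkG M h)
  rw [val_e, mat_inv, mat_mkG, hr, hr, hr, hc, hc, hc] at h1
  exact h1

theorem even_sel (X : M3) (h00 : red (X 0 0) = 0) (h11 : red (X 1 1) = 0)
    (h22 : red (X 2 2) = 0) (h10 : red (X 1 0) = -red (X 0 1))
    (h20 : red (X 2 0) = 2 * red (X 0 2)) (h21 : red (X 2 1) = 2 * red (X 1 2))
    (hne : ∃ i j, red (X i j) ≠ 0) :
    ∃ γ : Gam, red ((mat γ * X * mat γ⁻¹) 0 2) + 2 * red ((mat γ * X * mat γ⁻¹) 1 2) ≠ 0 := by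
  by_contra hcon
  have hX : ∀ γ : Gam, red ((mat γ * X * mat γ⁻¹) 0 2) + 2 * red ((mat γ * X * mat γ⁻¹) 1 2) =
      0 := by
    intro γ
    by_contra h
    exact hcon ⟨γ, h⟩
  have e1 := el_vale 1 (by decide +kernel) ![1, 2, 0] ![0, 0, 1] (by decide +kernel)
    (by decide +kernel) X hX
  have e2 := el_vale (kM 0 0 1) (by decide +kernel) ![2, 1, 0] ![0, 0, 1] (by decide +kernel)
    (by decide +kernel) X hX
  have e3 := el_vale (sM 1) (by decide +kernel) ![3, 2, 3] ![2, 0, 3] (by decide +kernel)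
    (by decide +kernel) X hX
  rw [h10, h20, h21, h22, h00, h11] at e1 e2 e3
  obtain ⟨hc, hd, he⟩ := fin3 (red (X 0 1)) (red (X 0 2)) (red (X 1 2)) e1 e2 e3
  obtain ⟨i, j, hij⟩ := hne
  apply hij
  rw [hc] at h10
  rw [hd] at h20
  rw [he] at h21
  fin_cases i <;> fin_cases j
  · exact h00
  · exact hc
  · exact hd
  · exact h10.trans neg_zero
  · exact h11
  · exact he
  · exact h20.trans (mul_zero _)
  · exact h21.trans (mul_zero _)
  · exact h22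

end H84.AR
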