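import Pool.Agent.H84.AR.HekB
import Pool.Agent.H84.AR.LevS
import Pool.Agent.H84.AR.Sel
import Pool.Agent.H84.AR.Pur

/-!
# RedL: elements of level at least three are detected

* `red_odd`, induction on `n`, `k = 2 n + 3`: `lev_tr`, `lev_odd`, `odd_sel` give `γ`; replace `g` by `γ g γ⁻¹` (`lev_conj`,
  `det_conj`); let `f ≠ 0` be the value for `X`. `hek`: `g'` with `mat g' = 1 + pp ^ (k - 2) • Y`, `Y = -zt • (Cc * X * Cc')`,
  entries of `red Y` by `hek_red`. `det_HR`: it is enough to show `Det g'`. If `k = 3`: `pp ^ 1 = pp`, `pure_trans` (with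
  `-f`) and `det_of_trans`. If `k ≥ 5`: the induction hypothesis for `g'` (`red (Y 0 0) = -f ≠ 0`).
* `red_even`: `k ≥ 4` even: `lev_even`, `even_sel`, `lev_conj`, `lev_even` again for `γ g γ⁻¹`
  (so `x 0 0 + 2 x 0 1 + 2 x 1 0 + 4 x 1 1 = 0`), `hek`, `hek_even`: `mat g' = 1 + pp ^ (k - 2) • (pp • X')`, i.e.
  `1 + pp ^ (k - 1) • X'` with `red (X' 0 2) ≠ 0`; `red_odd` for `g'` (`k - 1 = 2 n + 3`), `det_HR`, `det_conj`.
* `det3`: let `g ≠ 1` be in `lev 3`. By `inf_pp` there is `k` with `g ∉ lev k` (otherwise all entries of `mat g - 1` are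
  divisible by all powers of `pp`, so `mat g = 1`, `mat_inj`). Take the largest `k ≥ 3` with `g ∈ lev k`
  (`lev` is decreasing), `mat g = 1 + pp ^ k • X`; if all `red (X i j) = 0` then `X = pp • X'` (`dvd_iff_red`) and
  `g ∈ lev (k + 1)`.
-/

set_option autoImplicit false

namespace H84.AR

open O5

theorem red_odd {C : Gam →* Equiv.Perm Pt} (hC : HC C) (n : ℕ) : ∀ (g : Gam) (X : M3),
    mat g = 1 + pp ^ (2 * n + 3) • X → (∃ i j, red (X i j) ≠ 0) → Det g := by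
  induction n with
  | zero =>
    intro g X h hne
    have hk : 2 ≤ 2 * 0 + 3 := by omega
    have htr := lev_tr g _ hk X h
    obtain ⟨h10, h20, h21⟩ := lev_odd g _ hk ⟨0 + 1, by omega⟩ X h
    obtain ⟨γ, hγ⟩ := odd_sel X h10 h20 h21 htr hne
    apply det_conj γ g
    obtain ⟨g', hR, hg'⟩ := hek (γ * g * γ⁻¹) _ hk _ (lev_conj γ g _ X h)
    apply det_HR hR
    obtain ⟨r00, r01, r10, r11, -, -, -, -, r22⟩ := hek_red (mat γ * X * mat γ⁻¹) _ rfl
    set f := red ((mat γ * X * mat γ⁻¹) 0 0) + 2 * red ((mat γ * X * mat γ⁻¹) 0 1) +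
      2 * red ((mat γ * X * mat γ⁻¹) 1 0) + 4 * red ((mat γ * X * mat γ⁻¹) 1 1) with hf
    have e1 : pp ^ (2 * 0 + 3 - 2) = pp := pow_one pp
    rw [e1] at hg'
    obtain ⟨t, ht, hx⟩ := pure_trans hC g' _ hg' (-f) (neg_ne_zero.2 hγ) r00
      (by rw [r01]; ring) (by rw [r10]; ring) (by rw [r11]; ring) r22
    exact det_of_trans hC g' t ht hx
  | succ n ih =>
    intro g X h hne
    have hk : 2 ≤ 2 * (n + 1) + 3 := by omega
    have htr := lev_tr g _ hk X h
    obtain ⟨h10, h20, h21⟩ := lev_odd g _ hk ⟨n + 1 + 1, by omega⟩ X h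
    obtain ⟨γ, hγ⟩ := odd_sel X h10 h20 h21 htr hne
    apply det_conj γ g
    obtain ⟨g', hR, hg'⟩ := hek (γ * g * γ⁻¹) _ hk _ (lev_conj γ g _ X h)
    apply det_HR hR
    obtain ⟨r00, -⟩ := hek_red (mat γ * X * mat γ⁻¹) _ rfl
    have e1 : 2 * (n + 1) + 3 - 2 = 2 * n + 3 := by omega
    rw [e1] at hg'
    exact ih g' _ hg' ⟨0, 0, by rw [r00]; exact neg_ne_zero.2 hγ⟩

theorem red_even {C : Gam →* Equiv.Perm Pt} (hC : HC C) (n : ℕ) (g : Gam) (X : M3)
    (h : mat g = 1 + pp ^ (2 * n + 4) • X) (hne : ∃ i j, red (X i j) ≠ 0) : Det g := by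
  have hk : 2 ≤ 2 * n + 4 := by omega
  have hev : Even (2 * n + 4) := ⟨n + 2, by omega⟩
  obtain ⟨h00, h11, h22, h10, h20, h21⟩ := lev_even g _ hk hev X h
  obtain ⟨γ, hγ⟩ := even_sel X h00 h11 h22 h10 h20 h21 hne
  apply det_conj γ g
  have h' := lev_conj γ g _ X h
  obtain ⟨k00, k11, -, k10, -, -⟩ := lev_even _ _ hk hev _ h'
  obtain ⟨g', hR, hg'⟩ := hek (γ * g * γ⁻¹) _ hk _ h'
  apply det_HR hR
  obtain ⟨X', hX', hr⟩ := hek_even (mat γ * X * mat γ⁻¹) (by rw [k00, k11, k10]; ring)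
  have e1 : 2 * n + 4 - 2 = 2 * n + 2 := by omega
  rw [e1, hX', smul_smul, ← pow_succ] at hg'
  exact red_odd hC n g' X' hg' ⟨0, 2, by rw [hr]; exact hγ⟩

theorem det3 {C : Gam →* Equiv.Perm Pt} (hC : HC C) (g : Gam) (h3 : g ∈ lev 3) (h1 : g ≠ 1) :
    Det g := by
  have hex : ∃ k : ℕ, 3 ≤ k ∧ g ∈ lev k ∧ g ∉ lev (k + 1) := by
    by_contra hcon
    push Not at hcon
    apply h1
    have hall : ∀ j : ℕ, g ∈ lev (3 + j) := by
      intro j
      induction j with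
      | zero => exact h3
      | succ j ih => exact hcon (3 + j) (by omega) ih
    apply mat_inj
    rw [mat_one]
    ext1 i j
    rw [← sub_eq_zero]
    apply inf_pp
    intro k
    obtain ⟨X, hX⟩ := hall k
    rw [hX, Matrix.add_apply, add_sub_cancel_left, Matrix.smul_apply, smul_eq_mul]
    exact Dvd.dvd.mul_right (pow_dvd_pow pp (by omega)) _
  obtain ⟨k, hk3, ⟨X, hX⟩, hk'⟩ := hex
  have hne : ∃ i j, red (X i j) ≠ 0 := by
    by_contra hcon
    push Not at hcon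
    apply hk'
    have hd : ∀ i j, ∃ y, X i j = pp * y := fun i j => (dvd_iff_red (X i j)).2 (hcon i j)
    choose Y hY using hd
    refine ⟨Matrix.of Y, ?_⟩
    rw [hX, pow_succ, mul_smul]
    have e : X = pp • Matrix.of Y := by
      ext1 i j
      rw [Matrix.smul_apply, smul_eq_mul]
      exact hY i j
    rw [← e]
  rcases Nat.even_or_odd' k with ⟨m, hm | hm⟩
  · obtain ⟨n, rfl⟩ : ∃ n, m = n + 2 := ⟨m - 2, by omega⟩
    have e : k = 2 * n + 4 := by omega
    rw [e] at hX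
    exact red_even hC n g X hX hne
  · obtain ⟨n, rfl⟩ : ∃ n, m = n + 1 := ⟨m - 1, by omega⟩
    have e : k = 2 * n + 3 := by omega
    rw [e] at hX
    exact red_odd hC n g X hX hne

end H84.AR
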