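import Pool.Agent.H84.AR.NF
import Pool.Agent.H84.AR.ChkAll

/-!
# RelA: the products `s_i k s_j`

Put `k = 20 a + 2 b + s < 200` and use `chk_all`. If `i = 0` or `j = 0` the product is in `RR`
(`pS 0 = 1`: `gS 0 = 1` by `mat_inj`, `qS 0 = 1` by `act_one`). Otherwise `chk i j k = true`.
Flat matrices: `toM : Mt → M3`, `toM ⟨x0, …, z2⟩ = !![x0, x1, x2; y0, y1, y2; z0, z1, z2]` is injective
and compatible with `Mt.mul`, `Mt.mulK`, `Mt.kMul`, `Mt.scl`; `toM (sT l) = sM l`.
* digit `0`: then `nP`, `nQ` of the entry `(2, 2)` of `s_i k s_j` is not `(1,0)`, `(1,1)`, `(3,4)`, and if it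
  is `(2,3)` then one of the entries `(0, 2)`, `(1, 2)` vanishes. If the product were in `InS`, i.e.
  `mat = ρ^u • (kM a b s * sM l * kM a' b' s')` (`mat_nf`), then its third column is
  `ρ^u kM a b s` times the third column of `sM l` (as `kM a' b' s' e₃ = e₃`), so the entry `(2, 2)` has the
  norm of the entry of `sM l`: `(1,0)`, `(1,1)`, `(2,3)`, `(3,4)` for `l = 0, 1, 2, 3` (`nn_mu_mul`), and for
  `l = 2` the entries `(0, 2)`, `(1, 2)` are not zero. This is `notInS`.
* digit `n + 1`: the matrix equation gives `gS i * (nf 0 a b s).1 * gS j = …` (`mat_inj`), the test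
  `Af.eqb` gives the equation of the maps (`act_nf`, `Af.act_of_eqb`).
-/

set_option autoImplicit false

namespace H84.AR

open O5

/-- flat matrices as matrices -/
private def toM (m : Mt) : M3 := !![m.x0, m.x1, m.x2; m.y0, m.y1, m.y2; m.z0, m.z1, m.z2]

private theorem toM_mul (M N : Mt) : toM (Mt.mul M N) = toM M * toM N := by
  ext1 i j
  fin_cases i <;> fin_cases j <;> simp [toM, Mt.mul, Matrix.mul_apply, Fin.sum_univ_three]

private theorem toM_mulK (M : Mt) (a b s : ℕ) : toM (Mt.mulK M a b s) = toM M * kM a b s := by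
  unfold Mt.mulK kM
  split_ifs
  · ext1 i j
    fin_cases i <;> fin_cases j <;> simp [toM, Matrix.mul_apply, Fin.sum_univ_three]
  · ext1 i j
    fin_cases i <;> fin_cases j <;> simp [toM, Matrix.mul_apply, Fin.sum_univ_three]

private theorem toM_kMul (M : Mt) (a b s : ℕ) : toM (Mt.kMul a b s M) = kM a b s * toM M := by
  unfold Mt.kMul kM
  split_ifs
  · ext1 i j
    fin_cases i <;> fin_cases j <;> simp [toM, Matrix.mul_apply, Fin.sum_univ_three]
  · ext1 i j
    fin_cases i <;> fin_cases j <;> simp [toM, Matrix.mul_apply, Fin.sum_univ_three]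

private theorem toM_scl (u : ℕ) (M : Mt) : toM (Mt.scl u M) = mu u • toM M := by
  ext1 i j
  fin_cases i <;> fin_cases j <;> simp [toM, Mt.scl]

private theorem toM_sT (l : ℕ) (hl : l < 4) : toM (sT l) = sM l := by
  interval_cases l
  · ext1 i j
    fin_cases i <;> fin_cases j <;> rfl
  · rfl
  · rfl
  · rfl

private theorem kM_congr (a b s s' : ℕ) (h : s % 2 = s' % 2) : kM a b s = kM a b s' := by
  unfold kM
  rw [h]

private theorem nf_zero : nf 0 0 0 0 = 1 := by
  unfold nf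
  simp

private theorem pS_zero : pS 0 = 1 := by
  unfold pS
  refine Prod.ext ?_ ?_
  · apply mat_inj
    rfl
  · apply Equiv.ext
    intro x
    exact act_one x

private theorem mu_mul_ne (a : ℕ) (x : O5) (hx : nP x ≠ 0) : mu a * x ≠ 0 := by
  intro h
  apply hx
  rw [← (nn_mu_mul a x).1, h]
  rfl

private theorem kM_col (X : M3) (a b s : ℕ) (i : Fin 3) : (X * kM a b s) i 2 = X i 2 := by
  unfold kM
  split_ifs <;> simp [Matrix.mul_apply, Fin.sum_univ_three]

private theorem kM_row2 (X : M3) (a b s : ℕ) (j : Fin 3) : (kM a b s * X) 2 j = X 2 j := by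
  unfold kM
  split_ifs <;> simp [Matrix.mul_apply, Fin.sum_univ_three]

private theorem kM_row0 (X : M3) (a b s : ℕ) (j : Fin 3) :
    (kM a b s * X) 0 j = mu a * X 0 j ∨ (kM a b s * X) 0 j = mu a * X 1 j := by
  unfold kM
  split_ifs
  · left; simp [Matrix.mul_apply, Fin.sum_univ_three]
  · right; simp [Matrix.mul_apply, Fin.sum_univ_three]

private theorem kM_row1 (X : M3) (a b s : ℕ) (j : Fin 3) :
    (kM a b s * X) 1 j = mu b * X 0 j ∨ (kM a b s * X) 1 j = mu b * X 1 j := by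
  unfold kM
  split_ifs
  · right; simp [Matrix.mul_apply, Fin.sum_univ_three]
  · left; simp [Matrix.mul_apply, Fin.sum_univ_three]

private theorem mat_pS (l : Fin 4) : mat (pS l).1 = sM l := rfl

/-- a necessary condition for `InS` in terms of the third column -/
theorem col_of_InS {g : Gam} (h : InS g) :
    (nP (mat g 2 2) = 1 ∧ nQ (mat g 2 2) = 0) ∨ (nP (mat g 2 2) = 1 ∧ nQ (mat g 2 2) = 1) ∨
    (nP (mat g 2 2) = 3 ∧ nQ (mat g 2 2) = 4) ∨
    (nP (mat g 2 2) = 2 ∧ nQ (mat g 2 2) = 3 ∧ mat g 0 2 ≠ 0 ∧ mat g 1 2 ≠ 0) := by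
  obtain ⟨r, ⟨u, a, b, s, l, a', b', s', rfl⟩, rfl⟩ := h
  have h0 : mat (nf u a b s * pS l * nf 0 a' b' s').1 =
      mu u • (kM a b s * sM l * kM a' b' s') := by
    show mat ((nf u a b s).1 * (pS l).1 * (nf 0 a' b' s').1) = _
    rw [mat_mul, mat_mul, mat_nf, mat_nf, mat_pS]
    have : mu 0 = 1 := rfl
    rw [this, one_smul, Matrix.smul_mul, Matrix.smul_mul]
  rw [h0]
  simp only [Matrix.smul_apply, smul_eq_mul, kM_col, kM_row2]
  have h2 : ∀ x : O5, nP (mu u * x) = nP x ∧ nQ (mu u * x) = nQ x := nn_mu_mul u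
  rw [(h2 _).1, (h2 _).2]
  fin_cases l
  · left
    exact ⟨by decide, by decide⟩
  · right; left
    exact ⟨by decide, by decide⟩
  · right; right; right
    refine ⟨by decide, by decide, ?_, ?_⟩
    · rcases kM_row0 (sM 2) a b s 2 with h | h
      · show mu u * (kM a b s * sM 2) 0 2 ≠ 0
        rw [h]
        apply mu_mul_ne
        rw [(nn_mu_mul a _).1]
        decide
      · show mu u * (kM a b s * sM 2) 0 2 ≠ 0
        rw [h]
        apply mu_mul_ne
        rw [(nn_mu_mul a _).1]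
        decide
    · rcases kM_row1 (sM 2) a b s 2 with h | h
      · show mu u * (kM a b s * sM 2) 1 2 ≠ 0
        rw [h]
        apply mu_mul_ne
        rw [(nn_mu_mul b _).1]
        decide
      · show mu u * (kM a b s * sM 2) 1 2 ≠ 0
        rw [h]
        apply mu_mul_ne
        rw [(nn_mu_mul b _).1]
        decide
  · right; right; left
    exact ⟨by decide, by decide⟩

theorem relA (i j : Fin 4) (a b s : ℕ) (ha : a < 10) (hb : b < 10) (hs : s < 2) :
    pS i * nf 0 a b s * pS j ∈ RR ∨ ¬ InS (pS i * nf 0 a b s * pS j).1 := by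
  by_cases hi : i = 0
  · left
    subst hi
    refine ⟨0, a, b, s, j, 0, 0, 0, ?_⟩
    rw [pS_zero, one_mul, nf_zero, mul_one]
  by_cases hj : j = 0
  · left
    subst hj
    refine ⟨0, 0, 0, 0, i, a, b, s, ?_⟩
    rw [pS_zero, mul_one, nf_zero, one_mul]
  have hi1 : 1 ≤ (i : ℕ) := Nat.one_le_iff_ne_zero.2 (fun h => hi (Fin.ext h))
  have hj1 : 1 ≤ (j : ℕ) := Nat.one_le_iff_ne_zero.2 (fun h => hj (Fin.ext h))
  have hi2 : (i : ℕ) < 4 := i.2
  have hj2 : (j : ℕ) < 4 := j.2
  obtain ⟨k, hk⟩ : ∃ k, k = 20 * a + 2 * b + s := ⟨_, rfl⟩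
  have hk2 : k < 200 := by omega
  have hka : k / 20 = a := by omega
  have hkb : k / 2 % 10 = b := by omega
  have hks : k % 2 = s % 2 := by omega
  have hchk := chk_all i j hi1 (by omega) hj1 (by omega) k hk2
  have hmat : mat (pS i * nf 0 a b s * pS j).1 = sM i * kM a b s * sM j := by
    show mat ((pS i).1 * (nf 0 a b s).1 * (pS j).1) = _
    rw [mat_mul, mat_mul, mat_nf, mat_pS, mat_pS]
    have : mu 0 = 1 := rfl
    rw [this, one_smul]
  have hM : toM (Mt.mul (Mt.mulK (sT i) (k / 20) (k / 2 % 10) k) (sT j)) =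
      sM i * kM a b s * sM j := by
    rw [toM_mul, toM_mulK, toM_sT _ hi2, toM_sT _ hj2, hka, hkb, kM_congr a b k s hks]
  unfold chk at hchk
  revert hchk
  generalize hMM : Mt.mul (Mt.mulK (sT i) (k / 20) (k / 2 % 10) k) (sT j) = MM at *
  cases hd : dig 21 (tabN i j) k with
  | zero =>
    intro hchk
    right
    intro hIn
    have hc := col_of_InS hIn
    rw [hmat, ← hM] at hc
    have e22 : (toM MM) 2 2 = MM.z2 := rfl
    have e02 : (toM MM) 0 2 = MM.x2 := rfl
    have e12 : (toM MM) 1 2 = MM.y2 := rfl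
    rw [e22, e02, e12] at hc
    simp only [Bool.and_eq_true, Bool.or_eq_true, Bool.not_eq_true', Bool.and_eq_false_iff,
      beq_eq_false_iff_ne, decide_eq_true_eq, ne_eq] at hchk
    obtain ⟨⟨⟨h1, h2⟩, h3⟩, h4⟩ := hchk
    rcases hc with hc | hc | hc | hc
    · rcases h1 with h | h
      · exact h hc.1
      · exact h hc.2
    · rcases h2 with h | h
      · exact h hc.1
      · exact h hc.2
    · rcases h3 with h | h
      · exact h hc.1
      · exact h hc.2
    · rcases h4 with (h | h) | h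
      · rcases h with h | h
        · exact h hc.1
        · exact h hc.2.1
      · exact hc.2.2.1 h
      · exact hc.2.2.2 h
  | succ n =>
    intro hchk
    left
    simp only [Bool.and_eq_true, decide_eq_true_eq] at hchk
    obtain ⟨⟨h1, h2⟩, h3⟩ := hchk
    obtain ⟨k1, hk1⟩ : ∃ k1, k1 = n / 10 % 200 := ⟨_, rfl⟩
    obtain ⟨k2, hk2'⟩ : ∃ k2, k2 = n / 8000 := ⟨_, rfl⟩
    obtain ⟨l, hl⟩ : ∃ l : Fin 4, (l : ℕ) = n / 2000 % 4 := ⟨⟨n / 2000 % 4, by omega⟩, rfl⟩
    rw [← hk1, ← hk2', ← hl] at h1 h2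
    rw [← hk2'] at h3
    have hk1lt : k1 < 200 := by omega
    refine ⟨n % 10, k1 / 20, k1 / 2 % 10, k1 % 2, l, k2 / 20, k2 / 2 % 10, k2 % 2, ?_⟩
    refine Prod.ext ?_ ?_
    · apply mat_inj
      rw [hmat, ← hM, h1, toM_scl, toM_kMul, toM_mulK, toM_sT _ l.2]
      show _ = mat ((nf (n % 10) (k1 / 20) (k1 / 2 % 10) (k1 % 2)).1 * (pS l).1 *
        (nf 0 (k2 / 20) (k2 / 2 % 10) (k2 % 2)).1)
      rw [mat_mul, mat_mul, mat_nf, mat_nf, mat_pS]
      have : mu 0 = 1 := rfl
      rw [this, one_smul, Matrix.smul_mul, Matrix.smul_mul, Matrix.mul_assoc,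
        kM_congr (k1 / 20) (k1 / 2 % 10) k1 (k1 % 2) (by omega),
        kM_congr (k2 / 20) (k2 / 2 % 10) k2 (k2 % 2) (by omega)]
    · apply Equiv.ext
      intro x
      show (qS i) ((nf 0 a b s).2 ((qS j) x)) =
        (nf (n % 10) (k1 / 20) (k1 / 2 % 10) (k1 % 2)).2 ((qS l)
          ((nf 0 (k2 / 20) (k2 / 2 % 10) (k2 % 2)).2 x))
      rw [act_nf 0 a b s ha hb hs, act_nf _ (k1 / 20) (k1 / 2 % 10) (k1 % 2) (by omega)
        (by omega) (by omega), act_nf 0 (k2 / 20) (k2 / 2 % 10) (k2 % 2) (by omega) (by omega)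
        (by omega)]
      have e1 : 20 * a + 2 * b + s = k := hk.symm
      have e2 : 20 * (k1 / 20) + 2 * (k1 / 2 % 10) + k1 % 2 = k1 := by omega
      have e3 : 20 * (k2 / 20) + 2 * (k2 / 2 % 10) + k2 % 2 = k2 := by omega
      rw [e1, e2, e3]
      show (aS i).act ((aK k).act ((aS j).act x)) = (aK k1).act ((aS l).act ((aK k2).act x))
      rw [← Af.act_comp, ← Af.act_comp, ← Af.act_comp, ← Af.act_comp]
      exact Af.act_of_eqb h2 x

end H84.AR
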