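import Pool.Agent.H84.AR.Elt
import Pool.Agent.H84.AR.Emb
import Pool.Agent.H89.SG.FromMat

/-!
# Rho: the action of `Gam` on the unit ball

`rho g = D (e1 g) D⁻¹`, `D = diag (1, 1, √φ)`, so that the form `diag (1, 1, -φ)` becomes
`diag (1, 1, -1)`. `rho_UM`: write `adj (mat g) * mat g = 1` entrywise (multiply by `Hh`:
`star (g 0 i) * g 0 j + star (g 1 i) * g 1 j - ph * star (g 2 i) * g 2 j = Hh i j`, lemma `uni`), apply
`e1` (`e1_star`, `e1_ph`) and multiply by the scaling factors (`sq * sq = φ`).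
`col_eq`: `uni` for `i = j = 2` reads `N v₀ + N v₁ - φ N v₂ = -φ` with `N x = nP x + nQ x φ` (`mul_star`),
`φ² = φ + 1`; compare the coordinates `a` and `c` in `O5`.
`e2_bd`: apply `e2` to `uni` for `i = j`: `|g 0 i|² + |g 1 i|² + |ψ| |g 2 i|² = 1` or `|ψ|`, where
`ψ = Real.goldenConj < 0`, `|ψ| > 0.6`.
-/

set_option autoImplicit false

namespace H84.AR

open O5 Complex Pool.Agent.H89.SG

/-- `√φ` -/
noncomputable def sq : ℝ := √Real.goldenRatio

theorem sq_pos : 0 < sq := Real.sqrt_pos.2 Real.goldenRatio_pos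

theorem sq_sq : sq * sq = Real.goldenRatio := Real.mul_self_sqrt Real.goldenRatio_pos.le

/-- the scaling vector -/
noncomputable def dv (i : Fin 3) : ℂ := if i = 2 then (sq : ℂ) else 1

theorem dv_ne (i : Fin 3) : dv i ≠ 0 := by
  unfold dv
  split_ifs
  · exact_mod_cast sq_pos.ne'
  · exact one_ne_zero

/-- the representation -/
noncomputable def rho : Gam →* Matrix (Fin 3) (Fin 3) ℂ where
  toFun g := Matrix.of fun i j => dv i * e1 (mat g i j) * (dv j)⁻¹
  map_one' := by
    ext i j
    rw [Matrix.of_apply, mat_one]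
    by_cases h : i = j
    · subst h
      rw [Matrix.one_apply_eq, Matrix.one_apply_eq, map_one, mul_one, mul_inv_cancel₀ (dv_ne i)]
    · rw [Matrix.one_apply_ne h, Matrix.one_apply_ne h, map_zero, mul_zero, zero_mul]
  map_mul' g h := by
    ext i j
    rw [Matrix.of_apply, mat_mul, Matrix.mul_apply, Matrix.mul_apply, map_sum, Finset.mul_sum,
      Finset.sum_mul]
    refine Finset.sum_congr rfl fun k _ => ?_
    rw [Matrix.of_apply, Matrix.of_apply, map_mul]
    have := dv_ne k
    field_simp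

theorem rho_apply (g : Gam) (i j : Fin 3) : rho g i j = dv i * e1 (mat g i j) * (dv j)⁻¹ := rfl

/-- the unitarity relations -/
theorem uni (g : Gam) (i j : Fin 3) : star (mat g 0 i) * mat g 0 j + star (mat g 1 i) * mat g 1 j -
    ph * (star (mat g 2 i) * mat g 2 j) = Hh i j := by
  have h0 : (mat g).conjTranspose * Hh * mat g = Hh := by
    have h1 := adj_mat g
    unfold adj at h1
    calc (mat g).conjTranspose * Hh * mat g
        = Hh * Hi * (mat g).conjTranspose * Hh * mat g := by rw [Hh_Hi, one_mul]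
      _ = Hh * (Hi * (mat g).conjTranspose * Hh * mat g) := by simp only [mul_assoc]
      _ = Hh := by rw [h1, mul_one]
  have h2 := congrFun (congrFun h0 i) j
  rw [Matrix.mul_apply, Fin.sum_univ_three] at h2
  simp only [Matrix.mul_apply, Fin.sum_univ_three, Matrix.conjTranspose_apply] at h2
  rw [← h2]
  have H00 : Hh 0 0 = 1 := rfl
  have H01 : Hh 0 1 = 0 := rfl
  have H02 : Hh 0 2 = 0 := rfl
  have H10 : Hh 1 0 = 0 := rfl
  have H11 : Hh 1 1 = 1 := rfl
  have H12 : Hh 1 2 = 0 := rfl
  have H20 : Hh 2 0 = 0 := rfl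
  have H21 : Hh 2 1 = 0 := rfl
  have H22 : Hh 2 2 = -ph := rfl
  rw [H00, H01, H02, H10, H11, H12, H20, H21, H22]
  ring

theorem rho_UM (g : Gam) : UM (rho g) := by
  unfold UM Jm
  ext i j
  have hc : ∀ i, (starRingEnd ℂ) (dv i) = dv i := by
    intro i
    unfold dv
    split_ifs
    · exact Complex.conj_ofReal _
    · exact map_one _
  have hd0 : dv 0 = 1 := if_neg (by decide)
  have hd1 : dv 1 = 1 := if_neg (by decide)
  have hd2 : dv 2 * dv 2 = (Real.goldenRatio : ℂ) := by
    have h1 : dv 2 = (sq : ℂ) := if_pos rfl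
    rw [h1, ← Complex.ofReal_mul, sq_sq]
  have h := congrArg e1 (uni g i j)
  simp only [map_sub, map_add, map_mul, e1_star, e1_ph] at h
  have hk : e1 (Hh i j) = dv i * dv j * (Matrix.diagonal ![(1 : ℂ), 1, -1]) i j := by
    fin_cases i <;> fin_cases j
    · show e1 1 = dv 0 * dv 0 * 1
      rw [map_one, hd0]
      ring
    · show e1 0 = dv 0 * dv 1 * 0
      rw [map_zero, mul_zero]
    · show e1 0 = dv 0 * dv 2 * 0
      rw [map_zero, mul_zero]
    · show e1 0 = dv 1 * dv 0 * 0
      rw [map_zero, mul_zero]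
    · show e1 1 = dv 1 * dv 1 * 1
      rw [map_one, hd1]
      ring
    · show e1 0 = dv 1 * dv 2 * 0
      rw [map_zero, mul_zero]
    · show e1 0 = dv 2 * dv 0 * 0
      rw [map_zero, mul_zero]
    · show e1 0 = dv 2 * dv 1 * 0
      rw [map_zero, mul_zero]
    · show e1 (-ph) = dv 2 * dv 2 * (-1)
      rw [map_neg, e1_ph, hd2]
      ring
  rw [hk] at h
  rw [Matrix.mul_apply, Fin.sum_univ_three]
  simp only [Matrix.mul_diagonal, Matrix.conjTranspose_apply, rho_apply]
  have hs : ∀ z : ℂ, star z = (starRingEnd ℂ) z := fun _ => rfl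
  simp only [hs, map_mul, map_inv₀, hc, hd0, hd1, map_one]
  have k0 : (![(1 : ℂ), 1, -1]) 0 = 1 := rfl
  have k1 : (![(1 : ℂ), 1, -1]) 1 = 1 := rfl
  have k2 : (![(1 : ℂ), 1, -1]) 2 = -1 := rfl
  rw [k0, k1, k2]
  have hi := dv_ne i
  have hj := dv_ne j
  have hfin : (Matrix.diagonal ![(1 : ℂ), 1, -1]) i j =
      (dv i)⁻¹ * (dv j)⁻¹ * ((starRingEnd ℂ) (e1 (mat g 0 i)) * e1 (mat g 0 j) +
        (starRingEnd ℂ) (e1 (mat g 1 i)) * e1 (mat g 1 j) -
        (Real.goldenRatio : ℂ) * ((starRingEnd ℂ) (e1 (mat g 2 i)) * e1 (mat g 2 j))) := by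
    rw [h]
    field_simp
  rw [hfin, ← hd2]
  ring

/-- norms in the third column -/
theorem col_eq (g : Gam) : nP (mat g 0 2) + nP (mat g 1 2) = nQ (mat g 2 2) ∧
    nQ (mat g 0 2) + nQ (mat g 1 2) = nP (mat g 2 2) + nQ (mat g 2 2) - 1 := by
  have h := uni g 2 2
  have H22 : Hh 2 2 = -ph := rfl
  have hph : ph * ph = ph + 1 := by decide
  rw [H22, mul_comm (star (mat g 0 2)), mul_comm (star (mat g 1 2)), mul_comm (star (mat g 2 2)),
    mul_star, mul_star, mul_star] at h
  have h2 : ((nP (mat g 0 2) + nP (mat g 1 2) - nQ (mat g 2 2) : ℤ) : O5) +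
      ((nQ (mat g 0 2) + nQ (mat g 1 2) - nP (mat g 2 2) - nQ (mat g 2 2) + 1 : ℤ) : O5) * ph
      = 0 := by
    push_cast
    linear_combination h + (nQ (mat g 2 2) : O5) * hph
  have ha := congrArg O5.a h2
  have hb := congrArg O5.c h2
  simp only [add_def, mul_def, intCast_def, ph, zero_def] at ha hb
  constructor
  · linarith
  · linarith

theorem e2_bd (g : Gam) (i j : Fin 3) : normSq (e2 (mat g i j)) ≤ 2 := by
  have h := congrArg e2 (uni g j j)
  simp only [map_sub, map_add, map_mul, e2_star, e2_ph] at h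
  rw [← Complex.normSq_eq_conj_mul_self, ← Complex.normSq_eq_conj_mul_self,
    ← Complex.normSq_eq_conj_mul_self] at h
  have hneg := Real.goldenConj_neg
  have hadd := Real.goldenRatio_add_goldenConj
  have hmul := Real.goldenRatio_mul_goldenConj
  have hlt : Real.goldenConj ≤ -(1 / 2) := by
    have h1 : Real.goldenConj ^ 2 = Real.goldenConj + 1 := by
      nlinarith
    nlinarith
  have hgt : -1 < Real.goldenConj := Real.neg_one_lt_goldenConj
  have hr : Complex.normSq (e2 (mat g 0 j)) + Complex.normSq (e2 (mat g 1 j)) -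
      Real.goldenConj * Complex.normSq (e2 (mat g 2 j)) ≤ 1 := by
    have hcases : e2 (Hh j j) = ((1 : ℝ) : ℂ) ∨ e2 (Hh j j) = ((-Real.goldenConj : ℝ) : ℂ) := by
      fin_cases j
      · left
        show e2 1 = _
        rw [map_one, Complex.ofReal_one]
      · left
        show e2 1 = _
        rw [map_one, Complex.ofReal_one]
      · right
        show e2 (-ph) = _
        rw [map_neg, e2_ph, Complex.ofReal_neg]
    rcases hcases with h1 | h1
    · rw [h1] at h
      have h2 : Complex.normSq (e2 (mat g 0 j)) + Complex.normSq (e2 (mat g 1 j)) -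
        Real.goldenConj * Complex.normSq (e2 (mat g 2 j)) = 1 := by exact_mod_cast h
      linarith
    · rw [h1] at h
      have h2 : Complex.normSq (e2 (mat g 0 j)) + Complex.normSq (e2 (mat g 1 j)) -
        Real.goldenConj * Complex.normSq (e2 (mat g 2 j)) = -Real.goldenConj := by exact_mod_cast h
      linarith
  have n0 := Complex.normSq_nonneg (e2 (mat g 0 j))
  have n1 := Complex.normSq_nonneg (e2 (mat g 1 j))
  have n2 := Complex.normSq_nonneg (e2 (mat g 2 j))
  have hm : 1 / 2 * Complex.normSq (e2 (mat g 2 j)) ≤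
      -Real.goldenConj * Complex.normSq (e2 (mat g 2 j)) :=
    mul_le_mul_of_nonneg_right (by linarith) n2
  fin_cases i
  · show Complex.normSq (e2 (mat g 0 j)) ≤ 2
    linarith
  · show Complex.normSq (e2 (mat g 1 j)) ≤ 2
    linarith
  · show Complex.normSq (e2 (mat g 2 j)) ≤ 2
    linarith

/-- the form `φ |z|²` of the first two coordinates of `e1` of the third column -/
theorem normSq_rho02 (g : Gam) (i : Fin 3) (hi : i ≠ 2) :
    normSq (rho g i 2) = normSq (e1 (mat g i 2)) / Real.goldenRatio := by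
  have h1 : dv 2 = (sq : ℂ) := if_pos rfl
  have h2 : dv i = 1 := if_neg hi
  rw [rho_apply, h1, h2, one_mul, map_mul, map_inv₀, Complex.normSq_ofReal, sq_sq]
  rfl

theorem rho22 (g : Gam) : rho g 2 2 = e1 (mat g 2 2) := by
  rw [rho_apply]
  have := dv_ne 2
  field_simp

end H84.AR
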