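import Pool.Agent.H84.AR.Rho

/-!
# Star: the basic identity and the polydisc `Dp`

`star_id`: for `x̂ = (x, 1)`, `e₃ = (0, 0, 1)`: `⟨M ŷ, M e₃⟩ = ⟨ŷ, e₃⟩ = -1` and
`M ŷ = den M y • (fl M y)^`, so `den M y * (z₁ conj M₀₂ + z₂ conj M₁₂ - conj M₂₂) = -1`, `z = fl M y`
(`UM.a1key`, or `UM.a1scal` and `linear_combination`), and
`(1 - nsq z) normSq (den M y) = 1 - nsq y` (`one_sub_nsq_fl`).
`col_id`: `UM.a1scal 2 2`.
`alpha_bd`: put `α = normSq M₂₂`, `u² = nsq z`, `w = conj z₁ M₀₂ + conj z₂ M₁₂`; by Cauchy-Schwarz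
`normSq w ≤ u² (α - 1)`. `1 - nsq y > 1 - 0.91/φ > 0.4375`. So `0.4375 (A - u B)² ≤ 1 - u²` with
`A = √α`, `B = √(α - 1)`, `0 ≤ u < 0.75` (`u² ≤ 0.91/φ < 0.5625`). For `α ≥ 4 + 6 φ` (`> 13.7`, so
`B > 3.56`, `A² = B² + 1`) the function `0.4375 (A - u B)² + u²` decreases in `u ∈ [0, 0.75]` and is
`> 1` at `u = 0.75` (`A - 0.75 B ≥ 1.0275` for `B ≥ 3.56`: `A - 0.75 B` increases in `B`).
`alpha_bd2`: if `M₁₂ = 0` then `w = conj z₁ M₀₂`, `normSq w = normSq z₁ (α - 1)`, `x² = normSq z₁ < 0.455/φ < 0.2813`,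
`0.4375 (A - x B)² ≤ 1 - nsq z ≤ 1 - x²`, `x < 0.5304`; for `α ≥ 6.8` (`B ≥ 2.408`) the left-hand side plus `x²` is
decreasing in `x` and at `x = 0.5304` at least `0.4375 * 1.33² + 0.2813 > 1`.
-/

set_option autoImplicit false

namespace H84.AR

open O5 Complex Pool.Agent.H89.SG
open scoped ComplexConjugate

private theorem phi_lb : (1.618 : ℝ) < Real.goldenRatio := by
  have h := Real.goldenRatio_sq
  have h0 := Real.goldenRatio_pos
  by_contra hc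
  push Not at hc
  nlinarith

/-- the complex identity -/
private theorem star_c {M : Matrix (Fin 3) (Fin 3) ℂ} (hM : UM M) (y : E) :
    conj (a1nu M 0 y) * M 0 2 + conj (a1nu M 1 y) * M 1 2 - conj (a1nu M 2 y) * M 2 2 = -1 := by
  have h02 := hM.a1scal 0 2
  have h12 := hM.a1scal 1 2
  have h22 := hM.a1scal 2 2
  simp only [Jm, Matrix.diagonal, Matrix.of_apply] at h02 h12 h22
  simp at h02 h12 h22
  unfold a1nu
  simp only [map_add, map_mul]
  linear_combination (conj y.1) * h02 + (conj y.2) * h12 + h22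

theorem star_id {M : Matrix (Fin 3) (Fin 3) ℂ} (hM : UM M) {y : E} (hy : y ∈ ball) :
    (1 - nsq y) * normSq (M 2 2 - conj (fl M y).1 * M 0 2 - conj (fl M y).2 * M 1 2) =
      1 - nsq (fl M y) := by
  have hd := den_ne hM hy
  have h1 := one_sub_nsq_fl hM hy
  have h2 := star_c hM y
  have hd' : conj (den M y) ≠ 0 := fun h => hd ((map_eq_zero _).mp h)
  have h3 : (M 2 2 - conj (fl M y).1 * M 0 2 - conj (fl M y).2 * M 1 2) * conj (den M y) = 1 := by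
    rw [fl_eq_a1nu]
    simp only [map_div₀]
    rw [den_eq_a1nu] at hd' ⊢
    field_simp
    linear_combination -h2
  have h4 : normSq (M 2 2 - conj (fl M y).1 * M 0 2 - conj (fl M y).2 * M 1 2) *
      normSq (den M y) = 1 := by
    have h5 := congrArg normSq h3
    rw [map_mul, map_one, normSq_conj] at h5
    exact h5
  rw [← h1]
  linear_combination (1 - nsq (fl M y)) * h4

theorem col_id {M : Matrix (Fin 3) (Fin 3) ℂ} (hM : UM M) :
    normSq (M 0 2) + normSq (M 1 2) = normSq (M 2 2) - 1 := by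
  have h22 := hM.a1scal 2 2
  simp only [Jm, Matrix.diagonal, Matrix.of_apply] at h22
  simp at h22
  rw [← normSq_eq_conj_mul_self, ← normSq_eq_conj_mul_self, ← normSq_eq_conj_mul_self] at h22
  have h : ((normSq (M 0 2) + normSq (M 1 2) - normSq (M 2 2) : ℝ) : ℂ) = ((-1 : ℝ) : ℂ) := by
    push_cast
    exact h22
  have h2 := Complex.ofReal_injective h
  linarith

/-- the polydisc -/
def Dp : Set E := {z | Real.goldenRatio * normSq z.1 < 0.455 ∧ Real.goldenRatio * normSq z.2 < 0.455}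

/-- bounds for the coordinates in the polydisc -/
private theorem Dp_bd {z : E} (hz : z ∈ Dp) : normSq z.1 < 0.28125 ∧ normSq z.2 < 0.28125 := by
  have h := phi_lb
  obtain ⟨h1, h2⟩ := hz
  have h3 := normSq_nonneg z.1
  have h4 := normSq_nonneg z.2
  constructor
  · by_contra hc
    push Not at hc
    nlinarith
  · by_contra hc
    push Not at hc
    nlinarith

theorem Dp_sub : Dp ⊆ ball := by
  intro z hz
  obtain ⟨h1, h2⟩ := Dp_bd hz
  show normSq z.1 + normSq z.2 < 1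
  linarith

private theorem q1 {A B u : ℝ} (hA : 0 ≤ A) (hB : 3.56 ≤ B) (hAB : A ^ 2 = B ^ 2 + 1) (hu : 0 ≤ u)
    (hu2 : u ≤ 0.75) : 1 < 0.4375 * (A - u * B) ^ 2 + u ^ 2 ∧ 0 ≤ A - u * B := by
  have h1 : 0.75 * B + 1.0275 ≤ A := by
    by_contra hc
    push Not at hc
    nlinarith
  have h2 : 1.0275 + 3.56 * (0.75 - u) ≤ A - u * B := by nlinarith
  have h3 : (1.0275 + 3.56 * (0.75 - u)) ^ 2 ≤ (A - u * B) ^ 2 := by
    apply pow_le_pow_left₀ _ h2
    linarith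
  refine ⟨?_, ?_⟩
  · nlinarith
  · linarith

private theorem q2 {A B u : ℝ} (hA : 0 ≤ A) (hB : 2.408 ≤ B) (hAB : A ^ 2 = B ^ 2 + 1) (hu : 0 ≤ u)
    (hu2 : u ≤ 0.5304) : 1 < 0.4375 * (A - u * B) ^ 2 + u ^ 2 ∧ 0 ≤ A - u * B := by
  have h1 : 0.5304 * B + 1.32 ≤ A := by
    by_contra hc
    push Not at hc
    nlinarith
  have h2 : 1.32 + 2.408 * (0.5304 - u) ≤ A - u * B := by nlinarith
  have h3 : (1.32 + 2.408 * (0.5304 - u)) ^ 2 ≤ (A - u * B) ^ 2 := by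
    apply pow_le_pow_left₀ _ h2
    linarith
  refine ⟨?_, ?_⟩
  · nlinarith
  · linarith

/-- the estimate behind both bounds -/
private theorem core {M : Matrix (Fin 3) (Fin 3) ℂ} (hM : UM M) {y : E} (hy : y ∈ Dp) {B u : ℝ}
    (hu : ‖conj (fl M y).1 * M 0 2 + conj (fl M y).2 * M 1 2‖ ≤ u * B)
    (hu3 : u ^ 2 ≤ nsq (fl M y)) (h0 : 0 ≤ ‖M 2 2‖ - u * B) :
    0.4375 * (‖M 2 2‖ - u * B) ^ 2 + u ^ 2 ≤ 1 := by
  have h1 := star_id hM (Dp_sub hy)
  obtain ⟨h2, h3⟩ := Dp_bd hy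
  have h4 : nsq y = normSq y.1 + normSq y.2 := rfl
  have h5 : ‖M 2 2‖ - u * B ≤ ‖M 2 2 - conj (fl M y).1 * M 0 2 - conj (fl M y).2 * M 1 2‖ := by
    have h6 : M 2 2 - conj (fl M y).1 * M 0 2 - conj (fl M y).2 * M 1 2 =
        M 2 2 - (conj (fl M y).1 * M 0 2 + conj (fl M y).2 * M 1 2) := by ring
    rw [h6]
    have h7 := norm_sub_norm_le (M 2 2) (conj (fl M y).1 * M 0 2 + conj (fl M y).2 * M 1 2)
    linarith
  have h6 : (‖M 2 2‖ - u * B) ^ 2 ≤
      normSq (M 2 2 - conj (fl M y).1 * M 0 2 - conj (fl M y).2 * M 1 2) := by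
    rw [normSq_eq_norm_sq]
    exact pow_le_pow_left₀ h0 h5 2
  have h7 : 0 ≤ (‖M 2 2‖ - u * B) ^ 2 := sq_nonneg _
  nlinarith

theorem alpha_bd {M : Matrix (Fin 3) (Fin 3) ℂ} (hM : UM M) {y : E} (hy : y ∈ Dp)
    (hz : fl M y ∈ Dp) : normSq (M 2 2) < 4 + 6 * Real.goldenRatio := by
  by_contra hc
  push Not at hc
  have hphi := phi_lb
  have hcol := col_id hM
  obtain ⟨h1, h2⟩ := Dp_bd hz
  have e1 : 0 ≤ normSq (M 0 2) + normSq (M 1 2) :=
    add_nonneg (normSq_nonneg _) (normSq_nonneg _)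
  have e2 : 0 ≤ nsq (fl M y) := add_nonneg (normSq_nonneg _) (normSq_nonneg _)
  set B := √(normSq (M 0 2) + normSq (M 1 2)) with hBd
  set u := √(nsq (fl M y)) with hud
  have hB0 : 0 ≤ B := Real.sqrt_nonneg _
  have hu0 : 0 ≤ u := Real.sqrt_nonneg _
  have hB2 : B ^ 2 = normSq (M 0 2) + normSq (M 1 2) := Real.sq_sqrt e1
  have hu2 : u ^ 2 = nsq (fl M y) := Real.sq_sqrt e2
  have hA2 : ‖M 2 2‖ ^ 2 = normSq (M 2 2) := (normSq_eq_norm_sq _).symm
  have hB : 3.56 ≤ B := by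
    by_contra h
    push Not at h
    nlinarith
  have hu : u ≤ 0.75 := by
    have h3 : nsq (fl M y) = normSq (fl M y).1 + normSq (fl M y).2 := rfl
    by_contra h
    push Not at h
    nlinarith
  have hw : ‖conj (fl M y).1 * M 0 2 + conj (fl M y).2 * M 1 2‖ ≤ u * B := by
    refine (norm_add_le _ _).trans ?_
    rw [norm_mul, norm_mul, Complex.norm_conj, Complex.norm_conj]
    refine abs_le_of_sq_le_sq' ?_ (mul_nonneg hu0 hB0) |>.2
    rw [mul_pow, hu2, hB2]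
    have h3 : nsq (fl M y) = ‖(fl M y).1‖ ^ 2 + ‖(fl M y).2‖ ^ 2 := by
      rw [← normSq_eq_norm_sq, ← normSq_eq_norm_sq]
      rfl
    rw [h3, normSq_eq_norm_sq, normSq_eq_norm_sq]
    nlinarith [sq_nonneg (‖(fl M y).1‖ * ‖M 1 2‖ - ‖(fl M y).2‖ * ‖M 0 2‖)]
  obtain ⟨q, q'⟩ := q1 (norm_nonneg (M 2 2)) hB (by rw [hA2, hB2]; linarith) hu0 hu
  have := core hM hy hw hu2.le q'
  linarith

private theorem bd2 {M : Matrix (Fin 3) (Fin 3) ℂ} (hM : UM M) {y : E} (hy : y ∈ Dp)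
    {c m : ℂ} (hc1 : normSq c < 0.28125) (hc2 : normSq c ≤ nsq (fl M y))
    (hm : normSq m = normSq (M 2 2) - 1)
    (hw : ‖conj (fl M y).1 * M 0 2 + conj (fl M y).2 * M 1 2‖ ≤ ‖c‖ * ‖m‖) :
    normSq (M 2 2) < 6.8 := by
  by_contra hc
  push Not at hc
  have hA2 : ‖M 2 2‖ ^ 2 = normSq (M 2 2) := (normSq_eq_norm_sq _).symm
  have hm2 : ‖m‖ ^ 2 = normSq m := (normSq_eq_norm_sq _).symm
  have hcc : ‖c‖ ^ 2 = normSq c := (normSq_eq_norm_sq _).symm
  have hm0 := norm_nonneg m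
  have hc0 := norm_nonneg c
  have hB : 2.408 ≤ ‖m‖ := by
    by_contra h
    push Not at h
    nlinarith
  have hu : ‖c‖ ≤ 0.5304 := by
    by_contra h
    push Not at h
    nlinarith
  obtain ⟨q, q'⟩ := q2 (norm_nonneg (M 2 2)) hB (by rw [hA2, hm2, hm]; ring) hc0 hu
  have := core hM hy hw (by rw [hcc]; exact hc2) q'
  linarith

theorem alpha_bd2 {M : Matrix (Fin 3) (Fin 3) ℂ} (hM : UM M) {y : E} (hy : y ∈ Dp)
    (hz : fl M y ∈ Dp) (h0 : M 0 2 = 0 ∨ M 1 2 = 0) : normSq (M 2 2) < 6.8 := by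
  have hcol := col_id hM
  obtain ⟨h1, h2⟩ := Dp_bd hz
  have hn1 := normSq_nonneg (fl M y).1
  have hn2 := normSq_nonneg (fl M y).2
  have h3 : nsq (fl M y) = normSq (fl M y).1 + normSq (fl M y).2 := rfl
  rcases h0 with h0 | h0
  · refine bd2 hM hy h2 (by linarith) (m := M 1 2) ?_ ?_
    · rw [← hcol, h0, map_zero, zero_add]
    · rw [h0, mul_zero, zero_add, norm_mul, Complex.norm_conj]
  · refine bd2 hM hy h1 (by linarith) (m := M 0 2) ?_ ?_
    · rw [← hcol, h0, map_zero, add_zero]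
    · rw [h0, mul_zero, add_zero, norm_mul, Complex.norm_conj]

end H84.AR
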